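import Pool.Agent.H454.PF.Stm
import Pool.Graph.R_pool_sql_team_seeded_63374d34.N963.GN.T4b
import Pool.Graph.R_pool_sql_team_seeded_63374d34.N963.GN.Main
import Pool.Graph.R_pool_sql_team_seeded_63374d34.N525.GN.C5
import Pool.Graph.R_pool_sql_team_seeded_63374d34.N134.GN.C2
import Pool.Graph.R_pool_sql_team_seeded_63374d34.N455.GN.C3
import Pool.Graph.R_pool_sql_team_seeded_63374d34.N186.GN.C4
import Pool.Graph.R_pool_sql_team_seeded_63374d34.N963.GN.C6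
import Pool.Graph.R_pool_sql_team_seeded_63374d34.N400.GN.H2
import Pool.Graph.R_pool_sql_team_seeded_63374d34.N400.GN.H3
import Pool.Graph.R_pool_sql_team_seeded_63374d34.N282.GN.T5
import Pool.Graph.R_pool_sql_team_seeded_3dad9d7b.NH98.RT.Had

set_option autoImplicit false

/-!
# Project PF: assembly
-/

namespace Pool.Agent.H454.PF

open Complex Filter Topology MeasureTheory Polynomial
open scoped ComplexConjugate
open Pool.Agent.N963.GN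

lemma nz_of_nrz {f : ℂ → ℂ} (h : (NRZ f).Finite) : ∃ z, f z ≠ 0 := by
  by_contra hc
  push Not at hc
  have hsub : Set.range (fun n : ℕ => ((n : ℂ) + I)) ⊆ NRZ f := by
    rintro _ ⟨n, rfl⟩
    refine ⟨hc _, ?_⟩
    simp
  have hinj : Function.Injective (fun n : ℕ => ((n : ℂ) + I)) := by
    intro m n hmn
    have h1 : (m : ℂ) = n := add_right_cancel hmn
    exact_mod_cast h1
  exact (Set.infinite_range_of_injective hinj) (h.subset hsub)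

lemma factor_aux (hk : S_HK) (hr : S_HR) (dv : S_DV) {f : ℂ → ℂ} {σ : ℝ} (hσ0 : 0 ≤ σ) (hσ2 : σ < 2)
    (hf : Differentiable ℂ f) (hs : Sym f) (hg : GrE σ f) (hfin : (NRZ f).Finite) (ρ : ℝ) :
    ∃ (P : ℝ[X]) (g : ℂ → ℂ), P ≠ 0 ∧ RR g ∧ Sym g ∧ GrE σ g ∧ (∀ w, f w = aeval w P * g w) ∧
    ∀ w, ‖w‖ ≤ ρ → g w ≠ 0 := by
  classical
  have hne := nz_of_nrz hfin
  have hfz := Pool.Agent.NH98.RT.Had.finite_zeros hf hne ρ
  have hZf : (NRZ f ∪ {z : ℂ | z ∈ Metric.closedBall (0 : ℂ) ρ ∧ f z = 0}).Finite := hfin.union hfz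
  have hmem : ∀ a, a ∈ hZf.toFinset ↔ (f a = 0 ∧ a.im ≠ 0) ∨ (‖a‖ ≤ ρ ∧ f a = 0) := by
    intro a
    rw [Set.Finite.mem_toFinset]
    simp [NRZ]
  obtain ⟨P, g, hP, hgd, hgs, hgr, hfac, hZ⟩ := dv f σ hσ0 hf hs hne hg hZf.toFinset (by
    intro a ha
    rw [hmem] at ha ⊢
    have h0 : f a = 0 → f (conj a) = 0 := fun h => by rw [hs a, h, map_zero]
    rcases ha with ⟨h1, h2⟩ | ⟨h1, h2⟩
    · left
      refine ⟨h0 h1, ?_⟩
      rw [Complex.conj_im]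
      exact neg_ne_zero.2 h2
    · right
      rw [RCLike.norm_conj]
      exact ⟨h1, h0 h2⟩)
  have hgz : ∀ w, g w = 0 → f w = 0 := fun w hw => by rw [hfac w, hw, mul_zero]
  have hgne : ∃ z, g z ≠ 0 := by
    obtain ⟨z, hz⟩ := hne
    exact ⟨z, fun h => hz (hgz z h)⟩
  refine ⟨P, g, hP, ?_, hgs, hgr, hfac, ?_⟩
  · refine hr hk g hgd hgs ?_ hgne ?_
    · obtain ⟨C, hC, hb⟩ := hgr
      exact ⟨C, σ, hC, hσ0, hσ2, hb⟩
    · intro z hz
      by_contra h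
      exact hZ z ((hmem z).2 (Or.inl ⟨hgz z hz, h⟩)) hz
  · intro w hw h
    exact hZ w ((hmem w).2 (Or.inr ⟨hw, hgz w h⟩)) h

theorem h1_of (hk : S_HK) (hr : S_HR) (dv : S_DV) : S_H1 := by
  intro f hf hs hg hfin ρ
  exact factor_aux hk hr dv (by norm_num : (0 : ℝ) ≤ 3 / 2) (by norm_num) hf hs hg hfin ρ

theorem c1_of (hk : S_HK) (hr : S_HR) (dv : S_DV) : S_C1 := by
  intro f hf hs hg hfin
  obtain ⟨C, σ, hC, hσ0, hσ2, hb⟩ := hg
  obtain ⟨P, g, hP, hrr, hgs, -, hfac, -⟩ := factor_aux hk hr dv hσ0 hσ2 hf hs ⟨C, hC, hb⟩ hfin 0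
  refine ⟨P.natDegree, ?_⟩
  have h := Pool.Agent.N400.GN.h2 P g hP hrr hgs
  rw [← funext hfac] at h
  exact h

variable {K : ℂ → ℂ} {α : ℝ}

/-- operators with a zero -/
theorem main_zero (hk : S_HK) (hr : S_HR) (dv : S_DV) (gr : S_GR) (ns : S_NS) (hK : Kern K α) (hM : MS K α)
    (hL : LD (Lt (fun u : ℝ => K (u : ℂ)))) {φ : ℂ → ℂ} (hφ : LPc φ) {a0 : ℂ} (ha0 : φ a0 = 0)
    {G : ℂ → ℂ} (hG : Differentiable ℂ G) (hs : Sym G) (hgr : Gr2 G)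
    (hop : ∀ z, HasSum (trm φ G z) (Lt (fun u : ℝ => K (u : ℂ)) z)) : (NRZ G).Infinite := by
  intro hfin
  have h1 := h1_of hk hr dv
  obtain ⟨m, hA⟩ := c1_of hk hr dv G hG hs hgr hfin
  obtain ⟨him, ψ, hψ, hφψ⟩ := Pool.Agent.N455.GN.c3 φ hφ a0 ha0
  obtain ⟨-, hd1, hs1, hA1, hsum⟩ := Pool.Agent.N525.GN.t_C5 Pool.Agent.N134.GN.c2 ψ hψ G hG hgr
  obtain ⟨a, rfl⟩ : ∃ a : ℝ, a0 = a := ⟨a0.re, Complex.ext rfl (by simp [him])⟩
  set G1 : ℂ → ℂ := fun z => ∑' n, trm ψ G z n with hG1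
  have hode : ∀ z, deriv G1 z - a * G1 z = Lt (fun u : ℝ => K (u : ℂ)) z := by
    intro z
    have h2 := hsum (a : ℂ) z
    rw [← funext hφψ] at h2
    exact h2.unique (hop z)
  have hgrX : Gro (Lt (fun u : ℝ => K (u : ℂ))) := gro_Lt hK hK.wt (fun u => le_rfl)
  have hdX : Differentiable ℂ (Lt (fun u : ℝ => K (u : ℂ))) := diff_Lt hK.wt
  have hsX : Sym (Lt (fun u : ℝ => K (u : ℂ))) := sym_Lt (fun u => hK.herm u)
  have hXne := hL.ne
  have hXe : (fun z => deriv G1 z - a * G1 z) = Lt (fun u : ℝ => K (u : ℂ)) := funext hode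
  have hGro1 : Gro G1 := gr G1 _ a hd1 hode hgrX
  have hG1ne : ∃ z, G1 z ≠ 0 := by
    by_contra hcon
    push Not at hcon
    obtain ⟨z, hz⟩ := hXne
    apply hz
    have e : G1 = fun _ => 0 := funext hcon
    rw [← hode z, e]
    simp
  have hApp1 : App m G1 := hA1 m hA
  have hfin1 := Pool.Agent.N768.GN.a4 m _ hd1 hG1ne hApp1
  have hAX : App m (Lt (fun u : ℝ => K (u : ℂ))) := by
    have h := Pool.Agent.N525.GN.C5.app_sub hd1 hApp1 a
    rw [← hXe]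
    exact h
  have hfinX := Pool.Agent.N768.GN.a4 m _ hdX hXne hAX
  have hLB := Pool.Agent.N282.GN.t5 h1 _ hdX hsX hgrX hfinX hL
  have hSL : SL G1 := t4b h1 Pool.Agent.N400.GN.h3 G1 a hd1 (hs1 hs) hGro1 hfin1 (by rw [hXe]; exact hL)
    (by rw [hXe]; exact hLB)
  exact ns K α hK hM a G1 hd1 hode hSL

/-- operators without zeros -/
theorem main_gauss (hK : Kern K α) (hdec : ∀ M : ℝ, Integrable (fun u : ℝ => ‖K (u : ℂ)‖ * Real.exp (M * u ^ 2)))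
    (hGa : ∀ lam : ℝ, 0 < lam → (NRZ (Lt (fun u : ℝ => K (u : ℂ) * ((Real.exp (-(lam * u ^ 2)) : ℝ) : ℂ)))).Infinite)
    {φ : ℂ → ℂ} (hφ : LPc φ) (h0 : ∀ s, φ s ≠ 0) (hne : ¬ ∃ c β : ℝ, ∀ s : ℂ, φ s = c * cexp (β * s))
    {G : ℂ → ℂ} (hG : Differentiable ℂ G) (hgr : Gr2 G)
    (hop : ∀ z, HasSum (trm φ G z) (Lt (fun u : ℝ => K (u : ℂ)) z)) : (NRZ G).Infinite := by
  obtain ⟨c, β, lam, hc, hlam, hφe⟩ := Pool.Agent.N186.GN.c4 Pool.Agent.N134.GN.c2 φ hφ h0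
  have hlam' : 0 < lam := by
    rcases hlam.lt_or_eq with h | h
    · exact h
    · exfalso
      apply hne
      refine ⟨c, β, fun s => ?_⟩
      rw [hφe s, ← h]
      simp
  have hφf : φ = fun s => c * cexp (β * s - lam * s ^ 2) := funext hφe
  have hG2 := Pool.Agent.N963.GNC6.c6 (fun u : ℝ => K (u : ℂ)) hK.wt hdec c β lam hc hlam G hG hgr (fun z => by
    have := hop z
    rw [hφf] at this
    exact this)
  have hinf := hGa lam hlam'
  have hc' : (c : ℂ) ≠ 0 := by exact_mod_cast hc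
  intro hfin
  apply hinf
  have hsub : NRZ (Lt (fun u : ℝ => K (u : ℂ) * ((Real.exp (-(lam * u ^ 2)) : ℝ) : ℂ))) ⊆
      (fun z => z - (β : ℂ)) '' NRZ G := by
    rintro w ⟨hw, him⟩
    refine ⟨w + β, ⟨?_, ?_⟩, by ring⟩
    · rw [hG2, add_sub_cancel_right, hw, mul_zero]
    · rw [Complex.add_im, Complex.ofReal_im, add_zero]
      exact him
  exact (hfin.image _).subset hsub

end Pool.Agent.H454.PF
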