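import Pool.Agent.H454.PF.Stm4
import Pool.Agent.H575.RD.D1

set_option autoImplicit false

/-!
# PF-DE: Ramanujan's function gives the analytic data `MF` of level one and weight `12`
-/

namespace Pool.Agent.H734.PFDE

open Complex Filter Topology MeasureTheory MatrixGroups CongruenceSubgroup
open UpperHalfPlane hiding I
open scoped ComplexConjugate
open Pool.Agent.N963.GN Pool.Agent.H454.PF
open Pool.Agent.H575.RD (Dl Dl_eq PP PP_f PP_g)

theorem coeff_zero : (qExpansion 1 CuspForm.discriminant).coeff 0 = 0 := by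
  rw [CuspFormClass.qExpansion_coeff_zero (Γ := 𝒮ℒ) (k := 12) CuspForm.discriminant one_pos (by simp)]

theorem coeff_one : (qExpansion 1 CuspForm.discriminant).coeff 1 = 1 := by
  rw [CuspForm.coe_discriminant]
  exact ModularForm.discriminant_qExpansion_coeff_one

theorem sum1 (τ : ℂ) (hτ : 0 < τ.im) :
    HasSum (fun n : ℕ => (qExpansion 1 CuspForm.discriminant).coeff (n + 1) *
      cexp (2 * Real.pi * I * ((n + 1 : ℕ) : ℂ) * τ)) (CuspForm.discriminant (ofComplex τ)) := by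
  have h := ModularForm.hasSum_qExpansion (Γ := 𝒮ℒ) (k := 12) CuspForm.discriminant one_pos
    (by simp) (ofComplex τ)
  have h2 := (hasSum_nat_add_iff' 1).2 h
  simp only [Finset.range_one, Finset.sum_singleton, coeff_zero, zero_mul, sub_zero] at h2
  refine h2.congr_fun ?_
  intro m
  congr 1
  rw [ofComplex_apply_of_im_pos hτ]
  unfold Function.Periodic.qParam
  rw [← Complex.exp_nat_mul]
  simp only
  push_cast
  congr 1
  ring

theorem coeff_bound1 : ∃ B : ℝ, 0 ≤ B ∧ ∀ m : ℕ, 1 ≤ m →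
    ‖(qExpansion 1 CuspForm.discriminant).coeff m‖ ≤ B * (m : ℝ) ^ 12 := by
  have h := CuspFormClass.qExpansion_isBigO (k := 12) CuspForm.discriminant
  rw [Subgroup.strictWidthInfty_SL2Z] at h
  obtain ⟨C, hC⟩ := h.bound
  obtain ⟨M, hM⟩ := eventually_atTop.1 hC
  set S : ℝ := ∑ m ∈ Finset.range M, ‖(qExpansion 1 CuspForm.discriminant).coeff m‖ with hS
  have hS0 : 0 ≤ S := Finset.sum_nonneg fun m _ => by positivity
  refine ⟨|C| + S, by positivity, ?_⟩
  intro m hm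
  have hm1 : (1 : ℝ) ≤ m := by exact_mod_cast hm
  have hp : (1 : ℝ) ≤ (m : ℝ) ^ 12 := one_le_pow₀ hm1
  rcases lt_or_ge m M with hlt | hge
  · have h1 : ‖(qExpansion 1 CuspForm.discriminant).coeff m‖ ≤ S :=
      Finset.single_le_sum (f := fun m : ℕ => ‖(qExpansion 1 CuspForm.discriminant).coeff m‖)
        (fun i _ => by positivity) (Finset.mem_range.2 hlt)
    have h2 := abs_nonneg C
    calc ‖(qExpansion 1 CuspForm.discriminant).coeff m‖ ≤ (|C| + S) * 1 := by linarith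
      _ ≤ (|C| + S) * (m : ℝ) ^ 12 := by gcongr
  · have h1 := hM m hge
    have h3 : ‖(m : ℝ) ^ (((12 : ℤ) : ℝ) / 2)‖ ≤ (m : ℝ) ^ 12 := by
      rw [Real.norm_of_nonneg (Real.rpow_nonneg (by linarith) _)]
      have e1 : (m : ℝ) ^ 12 = (m : ℝ) ^ (12 : ℝ) := by
        rw [show (12 : ℝ) = ((12 : ℕ) : ℝ) by norm_num, Real.rpow_natCast]
      rw [e1]
      apply Real.rpow_le_rpow_of_exponent_le hm1
      norm_num
    calc ‖(qExpansion 1 CuspForm.discriminant).coeff m‖ ≤ C * ‖(m : ℝ) ^ (((12 : ℤ) : ℝ) / 2)‖ := h1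
      _ ≤ |C| * ‖(m : ℝ) ^ (((12 : ℤ) : ℝ) / 2)‖ := by
          gcongr
          exact le_abs_self C
      _ ≤ |C| * (m : ℝ) ^ 12 := by gcongr
      _ ≤ (|C| + S) * (m : ℝ) ^ 12 := by
          gcongr
          linarith

theorem bound1 : ∃ B : ℝ, 0 ≤ B ∧ ∀ τ : ℂ, 0 < τ.im →
    ‖CuspForm.discriminant (ofComplex τ)‖ ^ 2 * τ.im ^ 12 ≤ B := by
  obtain ⟨C, hC⟩ := CuspFormClass.petersson_bounded_left 12 𝒮ℒ CuspForm.discriminant
    CuspForm.discriminant
  refine ⟨C, (norm_nonneg _).trans (hC (ofComplex I)), ?_⟩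
  intro τ hτ
  have h1 := hC (ofComplex τ)
  have e12 : (((ofComplex τ).im : ℝ) : ℂ) ^ (12 : ℤ) = (((ofComplex τ).im : ℝ) : ℂ) ^ (12 : ℕ) := by
    norm_cast
  rw [petersson, norm_mul, norm_mul, Complex.norm_conj, e12, norm_pow, Complex.norm_real,
    Real.norm_of_nonneg (ofComplex τ).im_pos.le] at h1
  have h2 : (ofComplex τ).im = τ.im := by
    rw [ofComplex_apply_of_im_pos hτ]
    rfl
  rw [h2] at h1
  rw [sq]
  exact h1

theorem aut1 (a b' c d : ℤ) (h1 : a * d - b' * c = 1) (τ : ℂ) (hτ : 0 < τ.im) :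
    CuspForm.discriminant (ofComplex ((a * τ + b') / (c * τ + d))) =
      (c * τ + d) ^ 12 * CuspForm.discriminant (ofComplex τ) := by
  set g : SL(2, ℤ) := ⟨!![a, b'; c, d], by rw [Matrix.det_fin_two_of]; exact h1⟩ with hg
  have hgm : (Matrix.SpecialLinearGroup.mapGL ℝ g) ∈ (𝒮ℒ : Subgroup (GL (Fin 2) ℝ)) := ⟨g, rfl⟩
  have h5 := SlashInvariantForm.slash_action_eqn'' (Γ := 𝒮ℒ) (k := 12) CuspForm.discriminant hgm
    (ofComplex τ)
  have h6 : ((g • ofComplex τ : ℍ) : ℂ) = (a * τ + b') / (c * τ + d) := by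
    rw [coe_specialLinearGroup_apply, ofComplex_apply_of_im_pos hτ]
    simp [hg]
  have h7 : ofComplex ((a * τ + b') / (c * τ + d)) = g • ofComplex τ := by
    rw [← h6, ofComplex_apply]
  rw [h7]
  refine Eq.trans h5 ?_
  congr 1
  rw [show ((12 : ℤ)) = ((12 : ℕ) : ℤ) by norm_num, zpow_natCast]
  congr 1
  rw [denom, ofComplex_apply_of_im_pos hτ]
  simp only [hg]
  have e1 : (((Matrix.SpecialLinearGroup.map (Int.castRingHom ℝ)) g : Matrix (Fin 2) (Fin 2) ℝ) 1 0) =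
      (c : ℝ) := rfl
  have e2 : (((Matrix.SpecialLinearGroup.map (Int.castRingHom ℝ)) g : Matrix (Fin 2) (Fin 2) ℝ) 1 1) =
      (d : ℝ) := rfl
  change (((((Matrix.SpecialLinearGroup.map (Int.castRingHom ℝ)) g : Matrix (Fin 2) (Fin 2) ℝ) 1 0 :
    ℝ) : ℂ)) * τ + (((((Matrix.SpecialLinearGroup.map (Int.castRingHom ℝ)) g :
    Matrix (Fin 2) (Fin 2) ℝ) 1 1 : ℝ) : ℂ)) = _
  rw [e1, e2]
  push_cast
  rfl

theorem Dl_inv {x : ℝ} (hx : 0 < x) : Dl (1 / x) = x ^ 12 * Dl x := by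
  have h := PP.h_feq x hx
  rw [PP_f (by positivity), PP_g hx] at h
  have hk : PP.k = 12 := by
    show (((12 : ℤ) : ℝ)) = 12
    norm_num
  have hε : PP.ε = 1 := by
    show (I : ℂ) ^ (12 : ℤ) = 1
    have : (I : ℂ) ^ (12 : ℤ) = ((I : ℂ) ^ 4) ^ 3 := by
      rw [← pow_mul]
      norm_cast
    rw [this, I_pow_four, one_pow]
  rw [hk, hε, one_mul, smul_eq_mul] at h
  have e : x ^ (12 : ℝ) = x ^ 12 := by
    rw [show (12 : ℝ) = ((12 : ℕ) : ℝ) by norm_num, Real.rpow_natCast]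
  rw [e] at h
  exact_mod_cast h

theorem Km_eq (u : ℝ) : Km 1 12 (fun z => CuspForm.discriminant (ofComplex z)) 1 (u : ℂ) =
    ((Dl (Real.exp u) * Real.exp (6 * u) : ℝ) : ℂ) := by
  unfold Km
  have e1 : I * cexp (u : ℂ) / ((Real.sqrt ((1 : ℕ) : ℝ) : ℝ) : ℂ) = I * ((Real.exp u : ℝ) : ℂ) := by
    rw [Nat.cast_one, Real.sqrt_one]
    push_cast
    ring
  have e2 : cexp (((12 : ℕ) : ℂ) * (u : ℂ) / 2) = ((Real.exp (6 * u) : ℝ) : ℂ) := by
    push_cast
    congr 1
    ring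
  rw [e1, e2]
  show 1 * CuspForm.discriminant (ofComplex (I * ((Real.exp u : ℝ) : ℂ))) * _ = _
  rw [Dl_eq (Real.exp_pos u), one_mul]
  push_cast
  rfl

theorem mfD : MF 1 12 (fun z => CuspForm.discriminant (ofComplex z))
    (fun n => (qExpansion 1 CuspForm.discriminant).coeff n) 1 where
  hN := one_pos
  hk := by norm_num
  sum := sum1
  b1 := by
    show (qExpansion 1 CuspForm.discriminant).coeff 1 ≠ 0
    rw [coeff_one]
    exact one_ne_zero
  bb := coeff_bound1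
  bound := bound1
  aut := fun a b' c d h1 _ _ _ τ hτ => aut1 a b' c d h1 τ hτ
  κ0 := one_ne_zero
  herm := by
    intro u
    rw [Km_eq, Km_eq, Complex.conj_ofReal]
    have h := Dl_inv (Real.exp_pos u)
    rw [one_div, ← Real.exp_neg] at h
    rw [h]
    congr 1
    have e1 : Real.exp u ^ 12 = Real.exp (12 * u) := by
      rw [← Real.exp_nat_mul]
      norm_num
    have e2 : Real.exp (12 * u) * Real.exp (6 * -u) = Real.exp (6 * u) := by
      rw [← Real.exp_add]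
      congr 1
      ring
    rw [e1]
    linear_combination Dl (Real.exp u) * e2

theorem t_DE : S_DE :=
  ⟨fun z => CuspForm.discriminant (ofComplex z),
    fun n => (qExpansion 1 CuspForm.discriminant).coeff n, mfD, fun _ hy => Dl_eq hy⟩

end Pool.Agent.H734.PFDE
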