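import Pool.Agent.H454.PF.Stm
import Pool.Graph.R_pool_sql_team_seeded_3dad9d7b.NH98.RT.Had

set_option autoImplicit false

namespace Pool.Agent.H389.PF_DV

open Complex Filter Topology MeasureTheory Polynomial
open scoped ComplexConjugate
open Pool.Agent.N963.GN Pool.Agent.H454.PF

/-- division by the product of the linear factors -/
theorem div_prod {f : ℂ → ℂ} (hf : Differentiable ℂ f) (hne : ∃ z, f z ≠ 0) (S : Finset ℂ) :
    ∃ g : ℂ → ℂ, Differentiable ℂ g ∧ (∀ a ∈ S, g a ≠ 0) ∧
      ∀ z, f z = (∏ a ∈ S, (z - a) ^ (analyticOrderNatAt f a)) * g z := by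
  classical
  induction S using Finset.induction_on with
  | empty => exact ⟨f, hf, by simp, by simp⟩
  | insert a S ha ih =>
    obtain ⟨g, hg, hgS, hfg⟩ := ih
    have hne' : ∃ z, g z ≠ 0 := by
      obtain ⟨z, hz⟩ := hne
      refine ⟨z, fun h => hz ?_⟩
      rw [hfg z, h, mul_zero]
    obtain ⟨g₁, hg₁, hg₁a, hgg₁⟩ := Pool.Agent.NH98.RT.Had.exists_div hg hne' a
    set P : ℂ → ℂ := fun z => ∏ a ∈ S, (z - a) ^ (analyticOrderNatAt f a) with hP
    have hPd : Differentiable ℂ P := by
      intro z
      apply DifferentiableAt.fun_finsetProd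
      intro i _
      fun_prop
    have hPa : P a ≠ 0 := by
      rw [hP]
      simp only
      rw [Finset.prod_ne_zero_iff]
      intro b hb
      apply pow_ne_zero
      intro h
      exact ha (by rw [sub_eq_zero.mp h]; exact hb)
    have hord : analyticOrderNatAt f a = analyticOrderNatAt g a := by
      have h1 : f = P * g := funext hfg
      unfold analyticOrderNatAt
      rw [h1, analyticOrderAt_mul (hPd.analyticAt a) (hg.analyticAt a),
        ((hPd.analyticAt a).analyticOrderAt_eq_zero).mpr hPa, zero_add]
    refine ⟨g₁, hg₁, ?_, ?_⟩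
    · intro b hb
      rw [Finset.mem_insert] at hb
      rcases hb with rfl | hb
      · exact hg₁a
      · intro h
        apply hgS b hb
        rw [hgg₁ b, h, mul_zero]
    · intro z
      rw [Finset.prod_insert ha, hfg z, hgg₁ z, ← hord]
      ring

/-- the order is symmetric -/
theorem order_conj {f : ℂ → ℂ} (hf : Differentiable ℂ f) (hs : Sym f) (hne : ∃ z, f z ≠ 0) (a : ℂ) :
    analyticOrderNatAt f (conj a) = analyticOrderNatAt f a := by
  obtain ⟨g, hg, hga, hfg⟩ := Pool.Agent.NH98.RT.Had.exists_div hf hne a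
  set k : ℂ → ℂ := fun z => conj (g (conj z)) with hk
  have hkd : Differentiable ℂ k := by
    intro z
    have h1 := (hg (conj z)).conj_conj
    rw [Complex.conj_conj] at h1
    exact h1
  have h1 : ∀ z, f z = (z - conj a) ^ (analyticOrderNatAt f a) * k z := by
    intro z
    have h2 := hs (conj z)
    rw [Complex.conj_conj] at h2
    rw [h2, hfg (conj z), hk]
    simp only [map_mul, map_pow, map_sub, Complex.conj_conj]
  have h2 : analyticOrderAt f (conj a) = ((analyticOrderNatAt f a : ℕ) : ℕ∞) := by
    rw [(hf.analyticAt (conj a)).analyticOrderAt_eq_natCast]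
    refine ⟨k, hkd.analyticAt _, ?_, ?_⟩
    · rw [hk]
      simp only [Complex.conj_conj]
      intro h3
      exact hga (by simpa using h3)
    · filter_upwards with z
      rw [smul_eq_mul]
      exact h1 z
  have h3 : analyticOrderNatAt f (conj a) = (analyticOrderAt f (conj a)).toNat := rfl
  rw [h3, h2]
  rfl

theorem t_DV : S_DV := by
  intro f σ hσ hf hs hne hG Z hZ
  classical
  obtain ⟨g, hg, hgZ, hfg⟩ := div_prod hf hne Z
  set p : ℂ[X] := ∏ a ∈ Z, (X - C a) ^ (analyticOrderNatAt f a) with hp
  have hpe : ∀ z, eval z p = ∏ a ∈ Z, (z - a) ^ (analyticOrderNatAt f a) := by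
    intro z
    rw [hp, eval_prod]
    simp
  have hmon : p.Monic := by
    apply monic_prod_of_monic
    intro a _
    exact (monic_X_sub_C a).pow _
  have hconj : p.map (starRingEnd ℂ) = p := by
    rw [hp, Polynomial.map_prod]
    refine Finset.prod_nbij' (fun a => conj a) (fun a => conj a) ?_ ?_ ?_ ?_ ?_
    · intro a ha; exact hZ a ha
    · intro a ha; exact hZ a ha
    · intro a _; simp
    · intro a _; simp
    · intro a _
      rw [order_conj hf hs hne]
      simp
  have hlift : p ∈ lifts (algebraMap ℝ ℂ) := by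
    rw [lifts_iff_coeff_lifts]
    intro n
    have h1 : conj (p.coeff n) = p.coeff n := by
      conv_rhs => rw [← hconj]
      rw [coeff_map]
    obtain ⟨r, hr⟩ := Complex.conj_eq_iff_real.1 h1
    exact ⟨r, by rw [hr]; rfl⟩
  obtain ⟨P, hP⟩ := (mem_lifts p).1 hlift
  have hPe : ∀ w : ℂ, aeval w P = eval w p := by
    intro w
    rw [← hP, eval_map, aeval_def]
  refine ⟨P, g, ?_, hg, ?_, ?_, ?_, hgZ⟩
  · intro h
    rw [h, Polynomial.map_zero] at hP
    exact hmon.ne_zero hP.symm
  · -- symmetry
    have hd : Dense (((Z : Set ℂ))ᶜ) := Z.countable_toSet.dense_compl ℂ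
    have h1 : (fun z => g (conj z)) = fun z => conj (g z) := by
      apply Continuous.ext_on hd
      · exact hg.continuous.comp Complex.continuous_conj
      · exact Complex.continuous_conj.comp hg.continuous
      · intro z hz
        have hz0 : eval z p ≠ 0 := by
          rw [hpe, Finset.prod_ne_zero_iff]
          intro a ha
          apply pow_ne_zero
          intro h2
          apply hz
          rw [sub_eq_zero.1 h2]
          exact ha
        have e1 : eval (conj z) p = conj (eval z p) := by
          conv_lhs => rw [← hconj]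
          rw [eval_map, eval₂_hom]
        have e2 := hfg (conj z)
        rw [hs z, hfg z, ← hpe, ← hpe, e1, map_mul] at e2
        have e3 : conj (eval z p) ≠ 0 := by
          intro h3
          exact hz0 (by simpa using h3)
        exact (mul_left_cancel₀ e3 e2).symm
    intro z
    exact congrFun h1 z
  · -- growth
    obtain ⟨C₀, hC₀, hfC⟩ := hG
    set R : ℝ := 1 + ∑ a ∈ Z, ‖a‖ with hR
    have hRa : ∀ a ∈ Z, ‖a‖ + 1 ≤ R := by
      intro a ha
      have h1 := Finset.single_le_sum (f := fun a : ℂ => ‖a‖) (fun i _ => norm_nonneg i) ha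
      rw [hR]
      linarith
    obtain ⟨M, hM⟩ := (isCompact_closedBall (0 : ℂ) R).exists_bound_of_continuousOn
      hg.continuous.continuousOn
    have hone : ∀ z : ℂ, (1 : ℝ) ≤ (1 + ‖z‖) ^ σ := by
      intro z
      apply Real.one_le_rpow _ hσ
      have := norm_nonneg z
      linarith
    refine ⟨C₀ + |M|, by positivity, ?_⟩
    intro z
    by_cases hz : ‖z‖ ≤ R
    · have h1 : ‖g z‖ ≤ M := hM z (by simpa using hz)
      have h2 : M ≤ |M| := le_abs_self M
      have h3 : |M| + 1 ≤ Real.exp |M| := Real.add_one_le_exp _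
      have h4 : |M| ≤ (C₀ + |M|) * (1 + ‖z‖) ^ σ := by
        have h5 := hone z
        have h6 : 0 ≤ |M| := abs_nonneg M
        nlinarith
      have h5 := Real.exp_le_exp.2 h4
      linarith
    · push Not at hz
      have h1 : 1 ≤ ‖∏ a ∈ Z, (z - a) ^ (analyticOrderNatAt f a)‖ := by
        rw [norm_prod]
        refine Finset.prod_induction _ (fun x : ℝ => 1 ≤ x)
          (fun x y hx hy => one_le_mul_of_one_le_of_one_le hx hy) le_rfl (fun a ha => ?_)
        rw [norm_pow]
        apply one_le_pow₀
        have h2 := norm_sub_norm_le z a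
        have h3 := hRa a ha
        linarith
      have h2 : ‖g z‖ ≤ ‖f z‖ := by
        rw [hfg z, norm_mul]
        have := norm_nonneg (g z)
        nlinarith
      refine h2.trans ((hfC z).trans (Real.exp_le_exp.2 ?_))
      have h5 := hone z
      have h6 : 0 ≤ |M| := abs_nonneg M
      nlinarith
  · intro w
    rw [hPe, hpe]
    exact hfg w

end Pool.Agent.H389.PF_DV
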