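import Pool.Agent.H454.PF.Stm4

set_option autoImplicit false
set_option linter.unusedSectionVars false

/-!
# Project PF, task EE: the newform of an elliptic curve gives the analytic data (helper113)
-/

namespace Pool.Agent.H113.PFE

open UpperHalfPlane hiding I
open Complex Filter Topology MatrixGroups CongruenceSubgroup
open scoped ComplexConjugate
open Pool.Agent.N963.GN Pool.Agent.H454.PF

section

variable {N : ℕ} [NeZero N] {k : ℕ} (f : CuspForm (Gamma0 N : Subgroup (GL (Fin 2) ℝ)) (k : ℤ))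

theorem one_mem1 : (1 : ℝ) ∈ (Gamma0 N : Subgroup (GL (Fin 2) ℝ)).strictPeriods := by
  rw [strictPeriods_Gamma0]
  exact AddSubgroup.mem_zmultiples 1

theorem coeff_zero1 : (qExpansion 1 f).coeff 0 = 0 := by
  rw [CuspFormClass.qExpansion_coeff_zero (Γ := (Gamma0 N : Subgroup (GL (Fin 2) ℝ))) (k := (k : ℤ))
    f one_pos one_mem1]

theorem sum1 (τ : ℂ) (hτ : 0 < τ.im) :
    HasSum (fun n : ℕ => (qExpansion 1 f).coeff (n + 1) *
      cexp (2 * Real.pi * I * ((n + 1 : ℕ) : ℂ) * τ)) (f (ofComplex τ)) := by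
  have h := ModularForm.hasSum_qExpansion (Γ := (Gamma0 N : Subgroup (GL (Fin 2) ℝ)))
    (k := (k : ℤ)) f one_pos one_mem1 (ofComplex τ)
  have h2 := (hasSum_nat_add_iff' 1).2 h
  simp only [Finset.range_one, Finset.sum_singleton, coeff_zero1, zero_mul, sub_zero] at h2
  refine h2.congr_fun ?_
  intro m
  congr 1
  rw [ofComplex_apply_of_im_pos hτ]
  unfold Function.Periodic.qParam
  rw [← Complex.exp_nat_mul]
  simp only
  push_cast
  congr 1
  ring

theorem coeff_bound1 : ∃ B : ℝ, 0 ≤ B ∧ ∀ m : ℕ, 1 ≤ m →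
    ‖(qExpansion 1 f).coeff m‖ ≤ B * (m : ℝ) ^ k := by
  have h := CuspFormClass.qExpansion_isBigO (k := (k : ℤ)) (Γ := (Gamma0 N : Subgroup (GL (Fin 2) ℝ))) f
  rw [strictWidthInfty_Gamma0] at h
  obtain ⟨C, hC⟩ := h.bound
  obtain ⟨M, hM⟩ := eventually_atTop.1 hC
  set S : ℝ := ∑ m ∈ Finset.range M, ‖(qExpansion 1 f).coeff m‖ with hS
  have hS0 : 0 ≤ S := Finset.sum_nonneg fun m _ => by positivity
  refine ⟨|C| + S, by positivity, ?_⟩
  intro m hm
  have hm1 : (1 : ℝ) ≤ m := by exact_mod_cast hm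
  have hp : (1 : ℝ) ≤ (m : ℝ) ^ k := one_le_pow₀ hm1
  rcases lt_or_ge m M with hlt | hge
  · have h1 : ‖(qExpansion 1 f).coeff m‖ ≤ S :=
      Finset.single_le_sum (f := fun m : ℕ => ‖(qExpansion 1 f).coeff m‖)
        (fun i _ => by positivity) (Finset.mem_range.2 hlt)
    have h2 := abs_nonneg C
    calc ‖(qExpansion 1 f).coeff m‖ ≤ (|C| + S) * 1 := by linarith
      _ ≤ (|C| + S) * (m : ℝ) ^ k := by gcongr
  · have h1 := hM m hge
    have h3 : ‖(m : ℝ) ^ (((k : ℤ) : ℝ) / 2)‖ ≤ (m : ℝ) ^ k := by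
      rw [Real.norm_of_nonneg (Real.rpow_nonneg (by linarith) _), ← Real.rpow_natCast (m : ℝ) k]
      apply Real.rpow_le_rpow_of_exponent_le hm1
      push_cast
      have : (0 : ℝ) ≤ k := Nat.cast_nonneg _
      linarith
    calc ‖(qExpansion 1 f).coeff m‖ ≤ C * ‖(m : ℝ) ^ (((k : ℤ) : ℝ) / 2)‖ := h1
      _ ≤ |C| * ‖(m : ℝ) ^ (((k : ℤ) : ℝ) / 2)‖ := by
          gcongr
          exact le_abs_self C
      _ ≤ |C| * (m : ℝ) ^ k := by gcongr
      _ ≤ (|C| + S) * (m : ℝ) ^ k := by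
          gcongr
          linarith

theorem bound1 : ∃ B : ℝ, 0 ≤ B ∧ ∀ τ : ℂ, 0 < τ.im → ‖f (ofComplex τ)‖ ^ 2 * τ.im ^ k ≤ B := by
  obtain ⟨C, hC⟩ := CuspFormClass.petersson_bounded_left (k : ℤ)
    (Gamma0 N : Subgroup (GL (Fin 2) ℝ)) f f
  refine ⟨C, (norm_nonneg _).trans (hC (ofComplex I)), ?_⟩
  intro τ hτ
  have h1 := hC (ofComplex τ)
  rw [petersson, norm_mul, norm_mul, Complex.norm_conj, norm_zpow, zpow_natCast, Complex.norm_real,
    Real.norm_of_nonneg (ofComplex τ).im_pos.le] at h1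
  have h2 : (ofComplex τ).im = τ.im := by
    rw [ofComplex_apply_of_im_pos hτ]
    rfl
  rw [h2] at h1
  rw [sq]
  exact h1

theorem aut1 (a b' c d : ℤ) (h1 : a * d - b' * c = 1) (h2 : (N : ℤ) ∣ c)
    (τ : ℂ) (hτ : 0 < τ.im) :
    f (ofComplex ((a * τ + b') / (c * τ + d))) = (c * τ + d) ^ k * f (ofComplex τ) := by
  set g : SL(2, ℤ) := ⟨!![a, b'; c, d], by rw [Matrix.det_fin_two_of]; exact h1⟩ with hg
  have hgm : g ∈ Gamma0 N := by
    rw [Gamma0_mem]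
    exact (ZMod.intCast_zmod_eq_zero_iff_dvd c N).2 h2
  have h5 := SlashInvariantForm.slash_action_eqn_SL'' (Γ := Gamma0 N) (k := (k : ℤ)) f hgm
    (ofComplex τ)
  have h6 : ((g • ofComplex τ : ℍ) : ℂ) = (a * τ + b') / (c * τ + d) := by
    rw [coe_specialLinearGroup_apply, ofComplex_apply_of_im_pos hτ]
    simp [hg]
  have h7 : ofComplex ((a * τ + b') / (c * τ + d)) = g • ofComplex τ := by
    rw [← h6, ofComplex_apply]
  rw [h7, h5]
  congr 1
  rw [zpow_natCast]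
  congr 1
  rw [denom, ofComplex_apply_of_im_pos hτ]
  simp only [hg]
  have e1 : (((Matrix.SpecialLinearGroup.map (Int.castRingHom ℝ)) g : Matrix (Fin 2) (Fin 2) ℝ) 1 0) =
      (c : ℝ) := rfl
  have e2 : (((Matrix.SpecialLinearGroup.map (Int.castRingHom ℝ)) g : Matrix (Fin 2) (Fin 2) ℝ) 1 1) =
      (d : ℝ) := rfl
  change (((((Matrix.SpecialLinearGroup.map (Int.castRingHom ℝ)) g : Matrix (Fin 2) (Fin 2) ℝ) 1 0 :
    ℝ) : ℂ)) * τ + (((((Matrix.SpecialLinearGroup.map (Int.castRingHom ℝ)) g :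
    Matrix (Fin 2) (Fin 2) ℝ) 1 1 : ℝ) : ℂ)) = _
  rw [e1, e2]
  push_cast
  rfl

end


/-- the values on the imaginary axis are real -/
theorem real1 {N : ℕ} [NeZero N] {k : ℕ} (f : CuspForm (Gamma0 N : Subgroup (GL (Fin 2) ℝ)) (k : ℤ))
    (hr : ∀ n, ((qExpansion 1 f).coeff n).im = 0) (y : ℝ) (hy : 0 < y) :
    conj (f (ofComplex (I * (y : ℂ)))) = f (ofComplex (I * (y : ℂ))) := by
  have him : 0 < (I * (y : ℂ)).im := by
    rw [Complex.I_mul_im, Complex.ofReal_re]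
    exact hy
  have h1 := sum1 f (I * (y : ℂ)) him
  have h2 := Complex.imCLM.hasSum h1
  have h3 : ∀ n : ℕ, Complex.imCLM ((qExpansion 1 f).coeff (n + 1) *
      cexp (2 * Real.pi * I * ((n + 1 : ℕ) : ℂ) * (I * (y : ℂ)))) = 0 := by
    intro n
    rw [Complex.imCLM_apply]
    have e : (2 * Real.pi * I * ((n + 1 : ℕ) : ℂ) * (I * (y : ℂ))) =
        ((-(2 * Real.pi * ((n + 1 : ℕ) : ℝ) * y) : ℝ) : ℂ) := by
      push_cast
      linear_combination (2 * Real.pi * ((n : ℂ) + 1) * y) * Complex.I_sq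
    rw [e, ← Complex.ofReal_exp, Complex.im_mul_ofReal, hr, zero_mul]
  have h4 : HasSum (fun _ : ℕ => (0 : ℝ)) (Complex.imCLM (f (ofComplex (I * (y : ℂ))))) :=
    h2.congr_fun fun n => (h3 n).symm
  have h5 := h4.unique hasSum_zero
  exact Complex.conj_eq_iff_im.2 h5

/-- the general weight -/
theorem main {N : ℕ} [NeZero N] {k : ℕ} (hk : k = 2)
    (f : CuspForm (Gamma0 N : Subgroup (GL (Fin 2) ℝ)) (k : ℤ))
    (hb1 : (qExpansion 1 f).coeff 1 = 1) (hr : ∀ n, ((qExpansion 1 f).coeff n).im = 0) (w : ℝ)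
    (hw : w = 1 ∨ w = -1)
    (hF : ∀ τ τ' : ℍ, (τ' : ℂ) * ((N : ℂ) * (τ : ℂ)) = -1 →
      f τ' = -(w : ℂ) * (N : ℂ) * (τ : ℂ) ^ 2 * f τ)
    (κ : ℂ) (h1 : w = 1 → κ = 1) (h2 : w = -1 → κ = I) :
    MF N k (fun z => f (UpperHalfPlane.ofComplex z)) (fun n => (qExpansion 1 f).coeff n) κ := by
  have hN : (0 : ℝ) < N := by exact_mod_cast Nat.pos_of_ne_zero (NeZero.ne N)
  have hsN : 0 < Real.sqrt N := Real.sqrt_pos.2 hN
  have hNc : (N : ℂ) ≠ 0 := by exact_mod_cast hN.ne'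
  have hsNc : ((Real.sqrt N : ℝ) : ℂ) ≠ 0 := by exact_mod_cast hsN.ne'
  have hsq : ((Real.sqrt N : ℝ) : ℂ) ^ 2 = N := by
    have : Real.sqrt N ^ 2 = N := Real.sq_sqrt hN.le
    exact_mod_cast this
  have hκ0 : κ ≠ 0 := by
    rcases hw with h | h
    · rw [h1 h]
      exact one_ne_zero
    · rw [h2 h]
      exact Complex.I_ne_zero
  have hκw : κ * (w : ℂ) = conj κ := by
    rcases hw with h | h
    · rw [h1 h, h]
      simp
    · rw [h2 h, h]
      simp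
  refine ⟨Nat.pos_of_ne_zero (NeZero.ne N), by omega, sum1 f, by rw [hb1]; exact one_ne_zero,
    coeff_bound1 f, bound1 f, fun a b' c d e1 e2 _ _ τ hτ => aut1 f a b' c d e1 e2 τ hτ, hκ0, ?_⟩
  intro u
  have hpt : ∀ u : ℝ, I * cexp (u : ℂ) / ((Real.sqrt N : ℝ) : ℂ) =
      I * ((Real.exp u / Real.sqrt N : ℝ) : ℂ) := by
    intro u
    push_cast
    ring
  have him : ∀ u : ℝ, 0 < (I * ((Real.exp u / Real.sqrt N : ℝ) : ℂ)).im := by
    intro u
    rw [Complex.I_mul_im, Complex.ofReal_re]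
    positivity
  have h3 := hF (ofComplex (I * ((Real.exp u / Real.sqrt N : ℝ) : ℂ)))
    (ofComplex (I * ((Real.exp (-u) / Real.sqrt N : ℝ) : ℂ))) (by
      rw [ofComplex_apply_of_im_pos (him u), ofComplex_apply_of_im_pos (him (-u))]
      simp only
      have h2 : cexp (-(u : ℂ)) * cexp (u : ℂ) = 1 := by
        rw [← Complex.exp_add, neg_add_cancel, Complex.exp_zero]
      push_cast
      rw [← hsq]
      field_simp
      linear_combination h2 * (I ^ 2) + Complex.I_sq)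
  have h4 := real1 f hr (Real.exp u / Real.sqrt N) (by positivity)
  unfold Km
  simp only
  rw [hpt, hpt, h3, ofComplex_apply_of_im_pos (him u)]
  simp only
  have h5 : conj (cexp ((k : ℂ) * (u : ℂ) / 2)) = cexp ((k : ℂ) * (u : ℂ) / 2) := by
    rw [← Complex.exp_conj]
    congr 1
    simp [Complex.conj_ofNat]
  rw [ofComplex_apply_of_im_pos (him u)] at h4
  rw [map_mul, map_mul, h5, ← hκw, h4]
  have h6 : (N : ℂ) * (I * ((Real.exp u / Real.sqrt N : ℝ) : ℂ)) ^ 2 =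
      -cexp ((k : ℂ) * (u : ℂ)) := by
    rw [hk, mul_pow, Complex.I_sq]
    have e1 : cexp (((2 : ℕ) : ℂ) * (u : ℂ)) = cexp (u : ℂ) ^ 2 := by
      rw [← Complex.exp_nat_mul]
    rw [e1]
    push_cast
    rw [← hsq]
    field_simp
  have h7 : cexp ((k : ℂ) * (u : ℂ)) * cexp ((k : ℂ) * ((-u : ℝ) : ℂ) / 2) =
      cexp ((k : ℂ) * (u : ℂ) / 2) := by
    rw [← Complex.exp_add]
    congr 1
    push_cast
    ring
  rw [← h7]
  linear_combination (-κ * (w : ℂ) * f ⟨I * ((Real.exp u / Real.sqrt N : ℝ) : ℂ), him u⟩ *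
    cexp ((k : ℂ) * ((-u : ℝ) : ℂ) / 2)) * h6

theorem t_EE : S_EE := by
  intro N _ f hb1 hr w hw hF κ h1 h2
  exact main (k := 2) rfl f hb1 hr w hw hF κ h1 h2

end Pool.Agent.H113.PFE
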