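import Pool.Agent.H454.PF.Stm2
import Pool.Graph.R_pool_sql_team_seeded_63374d34.N455.GN.C3

set_option autoImplicit false

/-!
# Project PF (helper454), PF-EX3: existence of preimages in general
-/

namespace Pool.Agent.H996.PF

open Complex Filter Topology MeasureTheory Polynomial
open Pool.Agent.N963.GN
open Pool.Agent.H454.PF

theorem diff_LPc (φ : ℂ → ℂ) (h : LPc φ) : Differentiable ℂ φ := by
  obtain ⟨_, Q, _, hlim⟩ := h
  have h1 := (tendstoLocallyUniformlyOn_univ.2 hlim).differentiableOn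
    (Eventually.of_forall fun N => (Pool.Agent.N455.GN.diff_aeval (Q N)).differentiableOn)
    isOpen_univ
  exact differentiableOn_univ.1 h1

theorem order_ne_top (φ : ℂ → ℂ) (h : LPc φ) : analyticOrderAt φ 0 ≠ ⊤ := by
  intro ht
  rw [analyticOrderAt_eq_top] at ht
  obtain ⟨z, hz⟩ := h.1
  have hd := diff_LPc φ h
  have h1 : φ = 0 := AnalyticOnNhd.eq_of_eventuallyEq (f := φ) (g := 0) (z₀ := 0)
    (fun w _ => hd.analyticAt w) (fun w _ => analyticAt_const) ht
  exact hz (congrFun h1 z)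

theorem main (h1 : S_EX1) (h2 : S_EX2) (k : ℝ → ℂ) (hk : Wg k) (n : ℕ) :
    ∀ φ : ℂ → ℂ, LPc φ → analyticOrderAt φ 0 = n → ∃ G : ℂ → ℂ, Pre φ (Lt k) G := by
  induction n with
  | zero =>
    intro φ hφ h0
    have hne : φ 0 ≠ 0 := by
      rw [Nat.cast_zero] at h0
      exact ((diff_LPc φ hφ).analyticAt 0).analyticOrderAt_eq_zero.1 h0
    exact ⟨_, (h1 φ hφ hne k hk).2⟩
  | succ n ih =>
    intro φ hφ h0
    have hz : φ 0 = 0 := by
      apply apply_eq_zero_of_analyticOrderAt_ne_zero (𝕜 := ℂ)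
      rw [h0]
      exact_mod_cast Nat.succ_ne_zero n
    obtain ⟨_, ψ, hψ, hs⟩ := Pool.Agent.N455.GN.c3 φ hφ 0 hz
    have he : φ = fun s => s * ψ s := by
      funext s
      rw [hs s, sub_zero]
    have ho : analyticOrderAt φ 0 = 1 + analyticOrderAt ψ 0 := by
      have h3 : φ = id * ψ := he
      rw [h3, analyticOrderAt_mul analyticAt_id ((diff_LPc ψ hψ).analyticAt 0),
        analyticOrderAt_id]
    have ho' : analyticOrderAt ψ 0 = n := by
      rw [ho] at h0
      have ht := order_ne_top ψ hψ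
      obtain ⟨m, hm⟩ := ENat.ne_top_iff_exists.1 ht
      rw [← hm] at h0 ⊢
      have h4 : 1 + m = n + 1 := by exact_mod_cast h0
      have h5 : m = n := by omega
      rw [h5]
    obtain ⟨G1, hG1⟩ := ih ψ hψ ho'
    obtain ⟨G, hG, _⟩ := h2 ψ (Lt k) G1 hψ hG1
    rw [he]
    exact ⟨G, hG⟩

/-- **PF-EX3** -/
theorem t_EX3 : S_EX3 := by
  intro h1 h2 φ hφ k hk
  obtain ⟨m, hm⟩ := ENat.ne_top_iff_exists.1 (order_ne_top φ hφ)
  exact main h1 h2 k hk m φ hφ hm.symm

end Pool.Agent.H996.PF
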