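import Pool.Agent.H454.PF.Stm
import Pool.Graph.R_seed8.H370R2.Digamma

set_option autoImplicit false

/-!
# PF-FX: the logarithmic derivative of the xi function far from the real axis (helper376, for helper454)
-/

namespace Pool.Agent.H376.PFX

open Complex Filter Topology MeasureTheory
open Pool.Agent.H454.PF Pool.Agent.N963.GN

/-- the product formula -/
noncomputable def H (s : ℂ) : ℂ :=
  s * ((s - 1) * (cexp (((-(Real.log Real.pi / 2) : ℝ) : ℂ) * s) * (Gamma (s / 2) * riemannZeta s)))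

lemma re_half (s : ℂ) : (s / 2).re = s.re / 2 := by
  rw [show s / 2 = s / ((2 : ℝ) : ℂ) by norm_num, Complex.div_ofReal_re]

lemma im_half (s : ℂ) : (s / 2).im = s.im / 2 := by
  rw [show s / 2 = s / ((2 : ℝ) : ℂ) by norm_num, Complex.div_ofReal_im]

lemma ne0 {s : ℂ} (hs : 1 < s.re) : s ≠ 0 := by
  rintro rfl
  rw [zero_re] at hs
  linarith

lemma ne1 {s : ℂ} (hs : 1 < s.re) : s - 1 ≠ 0 := by
  intro h
  have h1 : s = 1 := sub_eq_zero.1 h
  rw [h1, one_re] at hs
  linarith

lemma H_eq {s : ℂ} (hs : 1 < s.re) : s * (s - 1) * completedRiemannZeta₀ s + 1 = H s := by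
  have h0 := ne0 hs
  have h1 := ne1 hs
  have h1' : 1 - s ≠ 0 := by
    intro h
    apply h1
    linear_combination -h
  have hG : Gammaℝ s ≠ 0 := Gammaℝ_ne_zero_of_re_pos (by linarith)
  have hpi : (Real.pi : ℂ) ≠ 0 := by exact_mod_cast Real.pi_pos.ne'
  have e1 : completedRiemannZeta₀ s = completedRiemannZeta s + 1 / s + 1 / (1 - s) := by
    rw [completedRiemannZeta_eq]
    ring
  have e2 : completedRiemannZeta s = riemannZeta s * Gammaℝ s := by
    rw [riemannZeta_def_of_ne_zero h0, div_mul_cancel₀ _ hG]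
  have e3 : Gammaℝ s = cexp (((-(Real.log Real.pi / 2) : ℝ) : ℂ) * s) * Gamma (s / 2) := by
    rw [Gammaℝ_def, cpow_def_of_ne_zero hpi, ← Complex.ofReal_log Real.pi_pos.le]
    congr 2
    push_cast
    ring
  have e4 : s * (s - 1) * (1 / s + 1 / (1 - s)) = -1 := by
    field_simp
    ring
  rw [e1, H]
  have e5 : s * (s - 1) * (completedRiemannZeta s + 1 / s + 1 / (1 - s)) + 1 =
      s * (s - 1) * completedRiemannZeta s := by
    linear_combination e4
  rw [e5, e2, e3]
  ring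

lemma H_log {s : ℂ} (hs : 1 < s.re) : H s ≠ 0 ∧ DifferentiableAt ℂ H s ∧
    logDeriv H s = 1 / s + (1 / (s - 1) + (((-(Real.log Real.pi / 2) : ℝ) : ℂ) +
      (logDeriv Gamma (s / 2) / 2 + logDeriv riemannZeta s))) := by
  have h0 := ne0 hs
  have h1 := ne1 hs
  have hs2 : 0 < (s / 2).re := by
    rw [re_half]
    linarith
  have hG0 : Gamma (s / 2) ≠ 0 := Gamma_ne_zero_of_re_pos hs2
  have hGd : DifferentiableAt ℂ Gamma (s / 2) := by
    apply differentiableAt_Gamma
    intro m hm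
    rw [hm] at hs2
    simp only [neg_re, natCast_re] at hs2
    have : (0 : ℝ) ≤ m := Nat.cast_nonneg m
    linarith
  have hZ0 : riemannZeta s ≠ 0 := riemannZeta_ne_zero_of_one_lt_re hs
  have hZd : DifferentiableAt ℂ riemannZeta s := by
    apply differentiableAt_riemannZeta
    intro h
    rw [h, one_re] at hs
    linarith
  have d2 : HasDerivAt (fun z : ℂ => z / 2) (1 / 2) s := (hasDerivAt_id s).div_const 2
  have dG : DifferentiableAt ℂ (Gamma ∘ fun z : ℂ => z / 2) s :=
    DifferentiableAt.comp s hGd d2.differentiableAt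
  obtain ⟨A, hA⟩ : ∃ A : ℂ, A = ((-(Real.log Real.pi / 2) : ℝ) : ℂ) := ⟨_, rfl⟩
  have dE : HasDerivAt (fun z : ℂ => cexp (A * z)) (cexp (A * s) * A) s := by
    have := ((hasDerivAt_id s).const_mul A).cexp
    rw [mul_one] at this
    exact this
  have d1 : HasDerivAt (fun z : ℂ => z - 1) 1 s := (hasDerivAt_id s).sub_const 1
  have hE0 : cexp (A * s) ≠ 0 := Complex.exp_ne_zero _
  have hHdef : H = fun z : ℂ => (fun z : ℂ => z) z * (fun z : ℂ => (fun z : ℂ => z - 1) z *
      (fun z : ℂ => (fun z : ℂ => cexp (A * z)) z *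
        (fun z : ℂ => (Gamma ∘ fun z : ℂ => z / 2) z * riemannZeta z) z) z) z := by
    funext z
    rw [H, ← hA]
    rfl
  have m1 := logDeriv_mul (f := Gamma ∘ fun z : ℂ => z / 2) (g := riemannZeta) s hG0 hZ0 dG hZd
  have m2 := logDeriv_mul (f := fun z : ℂ => cexp (A * z))
    (g := fun z : ℂ => (Gamma ∘ fun z : ℂ => z / 2) z * riemannZeta z) s hE0
    (mul_ne_zero hG0 hZ0) dE.differentiableAt (dG.mul hZd)
  have m3 := logDeriv_mul (f := fun z : ℂ => z - 1)
    (g := fun z : ℂ => (fun z : ℂ => cexp (A * z)) z *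
        (fun z : ℂ => (Gamma ∘ fun z : ℂ => z / 2) z * riemannZeta z) z) s h1
    (mul_ne_zero hE0 (mul_ne_zero hG0 hZ0)) d1.differentiableAt
    (dE.differentiableAt.mul (dG.mul hZd))
  have m4 := logDeriv_mul (f := fun z : ℂ => z)
    (g := fun z : ℂ => (fun z : ℂ => z - 1) z * (fun z : ℂ => (fun z : ℂ => cexp (A * z)) z *
        (fun z : ℂ => (Gamma ∘ fun z : ℂ => z / 2) z * riemannZeta z) z) z) s h0
    (mul_ne_zero h1 (mul_ne_zero hE0 (mul_ne_zero hG0 hZ0))) differentiableAt_id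
    (d1.differentiableAt.mul (dE.differentiableAt.mul (dG.mul hZd)))
  have m5 := logDeriv_comp (f := Gamma) (g := fun z : ℂ => z / 2) (x := s) hGd
    d2.differentiableAt
  rw [d2.deriv] at m5
  have m6 : logDeriv (fun z : ℂ => cexp (A * z)) s = A := by
    rw [logDeriv_apply, dE.deriv, mul_div_cancel_left₀ _ hE0]
  have m7 : logDeriv (fun z : ℂ => z - 1) s = 1 / (s - 1) := by
    rw [logDeriv_apply, d1.deriv]
  have m8 : logDeriv (fun z : ℂ => z) s = 1 / s := by
    rw [logDeriv_apply, (hasDerivAt_id' s).deriv]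
  refine ⟨?_, ?_, ?_⟩
  · rw [hHdef]
    exact mul_ne_zero h0 (mul_ne_zero h1 (mul_ne_zero hE0 (mul_ne_zero hG0 hZ0)))
  · rw [hHdef]
    exact differentiableAt_id.mul
      (d1.differentiableAt.mul (dE.differentiableAt.mul (dG.mul hZd)))
  · rw [hHdef, ← hA]
    rw [m4, m3, m2, m1, m5, m6, m7, m8]
    ring

/-- the logarithmic derivative of zeta is bounded for real part at least two -/
lemma zeta_bd : ∃ C : ℝ, 0 ≤ C ∧ ∀ s : ℂ, 2 ≤ s.re → ‖logDeriv riemannZeta s‖ ≤ C := by
  have hsum : LSeriesSummable (fun n => (ArithmeticFunction.vonMangoldt n : ℂ)) ((2 : ℝ) : ℂ) :=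
    ArithmeticFunction.LSeriesSummable_vonMangoldt (by rw [Complex.ofReal_re]; norm_num)
  refine ⟨∑' n, ‖LSeries.term (fun n => (ArithmeticFunction.vonMangoldt n : ℂ)) ((2 : ℝ) : ℂ) n‖,
    tsum_nonneg fun _ => norm_nonneg _, ?_⟩
  intro s hs
  have h1 := ArithmeticFunction.LSeries_vonMangoldt_eq_deriv_riemannZeta_div
    (by linarith : 1 < s.re)
  have h2 : logDeriv riemannZeta s = -LSeries (fun n => (ArithmeticFunction.vonMangoldt n : ℂ)) s := by
    rw [h1, logDeriv_apply]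
    ring
  rw [h2, norm_neg]
  unfold LSeries
  refine tsum_of_norm_bounded hsum.norm.hasSum fun n => ?_
  exact LSeries.norm_term_le_of_re_le_re _ (by rw [Complex.ofReal_re]; exact hs) n

theorem t_FX : S_FX := by
  intro hID
  obtain ⟨CZ, hCZ0, hCZ⟩ := zeta_bd
  obtain ⟨CG, hCG⟩ := H370.digamma_bound
  refine ⟨1 / 4, 4, 1, |Real.log Real.pi| + |CG| + CZ + Real.log 8 + 2, 4, by norm_num, one_pos,
    by norm_num, ?_, by norm_num, ?_⟩
  · have h1 : 0 < Real.log 8 := Real.log_pos (by norm_num)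
    positivity
  intro x hx z hz
  have hre : |z.re - x| ≤ 1 := by
    have := (abs_re_le_norm (z - ((x : ℂ) + ((4 : ℝ) : ℂ) * I))).trans hz
    simpa using this
  have him : |z.im - 4| ≤ 1 := by
    have := (abs_im_le_norm (z - ((x : ℂ) + ((4 : ℝ) : ℂ) * I))).trans hz
    simpa using this
  rw [abs_le] at him
  have hz1 : |x| - 1 ≤ |z.re| := by
    have := abs_sub_abs_le_abs_sub x z.re
    rw [abs_sub_comm x z.re] at this
    linarith
  have hz2 : |z.re| ≤ |x| + 1 := by
    have := abs_sub_abs_le_abs_sub z.re x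
    linarith
  -- the point
  have hgre : ∀ w : ℂ, ((1 - I * w) / 2).re = (1 + w.im) / 2 := by
    intro w
    rw [re_half]
    simp
  have hgim : ∀ w : ℂ, ((1 - I * w) / 2).im = -w.re / 2 := by
    intro w
    rw [im_half]
    simp
  have hf : ∀ w : ℂ, 1 < ((1 - I * w) / 2).re →
      Lt (fun u : ℝ => ((Pool.Agent.Helper242.RK.Phi u : ℝ) : ℂ)) w = 1 / 8 * H ((1 - I * w) / 2) := by
    intro w hw
    rw [hID w, ← H_eq hw, Xi]
    have e1 : (1 / 2 + I * (w / 2) : ℂ) = 1 - (1 - I * w) / 2 := by ring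
    rw [e1, completedRiemannZeta₀_one_sub]
    ring
  obtain ⟨s, hs⟩ : ∃ s : ℂ, s = (1 - I * z) / 2 := ⟨_, rfl⟩
  have hsre : s.re = (1 + z.im) / 2 := by rw [hs, hgre]
  have hsim : s.im = -z.re / 2 := by rw [hs, hgim]
  have hs1 : 1 < s.re := by rw [hsre]; linarith
  have hs2 : 2 ≤ s.re := by rw [hsre]; linarith
  have hs3 : s.re ≤ 3 := by rw [hsre]; linarith
  obtain ⟨hH0, hHd, hHl⟩ := H_log hs1
  have dg : HasDerivAt (fun w : ℂ => (1 - I * w) / 2) (-I / 2) z := by
    have := (((hasDerivAt_id z).const_mul I).const_sub 1).div_const 2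
    rw [mul_one] at this
    exact this
  have hev : Lt (fun u : ℝ => ((Pool.Agent.Helper242.RK.Phi u : ℝ) : ℂ)) =ᶠ[𝓝 z]
      fun w => 1 / 8 * (H ∘ fun w : ℂ => (1 - I * w) / 2) w := by
    have hopen : IsOpen {w : ℂ | 1 < ((1 - I * w) / 2).re} :=
      isOpen_lt continuous_const (by fun_prop)
    filter_upwards [hopen.mem_nhds (by rw [Set.mem_ofPred_eq, ← hs]; exact hs1)] with w hw
    exact hf w hw
  have m1 := logDeriv_comp (f := H) (g := fun w : ℂ => (1 - I * w) / 2) (x := z)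
    (by rw [← hs]; exact hHd) dg.differentiableAt
  rw [dg.deriv, ← hs] at m1
  refine ⟨?_, ?_⟩
  · rw [hf z (by rw [← hs]; exact hs1), ← hs]
    exact mul_ne_zero (by norm_num) hH0
  rw [(logDeriv_congr_nhds hev).eq_of_nhds, logDeriv_const_mul _ _ (by norm_num), m1, hHl]
  have habs : |(s / 2).im| = |z.re| / 4 := by
    rw [im_half, hsim, abs_div, abs_div, abs_neg, abs_two]
    ring
  have hG := hCG (s / 2) (by rw [re_half]; linarith) (by rw [re_half]; linarith)
    (by rw [habs]; linarith)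
  rw [habs] at hG
  have hx0 : 0 < |x| := by linarith
  have hlog : |(Real.log (|z.re| / 4)) - (Real.log |x|)| ≤ Real.log 8 := by
    rw [← Real.log_div (by linarith) hx0.ne', abs_le]
    have hp : 0 < |z.re| / 4 / |x| := by
      apply div_pos _ hx0
      linarith
    constructor
    · rw [← Real.log_inv]
      apply Real.log_le_log (by norm_num)
      rw [le_div_iff₀ hx0]
      linarith
    · apply Real.log_le_log hp
      rw [div_le_iff₀ hx0]
      linarith
  have e2 : (1 / s + (1 / (s - 1) + (((-(Real.log Real.pi / 2) : ℝ) : ℂ) +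
      (logDeriv Gamma (s / 2) / 2 + logDeriv riemannZeta s)))) * (-I / 2) +
        I * ((1 / 4 * Real.log |x| : ℝ) : ℂ) =
      (-I / 2) * (1 / s + (1 / (s - 1) + (((-(Real.log Real.pi / 2) : ℝ) : ℂ) +
      ((logDeriv Gamma (s / 2) - Real.log (|z.re| / 4)) / 2 + (logDeriv riemannZeta s +
        ((Real.log (|z.re| / 4) - Real.log |x| : ℝ) : ℂ) / 2))))) := by
    push_cast
    ring
  rw [e2, norm_mul]
  have h22 : ‖(2 : ℂ)‖ = 2 := by norm_num
  have hI : ‖-I / 2‖ ≤ 1 := by
    rw [norm_div, norm_neg, Complex.norm_I, h22]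
    norm_num
  have b1 : ‖1 / s‖ ≤ 1 := by
    rw [norm_div, norm_one, div_le_one (norm_pos_iff.2 (ne0 hs1))]
    exact (by linarith : (1 : ℝ) ≤ s.re).trans (re_le_norm s)
  have b2 : ‖1 / (s - 1)‖ ≤ 1 := by
    rw [norm_div, norm_one, div_le_one (norm_pos_iff.2 (ne1 hs1))]
    refine le_trans ?_ (re_le_norm (s - 1))
    rw [sub_re, one_re]
    linarith
  have b3 : ‖((-(Real.log Real.pi / 2) : ℝ) : ℂ)‖ ≤ |Real.log Real.pi| := by
    rw [Complex.norm_real, Real.norm_eq_abs, abs_neg, abs_div, abs_two]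
    have := abs_nonneg (Real.log Real.pi)
    linarith
  have b4 : ‖(logDeriv Gamma (s / 2) - Real.log (|z.re| / 4)) / 2‖ ≤ |CG| := by
    rw [norm_div, h22]
    have h3 := hG.trans (le_abs_self _)
    have h4 := abs_nonneg CG
    linarith
  have b5 := hCZ s hs2
  have b6 : ‖((Real.log (|z.re| / 4) - Real.log |x| : ℝ) : ℂ) / 2‖ ≤ Real.log 8 := by
    rw [norm_div, h22, Complex.norm_real, Real.norm_eq_abs]
    have := abs_nonneg (Real.log (|z.re| / 4) - Real.log |x|)
    linarith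
  have b7 : ‖1 / s + (1 / (s - 1) + (((-(Real.log Real.pi / 2) : ℝ) : ℂ) +
      ((logDeriv Gamma (s / 2) - Real.log (|z.re| / 4)) / 2 + (logDeriv riemannZeta s +
        ((Real.log (|z.re| / 4) - Real.log |x| : ℝ) : ℂ) / 2))))‖ ≤
      1 + (1 + (|Real.log Real.pi| + (|CG| + (CZ + Real.log 8)))) :=
    (norm_add_le _ _).trans (add_le_add b1 ((norm_add_le _ _).trans (add_le_add b2
      ((norm_add_le _ _).trans (add_le_add b3 ((norm_add_le _ _).trans (add_le_add b4
        ((norm_add_le _ _).trans (add_le_add b5 b6)))))))))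
  calc _ ≤ 1 * (1 + (1 + (|Real.log Real.pi| + (|CG| + (CZ + Real.log 8))))) :=
        mul_le_mul hI b7 (norm_nonneg _) zero_le_one
    _ = _ := by ring

end Pool.Agent.H376.PFX
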