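import Pool.Agent.H454.PF.Stm3

set_option autoImplicit false

/-!
# Project PF (helper454), GA1: bounds and limit for a quotient with a Gamma-like factor
-/

namespace Pool.Agent.H142.PFGA1

open Complex Filter Topology
open Pool.Agent.H454.PF Pool.Agent.N963.GN

theorem norm_term (κ x : ℝ) (n : ℕ) :
    ‖cexp (-(I * κ * x * (Real.log (n + 1) : ℝ)))‖ = 1 := by
  have h : -(I * κ * x * (Real.log (n + 1) : ℝ)) = ((-(κ * x * Real.log (n + 1)) : ℝ) : ℂ) * I := by
    push_cast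
    ring
  rw [h, Complex.norm_exp_ofReal_mul_I]

theorem norm_sum_le (κ x : ℝ) (β : ℕ → ℂ) (hs : Summable (fun n => ‖β n‖)) :
    ‖∑' n : ℕ, β n * cexp (-(I * κ * x * (Real.log (n + 1) : ℝ)))‖ ≤ ∑' n, ‖β n‖ := by
  have h1 : ∀ n, ‖β n * cexp (-(I * κ * x * (Real.log (n + 1) : ℝ)))‖ = ‖β n‖ := fun n => by
    rw [norm_mul, norm_term, mul_one]
  have h2 := norm_tsum_le_tsum_norm
    (f := fun n : ℕ => β n * cexp (-(I * κ * x * (Real.log (n + 1) : ℝ))))
    (by simp only [h1]; exact hs)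
  simp only [h1] at h2
  exact h2

theorem norm_exp_LL (c0 : ℝ) (a1 : ℂ) (τ ρ : ℝ) :
    ‖cexp (ρ * LL c0 a1 τ)‖ = Real.exp (ρ * a1.re) := by
  rw [Complex.norm_exp]
  congr 1
  unfold LL
  simp [mul_re, add_re]

theorem t_GA1 : S_GA1 := by
  intro X H κ c0 a1 β A x0 C M hAS hM
  obtain ⟨hκ, hc, hx, hC, hs, h0, h1, hX, hA, hR, hL⟩ := hAS
  set B : ℝ := ∑' n, ‖β n‖ with hB
  have hB0 : 0 ≤ B := tsum_nonneg fun n => norm_nonneg _
  set a : ℝ := |a1.re| with ha
  have ha0 : 0 ≤ a := abs_nonneg _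
  have hM0 : 0 ≤ M := (norm_nonneg _).trans (hM 0)
  have hAx0 : 0 < ‖A x0‖ := norm_pos_iff.2 (hA x0 le_rfl)
  have hinv : ∀ τ ρ : ℝ, 1 / ‖cexp (ρ * LL c0 a1 τ)‖ ≤ Real.exp (a * |ρ|) := by
    intro τ ρ
    rw [norm_exp_LL, one_div, ← Real.exp_neg]
    apply Real.exp_le_exp.2
    have h2 : -(ρ * a1.re) ≤ |ρ * a1.re| := neg_le_abs _
    rw [abs_mul] at h2
    linarith [mul_comm |ρ| |a1.re|]
  constructor
  · refine ⟨2 * x0, (B + M / ‖A x0‖) * Real.exp C, 2 * C + a, by linarith, by positivity,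
      by positivity, ?_⟩
    intro τ hτ
    have hτx : x0 ≤ τ := by linarith
    have hAτ := hA τ hτx
    have hAτn : 0 < ‖A τ‖ := norm_pos_iff.2 hAτ
    refine ⟨hAτ, fun ρ => ?_⟩
    rw [norm_div, norm_mul]
    have hq : ‖X ((τ + ρ : ℝ) - I * H)‖ / (‖A τ‖ * ‖cexp (ρ * LL c0 a1 τ)‖) =
        ‖X ((τ + ρ : ℝ) - I * H)‖ / ‖A τ‖ * (1 / ‖cexp (ρ * LL c0 a1 τ)‖) := by
      rw [div_mul_div_comm, mul_one]
    rw [hq]
    have hmain : ‖X ((τ + ρ : ℝ) - I * H)‖ / ‖A τ‖ ≤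
        (B + M / ‖A x0‖) * Real.exp C * Real.exp (2 * C * |ρ|) := by
      rcases le_or_gt |ρ| (τ / 2) with hρ | hρ
      · have h2 := (abs_le.1 hρ).1
        have hx' : x0 ≤ τ + ρ := by linarith
        rw [div_le_iff₀ hAτn, hX (τ + ρ) hx', norm_mul]
        have h3 := norm_sum_le κ (τ + ρ) β hs
        have h4 := hR (τ + ρ) τ hx' hτx
        have h5 : |τ + ρ - τ| = |ρ| := by congr 1; ring
        rw [h5] at h4
        have h6 : Real.exp (C * (1 + |ρ|)) ≤ Real.exp C * Real.exp (2 * C * |ρ|) := by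
          rw [← Real.exp_add]
          apply Real.exp_le_exp.2
          have : 0 ≤ C * |ρ| := by positivity
          linarith
        have h7 : B ≤ B + M / ‖A x0‖ := by
          have : 0 ≤ M / ‖A x0‖ := by positivity
          linarith
        calc ‖A (τ + ρ)‖ * ‖∑' n : ℕ, β n * cexp (-(I * κ * ((τ + ρ : ℝ) : ℂ) *
              (Real.log (n + 1) : ℝ)))‖
            ≤ (‖A τ‖ * (Real.exp C * Real.exp (2 * C * |ρ|))) * (B + M / ‖A x0‖) := by
              refine mul_le_mul (h4.trans ?_) (h3.trans h7) (norm_nonneg _) (by positivity)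
              exact mul_le_mul_of_nonneg_left h6 hAτn.le
          _ = _ := by ring
      · have h4 := hR x0 τ le_rfl hτx
        have h5 : |x0 - τ| ≤ 2 * |ρ| := by
          rw [abs_le]
          constructor <;> linarith
        have h6 : ‖A x0‖ ≤ ‖A τ‖ * (Real.exp C * Real.exp (2 * C * |ρ|)) := by
          refine h4.trans (mul_le_mul_of_nonneg_left ?_ hAτn.le)
          rw [← Real.exp_add]
          apply Real.exp_le_exp.2
          have := mul_le_mul_of_nonneg_left h5 hC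
          linarith
        rw [div_le_iff₀ hAτn]
        have h7 : M / ‖A x0‖ ≤ B + M / ‖A x0‖ := by linarith
        have h8 : M = M / ‖A x0‖ * ‖A x0‖ := by field_simp
        calc ‖X ((τ + ρ : ℝ) - I * H)‖ ≤ M := hM _
          _ = M / ‖A x0‖ * ‖A x0‖ := h8
          _ ≤ (B + M / ‖A x0‖) * (‖A τ‖ * (Real.exp C * Real.exp (2 * C * |ρ|))) :=
            mul_le_mul h7 h6 hAx0.le (by positivity)
          _ = _ := by ring
    calc ‖X ((τ + ρ : ℝ) - I * H)‖ / ‖A τ‖ * (1 / ‖cexp (ρ * LL c0 a1 τ)‖)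
        ≤ ((B + M / ‖A x0‖) * Real.exp C * Real.exp (2 * C * |ρ|)) * Real.exp (a * |ρ|) :=
          mul_le_mul hmain (hinv τ ρ) (by positivity) (by positivity)
      _ = (B + M / ‖A x0‖) * Real.exp C * Real.exp ((2 * C + a) * |ρ|) := by
          rw [mul_assoc, ← Real.exp_add]
          congr 2
          ring
  · intro ρ
    have hlim := hL ρ
    have h2 : Tendsto (fun τ : ℝ => ‖A (τ + ρ) / (A τ * cexp (ρ * LL c0 a1 τ)) - 1‖ * B)
        atTop (𝓝 0) := by
      have h3 : Tendsto (fun τ : ℝ => A (τ + ρ) / (A τ * cexp (ρ * LL c0 a1 τ)) - 1)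
          atTop (𝓝 (1 - 1)) := hlim.sub_const 1
      rw [sub_self] at h3
      have h4 := h3.norm.mul_const B
      rw [norm_zero, zero_mul] at h4
      exact h4
    refine squeeze_zero_norm' ?_ h2
    filter_upwards [eventually_ge_atTop (x0 - ρ)] with τ hτ
    have hx' : x0 ≤ τ + ρ := by linarith
    have h3 := norm_sum_le κ (τ + ρ) β hs
    have h5 : X ((τ + ρ : ℝ) - I * H) / (A τ * cexp (ρ * LL c0 a1 τ)) -
        ∑' n : ℕ, β n * cexp (-(I * κ * (τ + ρ : ℝ) * (Real.log (n + 1) : ℝ))) =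
        (A (τ + ρ) / (A τ * cexp (ρ * LL c0 a1 τ)) - 1) *
          ∑' n : ℕ, β n * cexp (-(I * κ * (τ + ρ : ℝ) * (Real.log (n + 1) : ℝ))) := by
      rw [hX (τ + ρ) hx']
      ring
    rw [h5, norm_mul]
    exact mul_le_mul_of_nonneg_left h3 (norm_nonneg _)

end Pool.Agent.H142.PFGA1
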