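import Pool.Agent.H454.PF.Stm3
import Pool.Graph.R_pool_sql_team_seeded_63374d34.N963.GN.W

set_option autoImplicit false

/-! PF-GA2 (helper641 for helper454): the asymptotic formula for the Gaussian-weighted transform. -/

namespace Pool.Agent.H641.PF

open Complex Filter Topology MeasureTheory
open Pool.Agent.N963.GN Pool.Agent.H454.PF

/-- the Gaussian factor -/
noncomputable def G (s : ℝ) (v : ℂ) (ρ : ℝ) : ℂ := cexp (-((ρ : ℂ) - v) ^ 2 / (4 * s))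

noncomputable def gb (s R ρ : ℝ) : ℝ := Real.exp ((-ρ ^ 2 + 2 * R * |ρ| + R ^ 2) / (4 * s))

lemma norm_G_le (s : ℝ) (hs : 0 < s) (R : ℝ) (v : ℂ) (hv : ‖v‖ ≤ R) (ρ : ℝ) :
    ‖G s v ρ‖ ≤ gb s R ρ := by
  unfold G gb
  rw [Complex.norm_exp, Real.exp_le_exp]
  have h0 : (-((ρ : ℂ) - v) ^ 2 / (4 * s)).re = (-(ρ - v.re) ^ 2 + v.im ^ 2) / (4 * s) := by
    have h4 : (4 * (s : ℂ)) = ((4 * s : ℝ) : ℂ) := by push_cast; ring
    rw [h4, Complex.div_ofReal_re]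
    congr 1
    simp [pow_two]
    ring
  rw [h0]
  have h1 : |v.re| ≤ R := (Complex.abs_re_le_norm v).trans hv
  have h2 : |v.im| ≤ R := (Complex.abs_im_le_norm v).trans hv
  have h3 : v.im ^ 2 ≤ R ^ 2 := by
    rw [← sq_abs]; exact pow_le_pow_left₀ (abs_nonneg _) h2 2
  have h4 : ρ * v.re ≤ R * |ρ| := by
    calc ρ * v.re ≤ |ρ * v.re| := le_abs_self _
      _ = |ρ| * |v.re| := abs_mul _ _
      _ ≤ |ρ| * R := by gcongr
      _ = R * |ρ| := mul_comm _ _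
  have : -(ρ - v.re) ^ 2 + v.im ^ 2 ≤ -ρ ^ 2 + 2 * R * |ρ| + R ^ 2 := by nlinarith [sq_nonneg v.re]
  gcongr

lemma cont_G (s : ℝ) (v : ℂ) : Continuous (G s v) := by
  unfold G; fun_prop

lemma cont_gb (s R : ℝ) : Continuous (gb s R) := by
  unfold gb; fun_prop

lemma int_gb (s : ℝ) (hs : 0 < s) (R M : ℝ) :
    Integrable (fun ρ : ℝ => Real.exp (M * |ρ|) * gb s R ρ) := by
  have h1 : Integrable (fun ρ : ℝ => Real.exp (-(1 / (8 * s)) * ρ ^ 2)) :=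
    integrable_exp_neg_mul_sq (by positivity)
  have h2 := h1.const_mul (Real.exp (R ^ 2 / (4 * s) + 2 * s * (M + R / (2 * s)) ^ 2))
  refine h2.mono' ?_ (Eventually.of_forall fun ρ => ?_)
  · exact ((by fun_prop : Continuous fun ρ : ℝ => Real.exp (M * |ρ|)).mul (cont_gb s R)).aestronglyMeasurable
  · unfold gb
    rw [Real.norm_eq_abs, abs_of_pos (by positivity), ← Real.exp_add, ← Real.exp_add, Real.exp_le_exp]
    have h3 : M * |ρ| + (-ρ ^ 2 + 2 * R * |ρ| + R ^ 2) / (4 * s) =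
        (M + R / (2 * s)) * |ρ| - ρ ^ 2 / (4 * s) + R ^ 2 / (4 * s) := by
      field_simp
      ring
    rw [h3]
    have h4 : (M + R / (2 * s)) * |ρ| ≤ 2 * s * (M + R / (2 * s)) ^ 2 + ρ ^ 2 / (8 * s) := by
      set K := M + R / (2 * s) with hK
      have h5 : 0 ≤ 2 * s * (K - |ρ| / (4 * s)) ^ 2 := by positivity
      have h6 : 2 * s * (K - |ρ| / (4 * s)) ^ 2 = 2 * s * K ^ 2 - K * |ρ| + |ρ| ^ 2 / (8 * s) := by
        field_simp
        ring
      rw [h6, sq_abs] at h5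
      linarith
    have h7 : ρ ^ 2 / (4 * s) = ρ ^ 2 / (8 * s) + ρ ^ 2 / (8 * s) := by
      field_simp; ring
    have h8 : -(1 / (8 * s)) * ρ ^ 2 = - (ρ ^ 2 / (8 * s)) := by ring
    rw [h8]
    linarith

lemma int_gb0 (s : ℝ) (hs : 0 < s) (R : ℝ) : Integrable (gb s R) := by
  have := int_gb s hs R 0
  simpa using this

lemma int_G (s : ℝ) (hs : 0 < s) (v : ℂ) : Integrable (G s v) :=
  (int_gb0 s hs ‖v‖).mono' (cont_G s v).aestronglyMeasurable
    (Eventually.of_forall fun ρ => norm_G_le s hs _ v le_rfl ρ)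

/-- the Gaussian integral -/
lemma gauss (s : ℝ) (hs : 0 < s) (v : ℂ) (a : ℝ) :
    ∫ ρ : ℝ, cexp (-(I * a * ρ)) * G s v ρ =
      ((Real.sqrt (4 * Real.pi * s) : ℝ) : ℂ) * cexp (-((s * a ^ 2 : ℝ) : ℂ) - I * a * v) := by
  have hsC : (s : ℂ) ≠ 0 := by exact_mod_cast hs.ne'
  have hb : (-(1 / (4 * s)) : ℂ).re < 0 := by
    have : (-(1 / (4 * s)) : ℂ) = ((-(1 / (4 * s)) : ℝ) : ℂ) := by push_cast; ring
    rw [this, Complex.ofReal_re]
    have : 0 < 1 / (4 * s) := by positivity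
    linarith
  have h := integral_cexp_quadratic hb (v / (2 * s) - I * a) (-(v ^ 2 / (4 * s)))
  have h1 : ∀ ρ : ℝ, cexp (-(I * a * ρ)) * G s v ρ =
      cexp (-(1 / (4 * s)) * ρ ^ 2 + (v / (2 * s) - I * a) * ρ + -(v ^ 2 / (4 * s))) := by
    intro ρ
    unfold G
    rw [← Complex.exp_add]
    congr 1
    field_simp
    ring
  simp_rw [h1]
  rw [h]
  congr 1
  · have h2 : ((Real.pi : ℂ) / -(-(1 / (4 * s)))) = ((4 * Real.pi * s : ℝ) : ℂ) := by
      push_cast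
      field_simp
    rw [h2, Real.sqrt_eq_rpow, Complex.ofReal_cpow (by positivity)]
    norm_num
  · congr 1
    push_cast
    field_simp
    ring_nf
    rw [Complex.I_sq]
    ring

/-- the almost periodic factor -/
noncomputable def P (κ : ℝ) (β : ℕ → ℂ) (x : ℝ) : ℂ :=
  ∑' n : ℕ, β n * cexp (-(I * κ * x * (Real.log (n + 1) : ℝ)))

lemma norm_term (κ x : ℝ) (β : ℕ → ℂ) (n : ℕ) :
    ‖β n * cexp (-(I * κ * x * (Real.log (n + 1) : ℝ)))‖ = ‖β n‖ := by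
  rw [norm_mul, Complex.norm_exp]
  have : (-(I * κ * x * (Real.log (n + 1) : ℝ)) : ℂ).re = 0 := by
    simp
  rw [this, Real.exp_zero, mul_one]

lemma cont_P (κ : ℝ) (β : ℕ → ℂ) (hβ : Summable fun n => ‖β n‖) : Continuous (P κ β) := by
  unfold P
  refine continuous_tsum (fun n => by fun_prop) hβ (fun n x => (norm_term κ x β n).le)

lemma norm_P_le (κ : ℝ) (β : ℕ → ℂ) (hβ : Summable fun n => ‖β n‖) (x : ℝ) :
    ‖P κ β x‖ ≤ ∑' n, ‖β n‖ := by
  unfold P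
  have h1 : Summable fun n => ‖β n * cexp (-(I * κ * x * (Real.log (n + 1) : ℝ)))‖ := by
    simp_rw [norm_term]; exact hβ
  refine (norm_tsum_le_tsum_norm h1).trans ?_
  simp_rw [norm_term]
  exact le_rfl

/-- `Ds` as a Gaussian average -/
lemma Ds_eq (κ s : ℝ) (hs : 0 < s) (β : ℕ → ℂ) (hβ : Summable fun n => ‖β n‖) (τ : ℝ) (v : ℂ) :
    Ds κ s β (τ + v) = ((1 / Real.sqrt (4 * Real.pi * s) : ℝ) : ℂ) *
      ∫ ρ : ℝ, P κ β (τ + ρ) * G s v ρ := by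
  have hq : ((Real.sqrt (4 * Real.pi * s) : ℝ) : ℂ) ≠ 0 := by
    have : (0:ℝ) < 4 * Real.pi * s := by positivity
    exact_mod_cast (Real.sqrt_pos.2 this).ne'
  have hF : ∀ n : ℕ, Integrable (fun ρ : ℝ =>
      (β n * cexp (-(I * κ * (τ + ρ : ℝ) * (Real.log (n + 1) : ℝ)))) * G s v ρ) := by
    intro n
    refine ((int_G s hs v).norm.const_mul ‖β n‖).mono'
      ((by fun_prop : Continuous fun ρ : ℝ => β n * cexp (-(I * κ * (τ + ρ : ℝ) * (Real.log (n + 1) : ℝ)))).mul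
        (cont_G s v)).aestronglyMeasurable (Eventually.of_forall fun ρ => ?_)
    rw [norm_mul, norm_term]
  have hS : Summable fun n : ℕ => ∫ ρ : ℝ,
      ‖(β n * cexp (-(I * κ * (τ + ρ : ℝ) * (Real.log (n + 1) : ℝ)))) * G s v ρ‖ := by
    have : (fun n : ℕ => ∫ ρ : ℝ,
      ‖(β n * cexp (-(I * κ * (τ + ρ : ℝ) * (Real.log (n + 1) : ℝ)))) * G s v ρ‖) =
      fun n => ‖β n‖ * ∫ ρ : ℝ, ‖G s v ρ‖ := by
      funext n
      rw [← integral_const_mul]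
      congr 1
      funext ρ
      rw [norm_mul, norm_term]
    rw [this]
    exact hβ.mul_right _
  have h := hasSum_integral_of_summable_integral_norm hF hS
  have h2 : ∀ n : ℕ, ∫ ρ : ℝ, (β n * cexp (-(I * κ * (τ + ρ : ℝ) * (Real.log (n + 1) : ℝ)))) * G s v ρ =
      ((Real.sqrt (4 * Real.pi * s) : ℝ) : ℂ) * (β n * cexp (-((s * κ ^ 2 * Real.log (n + 1) ^ 2 : ℝ) : ℂ) -
        I * κ * (τ + v) * (Real.log (n + 1) : ℝ))) := by
    intro n
    have h3 := gauss s hs v (κ * Real.log (n + 1))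
    have h4 : ∀ ρ : ℝ, (β n * cexp (-(I * κ * (τ + ρ : ℝ) * (Real.log (n + 1) : ℝ)))) * G s v ρ =
        (β n * cexp (-(I * κ * τ * (Real.log (n + 1) : ℝ)))) *
          (cexp (-(I * ((κ * Real.log (n + 1) : ℝ) : ℂ) * ρ)) * G s v ρ) := by
      intro ρ
      have : cexp (-(I * κ * (τ + ρ : ℝ) * (Real.log (n + 1) : ℝ))) =
          cexp (-(I * κ * τ * (Real.log (n + 1) : ℝ))) * cexp (-(I * ((κ * Real.log (n + 1) : ℝ) : ℂ) * ρ)) := by
        rw [← Complex.exp_add]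
        congr 1
        push_cast
        ring
      rw [this]; ring
    simp_rw [h4]
    rw [integral_const_mul, h3]
    have h5 : cexp (-((s * κ ^ 2 * Real.log (n + 1) ^ 2 : ℝ) : ℂ) - I * κ * (τ + v) * (Real.log (n + 1) : ℝ)) =
        cexp (-(I * κ * τ * (Real.log (n + 1) : ℝ))) *
        cexp (-((s * (κ * Real.log (n + 1)) ^ 2 : ℝ) : ℂ) - I * ((κ * Real.log (n + 1) : ℝ) : ℂ) * v) := by
      rw [← Complex.exp_add]
      congr 1
      push_cast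
      ring
    rw [h5]
    ring
  have h6 : ∫ ρ : ℝ, P κ β (τ + ρ) * G s v ρ =
      ((Real.sqrt (4 * Real.pi * s) : ℝ) : ℂ) * Ds κ s β (τ + v) := by
    unfold Ds
    rw [← tsum_mul_left]
    simp_rw [h2] at h
    have h7 : ∀ ρ : ℝ, P κ β (τ + ρ) * G s v ρ =
      ∑' n : ℕ, (β n * cexp (-(I * κ * (τ + ρ : ℝ) * (Real.log (n + 1) : ℝ)))) * G s v ρ := by
      intro ρ
      unfold P
      rw [tsum_mul_right]
    simp_rw [h7]
    exact h.tsum_eq.symm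
  rw [h6, ← mul_assoc]
  have : ((1 / Real.sqrt (4 * Real.pi * s) : ℝ) : ℂ) * ((Real.sqrt (4 * Real.pi * s) : ℝ) : ℂ) = 1 := by
    push_cast
    field_simp
  rw [this, one_mul]

/-- the quotient -/
noncomputable def Q (k : ℝ → ℂ) (H c0 : ℝ) (a1 : ℂ) (A : ℝ → ℂ) (τ ρ : ℝ) : ℂ :=
  Lt k ((τ + ρ : ℝ) - I * H) / (A τ * cexp (ρ * LL c0 a1 τ))

lemma kernel_eq (k : ℝ → ℂ) (H c0 s : ℝ) (hs : 0 < s) (a1 : ℂ) (A : ℝ → ℂ) (τ : ℝ) (v : ℂ) (ρ : ℝ) :
    Lt k ((τ + ρ : ℝ) - I * H) * cexp (-(((τ + ρ : ℝ) : ℂ) -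
      ((τ + v - I * H - 2 * s * LL c0 a1 τ) + I * H)) ^ 2 / (4 * s)) *
      (cexp (-(v * LL c0 a1 τ) + s * LL c0 a1 τ ^ 2) / A τ) =
    Q k H c0 a1 A τ ρ * G s v ρ := by
  have hsC : (s : ℂ) ≠ 0 := by exact_mod_cast hs.ne'
  unfold Q G
  set L := LL c0 a1 τ with hL
  have h1 : cexp (-(((τ + ρ : ℝ) : ℂ) - ((τ + v - I * H - 2 * s * L) + I * H)) ^ 2 / (4 * s)) *
      cexp (-(v * L) + s * L ^ 2) = (cexp (ρ * L))⁻¹ * cexp (-((ρ : ℂ) - v) ^ 2 / (4 * s)) := by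
    rw [← Complex.exp_neg, ← Complex.exp_add, ← Complex.exp_add]
    congr 1
    push_cast
    field_simp
    ring
  calc Lt k ((τ + ρ : ℝ) - I * H) * cexp (-(((τ + ρ : ℝ) : ℂ) -
      ((τ + v - I * H - 2 * s * L) + I * H)) ^ 2 / (4 * s)) *
      (cexp (-(v * L) + s * L ^ 2) / A τ) = Lt k ((τ + ρ : ℝ) - I * H) / A τ *
        (cexp (-(((τ + ρ : ℝ) : ℂ) - ((τ + v - I * H - 2 * s * L) + I * H)) ^ 2 / (4 * s)) *
      cexp (-(v * L) + s * L ^ 2)) := by ring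
    _ = _ := by
      rw [h1, div_mul_eq_div_div]
      ring

lemma cont_Q {k : ℝ → ℂ} (hk : Wt k) (H c0 : ℝ) (a1 : ℂ) (A : ℝ → ℂ) (τ : ℝ) :
    Continuous (Q k H c0 a1 A τ) := by
  unfold Q
  have h1 : Continuous (Lt k) := (diff_Lt hk).continuous
  have h2 : Continuous fun ρ : ℝ => Lt k ((τ + ρ : ℝ) - I * H) := h1.comp (by fun_prop)
  have h3 : (fun ρ : ℝ => Lt k ((τ + ρ : ℝ) - I * H) / (A τ * cexp (ρ * LL c0 a1 τ))) =
    fun ρ : ℝ => Lt k ((τ + ρ : ℝ) - I * H) * ((A τ)⁻¹ * cexp (-(ρ * LL c0 a1 τ))) := by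
    funext ρ
    rw [Complex.exp_neg, ← mul_inv, div_eq_mul_inv]
  rw [h3]
  exact h2.mul (by fun_prop)

theorem t_GA2 : S_GA2 := by
  intro hGA0 hGA1 k H κ c0 a1 β A x0 C hk hAS s hs R ε hε
  obtain ⟨⟨τ0, C1, C2, hτ0, hC1, hC2, hbd⟩, hlim⟩ := hGA1 (Lt k) H κ c0 a1 β A x0 C
    (∫ u : ℝ, ‖k u‖ * Real.exp (|H| * |u|)) hAS (by
      intro x
      unfold Lt
      refine norm_integral_le_of_norm_le (hk.norm_int |H|) (Eventually.of_forall fun u => ?_)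
      rw [norm_mul, Complex.norm_exp]
      have h1 : (I * (x - I * H) * (u : ℂ)).re = H * u := by simp
      rw [h1]
      refine mul_le_mul_of_nonneg_left (Real.exp_le_exp.2 ?_) (norm_nonneg _)
      exact (le_abs_self _).trans (abs_mul _ _).le)
  set q : ℝ := 1 / Real.sqrt (4 * Real.pi * s) with hq
  have hq0 : 0 < q := by
    have : (0:ℝ) < 4 * Real.pi * s := by positivity
    have := Real.sqrt_pos.2 this
    positivity
  set B : ℝ := ∑' n, ‖β n‖ with hB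
  have hB0 : 0 ≤ B := tsum_nonneg fun n => norm_nonneg _
  -- dominated convergence
  have hdom : Tendsto (fun τ : ℝ => ∫ ρ : ℝ, ‖Q k H c0 a1 A τ ρ - P κ β (τ + ρ)‖ * gb s R ρ) atTop
      (𝓝 (∫ _ : ℝ, (0:ℝ))) := by
    refine tendsto_integral_filter_of_dominated_convergence
      (fun ρ => C1 * (Real.exp (C2 * |ρ|) * gb s R ρ) + B * gb s R ρ) ?_ ?_ ?_ ?_
    · refine Eventually.of_forall fun τ => ?_
      refine ((((cont_Q hk H c0 a1 A τ).sub ((cont_P κ β hAS.hs).comp (by fun_prop))).norm).mul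
        (cont_gb s R)).aestronglyMeasurable
    · filter_upwards [eventually_ge_atTop τ0] with τ hτ
      refine Eventually.of_forall fun ρ => ?_
      have h1 := (hbd τ hτ).2 ρ
      have h2 := norm_P_le κ β hAS.hs (τ + ρ)
      have h3 : ‖Q k H c0 a1 A τ ρ - P κ β (τ + ρ)‖ ≤ C1 * Real.exp (C2 * |ρ|) + B :=
        (norm_sub_le _ _).trans (add_le_add h1 h2)
      have h4 : 0 ≤ gb s R ρ := (Real.exp_pos _).le
      rw [Real.norm_eq_abs, abs_of_nonneg (by positivity)]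
      calc ‖Q k H c0 a1 A τ ρ - P κ β (τ + ρ)‖ * gb s R ρ
          ≤ (C1 * Real.exp (C2 * |ρ|) + B) * gb s R ρ := by gcongr
        _ = _ := by ring
    · exact ((int_gb s hs R C2).const_mul C1).add ((int_gb0 s hs R).const_mul B)
    · refine Eventually.of_forall fun ρ => ?_
      have h1 := (hlim ρ).norm
      rw [norm_zero] at h1
      have h2 := h1.mul_const (gb s R ρ)
      rw [zero_mul] at h2
      exact h2
  rw [integral_zero] at hdom
  have hev : ∀ᶠ τ : ℝ in atTop, q * ∫ ρ : ℝ, ‖Q k H c0 a1 A τ ρ - P κ β (τ + ρ)‖ * gb s R ρ ≤ ε := by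
    have h1 := hdom.const_mul q
    rw [mul_zero] at h1
    exact h1.eventually (ge_mem_nhds hε) |>.mono fun τ h => h
  obtain ⟨T, hT⟩ := (hev.and (eventually_ge_atTop τ0)).exists_forall_of_atTop
  refine ⟨T, fun τ hτ => ?_⟩
  obtain ⟨h1, h2⟩ := hT τ hτ
  refine ⟨(hbd τ h2).1, fun v hv => ?_⟩
  obtain ⟨hI, hE⟩ := hGA0 k hk s hs H (τ + v - I * H - 2 * s * LL c0 a1 τ)
  -- translation
  have hE2 : Lt (gw k s) (τ + v - I * H - 2 * s * LL c0 a1 τ) *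
      cexp (-(v * LL c0 a1 τ) + s * LL c0 a1 τ ^ 2) / A τ =
      (q : ℂ) * ∫ ρ : ℝ, Q k H c0 a1 A τ ρ * G s v ρ := by
    rw [hE, ← integral_add_left_eq_self _ τ, mul_div_assoc, mul_assoc, ← integral_mul_const]
    have h5 : ∀ ρ : ℝ, Lt k ((τ + ρ : ℝ) - I * H) * cexp (-(((τ + ρ : ℝ) : ℂ) -
      ((τ + v - I * H - 2 * s * LL c0 a1 τ) + I * H)) ^ 2 / (4 * s)) *
      (cexp (-(v * LL c0 a1 τ) + s * LL c0 a1 τ ^ 2) / A τ) =
      Q k H c0 a1 A τ ρ * G s v ρ := fun ρ => kernel_eq k H c0 s hs a1 A τ v ρ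
    simp_rw [h5]
    rw [hq]
  have hI2 : Integrable (fun ρ : ℝ => Q k H c0 a1 A τ ρ * G s v ρ) := by
    have h3 := (hI.comp_add_left τ).mul_const (cexp (-(v * LL c0 a1 τ) + s * LL c0 a1 τ ^ 2) / A τ)
    refine h3.congr (Eventually.of_forall fun ρ => ?_)
    exact kernel_eq k H c0 s hs a1 A τ v ρ
  have hI3 : Integrable (fun ρ : ℝ => P κ β (τ + ρ) * G s v ρ) := by
    refine ((int_G s hs v).norm.const_mul B).mono'
      (((cont_P κ β hAS.hs).comp (by fun_prop)).mul (cont_G s v)).aestronglyMeasurable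
      (Eventually.of_forall fun ρ => ?_)
    rw [norm_mul]
    gcongr
    exact norm_P_le κ β hAS.hs _
  rw [hE2, Ds_eq κ s hs β hAS.hs τ v, ← hq, ← mul_sub, ← integral_sub hI2 hI3, norm_mul,
    Complex.norm_real, Real.norm_eq_abs, abs_of_pos hq0]
  refine le_trans ?_ h1
  gcongr
  refine norm_integral_le_of_norm_le ?_ (Eventually.of_forall fun ρ => ?_)
  · have h4 : Integrable (fun ρ => C1 * (Real.exp (C2 * |ρ|) * gb s R ρ) + B * gb s R ρ) :=
      ((int_gb s hs R C2).const_mul C1).add ((int_gb0 s hs R).const_mul B)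
    refine h4.mono' ((((cont_Q hk H c0 a1 A τ).sub ((cont_P κ β hAS.hs).comp (by fun_prop))).norm).mul
        (cont_gb s R)).aestronglyMeasurable (Eventually.of_forall fun ρ => ?_)
    have h1 := (hbd τ h2).2 ρ
    have h2 := norm_P_le κ β hAS.hs (τ + ρ)
    have h3 : ‖Q k H c0 a1 A τ ρ - P κ β (τ + ρ)‖ ≤ C1 * Real.exp (C2 * |ρ|) + B :=
      (norm_sub_le _ _).trans (add_le_add h1 h2)
    have h4 : 0 ≤ gb s R ρ := (Real.exp_pos _).le
    rw [Real.norm_eq_abs, abs_of_nonneg (by positivity)]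
    calc ‖Q k H c0 a1 A τ ρ - P κ β (τ + ρ)‖ * gb s R ρ
        ≤ (C1 * Real.exp (C2 * |ρ|) + B) * gb s R ρ := by gcongr
      _ = _ := by ring
  · rw [← sub_mul, norm_mul]
    gcongr
    exact norm_G_le s hs R v hv ρ

end Pool.Agent.H641.PF
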