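import Pool.Agent.H454.PF.Stm3
import Pool.Graph.R_pool_sql_team_seeded_63374d34.N186.GN.C4

set_option autoImplicit false

namespace Pool.Agent.H345.GA3

open Complex Filter Topology
open Pool.Agent.H454.PF

/-- the terms of the series -/
noncomputable def tm (κ s : ℝ) (β : ℕ → ℂ) (v : ℂ) (n : ℕ) : ℂ :=
  β n * cexp (-((s * κ ^ 2 * Real.log (n + 1) ^ 2 : ℝ) : ℂ) - I * κ * v * (Real.log (n + 1) : ℝ))

lemma ll_nonneg (n : ℕ) : 0 ≤ Real.log ((n : ℝ) + 1) :=
  Real.log_nonneg (by have := n.cast_nonneg (α := ℝ); linarith)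

lemma ll_lt {m n : ℕ} (h : m < n) : Real.log ((m : ℝ) + 1) < Real.log ((n : ℝ) + 1) := by
  have h1 : (m : ℝ) < n := by exact_mod_cast h
  have h2 : (0 : ℝ) ≤ m := m.cast_nonneg
  exact Real.log_lt_log (by linarith) (by linarith)

lemma norm_tm (κ s : ℝ) (β : ℕ → ℂ) (v : ℂ) (n : ℕ) :
    ‖tm κ s β v n‖ = ‖β n‖ * Real.exp (-(s * κ ^ 2 * Real.log (n + 1) ^ 2) +
      κ * v.im * Real.log (n + 1)) := by
  unfold tm
  rw [norm_mul, Complex.norm_exp]
  congr 2
  simp only [Complex.sub_re, Complex.neg_re, Complex.ofReal_re, Complex.mul_re, Complex.I_re,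
    Complex.I_im, Complex.mul_im, Complex.ofReal_im]
  ring

lemma norm_tm_le {κ s : ℝ} (hs : 0 < s) (β : ℕ → ℂ) (v : ℂ) (n : ℕ) :
    ‖tm κ s β v n‖ ≤ ‖β n‖ * Real.exp (v.im ^ 2 / (4 * s)) := by
  rw [norm_tm]
  refine mul_le_mul_of_nonneg_left (Real.exp_le_exp.2 ?_) (norm_nonneg _)
  rw [le_div_iff₀ (by positivity)]
  nlinarith [sq_nonneg (v.im - 2 * s * (κ * Real.log (n + 1)))]

lemma sum_tm {κ s : ℝ} (hs : 0 < s) {β : ℕ → ℂ} (hβ : Summable fun n => ‖β n‖) (v : ℂ) :
    Summable (tm κ s β v) :=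
  Summable.of_norm_bounded (hβ.mul_right _) fun n => norm_tm_le hs β v n

lemma Ds_eq (κ s : ℝ) (β : ℕ → ℂ) (v : ℂ) : Ds κ s β v = ∑' n, tm κ s β v n := rfl

lemma norm_Ds_le {κ s : ℝ} (hs : 0 < s) {β : ℕ → ℂ} (hβ : Summable fun n => ‖β n‖) (v : ℂ) :
    ‖Ds κ s β v‖ ≤ (∑' n, ‖β n‖) * Real.exp (v.im ^ 2 / (4 * s)) := by
  rw [Ds_eq, ← tsum_mul_right]
  have h1 : Summable fun n => ‖tm κ s β v n‖ :=
    Summable.of_nonneg_of_le (fun n => norm_nonneg _) (fun n => norm_tm_le hs β v n)
      (hβ.mul_right _)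
  exact (norm_tsum_le_tsum_norm h1).trans (h1.tsum_le_tsum (fun n => norm_tm_le hs β v n)
    (hβ.mul_right _))

lemma diff_Ds {κ s : ℝ} (hs : 0 < s) {β : ℕ → ℂ} (hβ : Summable fun n => ‖β n‖) :
    Differentiable ℂ (Ds κ s β) := by
  intro v
  have h : DifferentiableOn ℂ (fun w => ∑' n, tm κ s β w n) (Metric.ball 0 (‖v‖ + 1)) := by
    refine Complex.differentiableOn_tsum_of_summable_norm
      (u := fun n => ‖β n‖ * Real.exp ((‖v‖ + 1) ^ 2 / (4 * s))) (hβ.mul_right _) ?_
      Metric.isOpen_ball ?_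
    · intro n
      unfold tm
      fun_prop
    · intro n w hw
      refine (norm_tm_le hs β w n).trans ?_
      have h1 : ‖w‖ < ‖v‖ + 1 := by simpa using hw
      have h2 : |w.im| ≤ ‖w‖ := Complex.abs_im_le_norm w
      have h3 : w.im ^ 2 ≤ (‖v‖ + 1) ^ 2 := by
        rw [← sq_abs w.im]
        gcongr
        linarith
      gcongr
  exact h.differentiableAt (Metric.isOpen_ball.mem_nhds (by simp))

/-- the limit for `Im v → - ∞` -/
lemma lim (κ s : ℝ) (hκ : 0 < κ) (hs : 0 < s) (β : ℕ → ℂ) (hβ : Summable fun n => ‖β n‖) (m : ℕ)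
    (hm : ∀ n, n < m → β n = 0) (x : ℝ) :
    Tendsto (fun y : ℝ => Ds κ s β (x - I * y) * cexp (κ * y * (Real.log (m + 1) : ℝ))) atTop
      (𝓝 (tm κ s β x m)) := by
  have h0 : tm κ s β x m = ∑' n, if n = m then tm κ s β x m else 0 := by
    rw [tsum_ite_eq]
  rw [h0]
  have h1 : (fun y : ℝ => Ds κ s β (x - I * y) * cexp (κ * y * (Real.log (m + 1) : ℝ))) =
      fun y : ℝ => ∑' n, tm κ s β (x - I * y) n * cexp (κ * y * (Real.log (m + 1) : ℝ)) := by
    funext y
    rw [Ds_eq, tsum_mul_right]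
  rw [h1]
  have key : ∀ (y : ℝ) (n : ℕ),
      tm κ s β (x - I * y) n * cexp (κ * y * (Real.log (m + 1) : ℝ)) =
        tm κ s β x n * cexp (((-(κ * (Real.log (n + 1) - Real.log (m + 1))) * y : ℝ) : ℂ)) := by
    intro y n
    unfold tm
    rw [mul_assoc (β n), ← Complex.exp_add, mul_assoc (β n), ← Complex.exp_add]
    congr 2
    push_cast
    linear_combination (κ * y * (Real.log (n + 1) : ℝ) : ℂ) * Complex.I_sq
  have hx : ∀ n, ‖tm κ s β x n‖ ≤ ‖β n‖ := by
    intro n
    refine (norm_tm_le hs β x n).trans ?_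
    simp
  refine tendsto_tsum_of_dominated_convergence (bound := fun n => ‖β n‖) hβ ?_ ?_
  · intro n
    simp only [key]
    rcases lt_trichotomy n m with h | h | h
    · rw [if_neg h.ne]
      have : ∀ v, tm κ s β v n = 0 := fun v => by unfold tm; rw [hm n h, zero_mul]
      simp only [this, zero_mul]
      exact tendsto_const_nhds
    · subst h
      simp
    · rw [if_neg h.ne']
      have hpos : 0 < κ * (Real.log (n + 1) - Real.log (m + 1)) :=
        mul_pos hκ (sub_pos.2 (ll_lt h))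
      have h2 : Tendsto (fun y : ℝ => Real.exp (-(κ * (Real.log (n + 1) - Real.log (m + 1))) * y))
          atTop (𝓝 0) := by
        refine Real.tendsto_exp_atBot.comp ?_
        have := (tendsto_id (α := ℝ) (x := atTop)).const_mul_atTop hpos
        have h3 := tendsto_neg_atTop_atBot.comp this
        refine h3.congr fun y => ?_
        simp only [Function.comp, id]
        ring
      rw [tendsto_zero_iff_norm_tendsto_zero]
      have h3 := h2.const_mul ‖tm κ s β x n‖
      rw [mul_zero] at h3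
      refine h3.congr fun y => ?_
      rw [norm_mul, Complex.norm_exp, Complex.ofReal_re]
  · filter_upwards [eventually_ge_atTop 0] with y hy n
    rw [key]
    rcases lt_or_ge n m with h | h
    · have : tm κ s β x n = 0 := by unfold tm; rw [hm n h, zero_mul]
      rw [this, zero_mul, norm_zero]
      exact norm_nonneg _
    · rw [norm_mul, Complex.norm_exp, Complex.ofReal_re]
      have h2 : Real.log ((m : ℝ) + 1) ≤ Real.log ((n : ℝ) + 1) := by
        rcases h.lt_or_eq with h | h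
        · exact (ll_lt h).le
        · rw [h]
      have h3 : Real.exp (-(κ * (Real.log (n + 1) - Real.log (m + 1))) * y) ≤ 1 := by
        rw [Real.exp_le_one_iff]
        have : 0 ≤ κ * (Real.log (n + 1) - Real.log (m + 1)) * y :=
          mul_nonneg (mul_nonneg hκ.le (sub_nonneg.2 h2)) hy
        linarith
      calc ‖tm κ s β x n‖ * Real.exp (-(κ * (Real.log (n + 1) - Real.log (m + 1))) * y) ≤
          ‖β n‖ * 1 := mul_le_mul (hx n) h3 (Real.exp_pos _).le (norm_nonneg _)
        _ = _ := mul_one _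

/-- a zero free entire function of order two is the exponential of a polynomial -/
lemma expquad {φ : ℂ → ℂ} (hd : Differentiable ℂ φ) (hnz : ∀ z, φ z ≠ 0) {B M : ℝ} (hM : 0 ≤ M)
    (hgr : ∀ z, ‖φ z‖ ≤ B * Real.exp (M * ‖z‖ ^ 2)) :
    ∃ a b : ℂ, ∀ z, φ z = φ 0 * cexp (b * z + a * z ^ 2) := by
  have hlog : Differentiable ℂ (fun z => deriv φ z / φ z) := by
    refine Differentiable.div ?_ hd hnz
    exact (hd.contDiff (n := 2)).differentiable_deriv_two
  obtain ⟨L0, hL0⟩ := hlog.isExactOn_univ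
  set L : ℂ → ℂ := fun z => L0 z - L0 0 with hLdef
  have hLd : ∀ z, HasDerivAt L (deriv φ z / φ z) z := fun z => (hL0 z (Set.mem_univ z)).sub_const _
  have hLdiff : Differentiable ℂ L := fun z => (hLd z).differentiableAt
  have hL00 : L 0 = 0 := by simp [hLdef]
  have hexp : ∀ z, φ z = φ 0 * cexp (L z) := by
    have hconst : ∀ z, φ z * cexp (-L z) = φ 0 * cexp (-L 0) := by
      intro z
      refine is_const_of_deriv_eq_zero (f := fun z => φ z * cexp (-L z)) ?_ ?_ z 0
      · exact hd.mul (hLdiff.neg.cexp)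
      · intro x
        have h1 := (hd x).hasDerivAt.mul ((hLd x).neg.cexp)
        have e : deriv φ x * cexp (-L x) + φ x * (cexp (-L x) * -(deriv φ x / φ x)) = 0 := by
          have hx' := hnz x
          field_simp
          ring
        have h1' : HasDerivAt (fun y => φ y * cexp (-L y))
          (deriv φ x * cexp (-L x) + φ x * (cexp (-L x) * -(deriv φ x / φ x))) x := h1
        rw [e] at h1'
        exact h1'.deriv
    intro z
    have h1 := hconst z
    rw [hL00, neg_zero, Complex.exp_zero, mul_one] at h1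
    rw [← h1, mul_assoc, ← Complex.exp_add]
    simp
  have h0 : 0 < ‖φ 0‖ := norm_pos_iff.2 (hnz 0)
  have hB0 : 0 < B := by
    have h1 := hgr 0
    simp at h1
    exact lt_of_lt_of_le h0 h1
  have hre : ∀ z, (L z).re ≤ (|Real.log (B / ‖φ 0‖)| + 1) + M * ‖z‖ ^ 2 := by
    intro z
    have h1 := hgr z
    rw [hexp z, norm_mul, Complex.norm_exp] at h1
    have h3 : Real.exp (L z).re ≤ Real.exp (Real.log (B / ‖φ 0‖) + M * ‖z‖ ^ 2) := by
      rw [Real.exp_add, Real.exp_log (by positivity), div_mul_eq_mul_div, le_div_iff₀ h0]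
      linarith
    have h4 := Real.exp_le_exp.1 h3
    have h5 := le_abs_self (Real.log (B / ‖φ 0‖))
    linarith
  obtain ⟨a, b, hab⟩ := Pool.Agent.N186.GN.quad hLdiff hL00 (by positivity) hM hre
  refine ⟨a, b, fun z => ?_⟩
  rw [← hab]
  exact hexp z

/-- an exponential of a linear function of `y` with a finite positive limit -/
lemma exp_lin {c d l : ℝ} (hl : 0 < l) (h : Tendsto (fun y : ℝ => Real.exp (c + d * y)) atTop (𝓝 l)) :
    d = 0 ∧ Real.exp c = l := by
  have h1 : Tendsto (fun y : ℝ => c + d * y) atTop (𝓝 (Real.log l)) := by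
    have := (Real.continuousAt_log hl.ne').tendsto.comp h
    refine this.congr fun y => ?_
    simp [Function.comp]
  have hd : d = 0 := by
    have h2 := h1.comp (tendsto_atTop_add_const_right atTop (1 : ℝ) tendsto_id)
    have h3 := h2.sub h1
    rw [sub_self] at h3
    have h4 : (fun y : ℝ => ((fun y : ℝ => c + d * y) ∘ fun x => id x + 1) y - (c + d * y)) =
        fun _ => d := by
      funext y
      simp only [Function.comp, id]
      ring
    rw [h4] at h3
    exact tendsto_nhds_unique tendsto_const_nhds h3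
  refine ⟨hd, ?_⟩
  rw [hd] at h
  simp only [zero_mul, add_zero] at h
  exact tendsto_nhds_unique tendsto_const_nhds h

theorem t_GA3 : S_GA3 := by
  intro κ s β hκ hs hβ hβ0 hβ1
  have hdiff : Differentiable ℂ (Ds κ s β) := diff_Ds hs hβ
  have hl0 : ∀ x : ℝ, Tendsto (fun y : ℝ => Ds κ s β (x - I * y)) atTop (𝓝 (β 0)) := by
    intro x
    have h := lim κ s hκ hs β hβ 0 (fun n hn => absurd hn (Nat.not_lt_zero n)) x
    have e1 : tm κ s β x 0 = β 0 := by unfold tm; simp
    rw [e1] at h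
    refine h.congr fun y => ?_
    simp
  have hne : ∃ v, Ds κ s β v ≠ 0 := by
    by_contra hcon
    push Not at hcon
    have h := hl0 0
    simp only [hcon] at h
    exact hβ0 (tendsto_nhds_unique tendsto_const_nhds h).symm
  refine ⟨hdiff, hne, ?_⟩
  by_contra hcon
  push Not at hcon
  obtain ⟨a, b, hab⟩ := expquad hdiff hcon (B := ∑' n, ‖β n‖) (M := 1 / (4 * s)) (by positivity)
    (by
      intro z
      refine (norm_Ds_le hs hβ z).trans ?_
      have h2 : |z.im| ≤ ‖z‖ := Complex.abs_im_le_norm z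
      have h3 : z.im ^ 2 ≤ ‖z‖ ^ 2 := by
        rw [← sq_abs z.im]
        gcongr
      have h4 : 0 ≤ ∑' n, ‖β n‖ := tsum_nonneg fun n => norm_nonneg _
      rw [one_div, inv_mul_eq_div]
      gcongr)
  have hβn : (0 : ℝ) < ‖β 0‖ := norm_pos_iff.2 hβ0
  -- the ratio
  have hrat : ∀ x : ℝ, Tendsto (fun y : ℝ =>
      Real.exp ((b.re * x + a.re * x ^ 2) + (2 * x * a.im) * y)) atTop (𝓝 1) := by
    intro x
    have h1 := ((hl0 x).div (hl0 0) hβ0).norm
    rw [div_self hβ0, norm_one] at h1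
    refine h1.congr fun y => ?_
    simp only [Pi.div_apply]
    rw [hab (x - I * y), hab (((0 : ℝ) : ℂ) - I * y), mul_div_mul_left _ _ (hcon 0), ← Complex.exp_sub,
      Complex.norm_exp]
    congr 1
    have e : b * ((x : ℂ) - I * y) + a * ((x : ℂ) - I * y) ^ 2 -
        (b * (((0 : ℝ) : ℂ) - I * y) + a * (((0 : ℝ) : ℂ) - I * y) ^ 2) =
        b * x + a * (x ^ 2 : ℝ) - a * I * (2 * x * y : ℝ) := by
      push_cast; ring
    rw [e]
    simp only [Complex.sub_re, Complex.add_re, Complex.mul_re, Complex.mul_im, Complex.I_re,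
      Complex.I_im, Complex.ofReal_re, Complex.ofReal_im]
    ring
  obtain ⟨p1, p2⟩ := exp_lin one_pos (hrat 1)
  obtain ⟨q1, q2⟩ := exp_lin one_pos (hrat (-1))
  rw [Real.exp_eq_one_iff] at p2 q2
  have ha0 : a = 0 := by
    apply Complex.ext
    · simp; linarith
    · simp; linarith
  have hbr : b.re = 0 := by linarith
  -- `b = 0`
  have hb0 : b = 0 := by
    have h1 := (hl0 0).norm
    have h2 : Tendsto (fun y : ℝ => Real.exp (Real.log ‖Ds κ s β 0‖ + b.im * y)) atTop (𝓝 ‖β 0‖) := by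
      refine h1.congr fun y => ?_
      rw [hab (((0 : ℝ) : ℂ) - I * y), norm_mul, Complex.norm_exp, Real.exp_add,
        Real.exp_log (norm_pos_iff.2 (hcon 0)), ha0]
      congr 2
      simp
    obtain ⟨h3, -⟩ := exp_lin hβn h2
    exact Complex.ext (by simpa using hbr) (by simpa using h3)
  have hcst : ∀ z, Ds κ s β z = Ds κ s β 0 := by
    intro z
    rw [hab z, ha0, hb0]; simp
  have hD0 : Ds κ s β 0 = β 0 := by
    have h := hl0 0
    have h2 : (fun y : ℝ => Ds κ s β (((0 : ℝ) : ℂ) - I * y)) = fun _ => Ds κ s β 0 :=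
      funext fun y => hcst _
    rw [h2] at h
    exact tendsto_nhds_unique tendsto_const_nhds h
  -- the next coefficient
  classical
  set m := Nat.find hβ1 with hm
  obtain ⟨hm1, hm2⟩ := Nat.find_spec hβ1
  rw [← hm] at hm1 hm2
  set γ : ℕ → ℂ := fun n => if n = 0 then 0 else β n with hγ
  have hγs : Summable fun n => ‖γ n‖ := by
    refine Summable.of_nonneg_of_le (fun n => norm_nonneg _) (fun n => ?_) hβ
    simp only [hγ]
    split_ifs
    · simp
    · exact le_rfl
  have hγ0 : ∀ n, n < m → γ n = 0 := by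
    intro n hn
    simp only [hγ]
    split_ifs with h
    · rfl
    · have := Nat.find_min hβ1 (hm ▸ hn)
      push Not at this
      exact this (Nat.one_le_iff_ne_zero.2 h)
  have hDγ : ∀ v, Ds κ s γ v = 0 := by
    intro v
    have h1 : Ds κ s β v = tm κ s β v 0 + ∑' n, tm κ s β v (n + 1) :=
      (sum_tm hs hβ v).tsum_eq_zero_add
    have h2 : Ds κ s γ v = tm κ s γ v 0 + ∑' n, tm κ s γ v (n + 1) :=
      (sum_tm hs hγs v).tsum_eq_zero_add
    have h3 : tm κ s β v 0 = β 0 := by unfold tm; simp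
    have h4 : tm κ s γ v 0 = 0 := by unfold tm; simp [hγ]
    have h5 : ∀ n, tm κ s γ v (n + 1) = tm κ s β v (n + 1) := by
      intro n; unfold tm; simp [hγ]
    rw [hcst v, hD0, h3] at h1
    rw [h2, h4, zero_add]
    simp only [h5]
    have := h1
    exact add_left_cancel (a := β 0) (by rw [← this, add_zero])
  have h := lim κ s hκ hs γ hγs m hγ0 0
  simp only [hDγ, zero_mul] at h
  have h6 := tendsto_nhds_unique tendsto_const_nhds h
  unfold tm at h6
  have h7 : γ m = β m := by simp only [hγ]; rw [if_neg (by omega)]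
  rw [h7] at h6
  exact mul_ne_zero hm2 (Complex.exp_ne_zero _) h6.symm

end Pool.Agent.H345.GA3
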