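import Pool.Agent.H454.PF.Stm3

set_option autoImplicit false

/-!
# Project PF (helper454), GA4: almost periodicity of the limit series
-/

namespace Pool.Agent.H142.PFGA4

open Complex Filter Topology
open Pool.Agent.H454.PF Pool.Agent.N963.GN

/-- simultaneous approximation: a large `τ` for which finitely many exponentials are near `1` -/
theorem exists_tau (N : ℕ) (y : ℕ → ℝ) (δ T : ℝ) (hδ : 0 < δ) :
    ∃ τ : ℝ, T ≤ τ ∧ ∀ n < N, ‖cexp (-(I * (y n : ℂ) * (τ : ℂ))) - 1‖ ≤ δ := by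
  set T' : ℝ := max T 1 with hT'
  have hT'1 : 1 ≤ T' := le_max_right _ _
  set z : ℕ → (Fin N → ℂ) := fun j n => cexp (-(I * (y n : ℂ) * ((j * T' : ℝ) : ℂ))) with hz
  have hnorm : ∀ (u t : ℝ), ‖cexp (-(I * (u : ℂ) * (t : ℂ)))‖ = 1 := by
    intro u t
    have h : -(I * (u : ℂ) * (t : ℂ)) = ((-(u * t) : ℝ) : ℂ) * I := by
      push_cast
      ring
    rw [h, Complex.norm_exp_ofReal_mul_I]
  have hbd : ∀ j, z j ∈ Metric.closedBall (0 : Fin N → ℂ) 1 := by
    intro j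
    rw [mem_closedBall_zero_iff, pi_norm_le_iff_of_nonneg zero_le_one]
    intro n
    exact (hnorm _ _).le
  obtain ⟨a, -, φ, hφ, hlim⟩ := (isCompact_closedBall (0 : Fin N → ℂ) 1).tendsto_subseq hbd
  have hc := hlim.cauchySeq
  rw [Metric.cauchySeq_iff'] at hc
  obtain ⟨m, hm⟩ := hc δ hδ
  have h1 := hm (m + 1) (Nat.le_succ m)
  have h2 : φ m < φ (m + 1) := hφ (Nat.lt_succ_self m)
  have h3 : ((φ m : ℕ) : ℝ) + 1 ≤ (φ (m + 1) : ℕ) := by exact_mod_cast h2
  refine ⟨((φ (m + 1) : ℕ) - (φ m : ℕ) : ℝ) * T', ?_, ?_⟩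
  · have h4 : 1 ≤ ((φ (m + 1) : ℕ) - (φ m : ℕ) : ℝ) := by linarith
    calc T ≤ T' := le_max_left _ _
      _ = 1 * T' := (one_mul _).symm
      _ ≤ _ := mul_le_mul_of_nonneg_right h4 (by linarith)
  · intro n hn
    have h4 := (dist_le_pi_dist (z (φ (m + 1))) (z (φ m)) ⟨n, hn⟩).trans h1.le
    rw [dist_eq_norm] at h4
    have h5 : z (φ (m + 1)) ⟨n, hn⟩ - z (φ m) ⟨n, hn⟩ =
        z (φ m) ⟨n, hn⟩ * (cexp (-(I * (y n : ℂ) *
          ((((φ (m + 1) : ℕ) - (φ m : ℕ) : ℝ) * T' : ℝ) : ℂ))) - 1) := by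
      simp only [hz]
      rw [mul_sub, mul_one, ← Complex.exp_add]
      congr 2
      push_cast
      ring
    rw [h5, norm_mul] at h4
    have h6 : ‖z (φ m) ⟨n, hn⟩‖ = 1 := hnorm _ _
    rw [h6, one_mul] at h4
    exact h4

theorem t_GA4 : S_GA4 := by
  intro κ s β hκ hs hβ R ε T hε
  set K : ℝ := Real.exp (R ^ 2 / (4 * s)) with hK
  have hK0 : 0 < K := Real.exp_pos _
  set B : ℝ := ∑' n, ‖β n‖ with hB
  have hB0 : 0 ≤ B := tsum_nonneg fun n => norm_nonneg _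
  -- the tail
  have htail := tendsto_sum_nat_add (fun n => ‖β n‖)
  obtain ⟨N, hN⟩ := (htail.eventually (gt_mem_nhds (show 0 < ε / (4 * K) by positivity))).exists
  set δ : ℝ := ε / (2 * K * (B + 1)) with hδ
  have hδ0 : 0 < δ := by positivity
  obtain ⟨τ, hτT, hτ⟩ := exists_tau N (fun n => κ * Real.log (n + 1)) δ T hδ0
  refine ⟨τ, hτT, fun v hv => ?_⟩
  set e : ℕ → ℂ := fun n => cexp (-(I * ((κ * Real.log (n + 1) : ℝ) : ℂ) * (τ : ℂ))) with he
  set t : ℕ → ℂ → ℂ := fun n v => β n * cexp (-((s * κ ^ 2 * Real.log (n + 1) ^ 2 : ℝ) : ℂ) -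
    I * κ * v * (Real.log (n + 1) : ℝ)) with ht
  have hR0 : 0 ≤ R := (norm_nonneg _).trans hv
  have hen : ∀ n, ‖e n‖ = 1 := by
    intro n
    have h : -(I * ((κ * Real.log (n + 1) : ℝ) : ℂ) * (τ : ℂ)) =
        ((-(κ * Real.log (n + 1) * τ) : ℝ) : ℂ) * I := by
      push_cast
      ring
    simp only [he]
    rw [h, Complex.norm_exp_ofReal_mul_I]
  have hte : ∀ n, t n (τ + v) = t n v * e n := by
    intro n
    simp only [ht, he]
    rw [mul_assoc (β n), ← Complex.exp_add]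
    congr 2
    push_cast
    ring
  have htn : ∀ n, ‖t n v‖ ≤ ‖β n‖ * K := by
    intro n
    simp only [ht]
    rw [norm_mul]
    refine mul_le_mul_of_nonneg_left ?_ (norm_nonneg _)
    rw [Complex.norm_exp, hK]
    apply Real.exp_le_exp.2
    have hl : 0 ≤ Real.log ((n : ℝ) + 1) := Real.log_nonneg (by
      have : (0 : ℝ) ≤ n := Nat.cast_nonneg n
      linarith)
    set l : ℝ := Real.log ((n : ℝ) + 1) with hldef
    have hre : (-((s * κ ^ 2 * l ^ 2 : ℝ) : ℂ) - I * κ * v * (l : ℝ)).re =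
        -(s * κ ^ 2 * l ^ 2) + κ * l * v.im := by
      have h1 : I * (κ : ℂ) * v * (l : ℂ) = ((κ * l : ℝ) : ℂ) * (I * v) := by
        push_cast
        ring
      rw [sub_re, neg_re, ofReal_re, h1, re_ofReal_mul]
      simp
    rw [hre]
    have him : v.im ≤ R := (Complex.abs_im_le_norm v |> le_trans (le_abs_self _)).trans hv
    have h2 : κ * l * v.im ≤ κ * l * R := mul_le_mul_of_nonneg_left him (by positivity)
    have h3 : -(s * κ ^ 2 * l ^ 2) + κ * l * R ≤ R ^ 2 / (4 * s) := by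
      rw [le_div_iff₀ (by positivity)]
      nlinarith [sq_nonneg (2 * s * (κ * l) - R)]
    linarith
  have hsum1 : Summable (fun n => t n v) :=
    Summable.of_norm_bounded (hβ.mul_right K) htn
  have hsum2 : Summable (fun n => t n (τ + v)) := by
    refine Summable.of_norm_bounded (hβ.mul_right K) fun n => ?_
    rw [hte, norm_mul, hen, mul_one]
    exact htn n
  set F : ℕ → ℝ := fun n => ‖β n‖ * K * ‖e n - 1‖ with hF
  have hF0 : ∀ n, 0 ≤ F n := fun n => by positivity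
  have hen1 : ∀ n, ‖e n - 1‖ ≤ 2 := by
    intro n
    calc ‖e n - 1‖ ≤ ‖e n‖ + ‖(1 : ℂ)‖ := norm_sub_le _ _
      _ = 2 := by rw [hen, norm_one]; norm_num
  have hF2 : ∀ n, F n ≤ 2 * K * ‖β n‖ := by
    intro n
    calc F n ≤ ‖β n‖ * K * 2 := mul_le_mul_of_nonneg_left (hen1 n) (by positivity)
      _ = _ := by ring
  have hFs : Summable F := Summable.of_nonneg_of_le hF0 hF2 (hβ.mul_left (2 * K))
  have hdiff : Ds κ s β (τ + v) - Ds κ s β v = ∑' n, (t n (τ + v) - t n v) := by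
    rw [hsum2.tsum_sub hsum1]
    rfl
  have hle : ∀ n, ‖t n (τ + v) - t n v‖ ≤ F n := by
    intro n
    have h1 : t n (τ + v) - t n v = t n v * (e n - 1) := by rw [hte]; ring
    rw [h1, norm_mul]
    exact mul_le_mul_of_nonneg_right (htn n) (norm_nonneg _)
  have h1 : ‖Ds κ s β (τ + v) - Ds κ s β v‖ ≤ ∑' n, F n := by
    rw [hdiff]
    exact tsum_of_norm_bounded hFs.hasSum hle
  refine h1.trans ?_
  rw [← hFs.sum_add_tsum_nat_add N]
  have hpart1 : ∑ i ∈ Finset.range N, F i ≤ ε / 2 := by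
    have h2 : ∀ i ∈ Finset.range N, F i ≤ K * δ * ‖β i‖ := by
      intro i hi
      have h3 := hτ i (Finset.mem_range.1 hi)
      have h4 : ‖e i - 1‖ ≤ δ := h3
      calc F i ≤ ‖β i‖ * K * δ := mul_le_mul_of_nonneg_left h4 (by positivity)
        _ = _ := by ring
    have h5 : ∑ i ∈ Finset.range N, ‖β i‖ ≤ B := hβ.sum_le_tsum _ fun n _ => norm_nonneg _
    calc ∑ i ∈ Finset.range N, F i ≤ ∑ i ∈ Finset.range N, K * δ * ‖β i‖ := Finset.sum_le_sum h2
      _ = K * δ * ∑ i ∈ Finset.range N, ‖β i‖ := by rw [Finset.mul_sum]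
      _ ≤ K * δ * (B + 1) := mul_le_mul_of_nonneg_left (by linarith) (by positivity)
      _ = ε / 2 := by
        rw [hδ]
        field_simp
  have hpart2 : ∑' i, F (i + N) ≤ ε / 2 := by
    have h2 : Summable (fun i => F (i + N)) := (summable_nat_add_iff N).2 hFs
    have h3 : Summable (fun i => ‖β (i + N)‖) := (summable_nat_add_iff N).2 hβ
    calc ∑' i, F (i + N) ≤ ∑' i, 2 * K * ‖β (i + N)‖ :=
          h2.tsum_le_tsum (fun i => hF2 (i + N)) (h3.mul_left _)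
      _ = 2 * K * ∑' i, ‖β (i + N)‖ := tsum_mul_left
      _ ≤ 2 * K * (ε / (4 * K)) := mul_le_mul_of_nonneg_left hN.le (by positivity)
      _ = ε / 2 := by
        field_simp
        norm_num
  linarith

end Pool.Agent.H142.PFGA4
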