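import Pool.Agent.H454.PF.Stm3

set_option autoImplicit false

/-!
# Project PF, fourth list: the three families (elliptic curves, Ramanujan's function, Dirichlet characters)
-/

namespace Pool.Agent.H454.PF

open Complex Filter Topology MeasureTheory MatrixGroups CongruenceSubgroup
open UpperHalfPlane hiding I
open scoped ComplexConjugate
open Pool.Agent.N963.GN

/-- `Δ(iy) = e^(-2πy) ∏ (1 - e^(-2πny))^24`. -/
noncomputable def DeltaR (y : ℝ) : ℝ :=
  Real.exp (-2 * Real.pi * y) * ∏' n : ℕ, (1 - Real.exp (-2 * Real.pi * ((n : ℝ) + 1) * y)) ^ 24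

/-- PF-EE. The newform of an elliptic curve gives the data `MF` (`N963/GN/StmM.lean`), `κ = 1` or `i`. Model: the library proof of `S_M0` for `Γ₁(N)`,
`Pool.Agent.N868.GN.t_M0` (module `Pool.Graph.R_pool_sql_team_seeded_63374d34.N868.GN.M0`): either copy it with `Γ₀(N)` in place of `Γ₁(N)` (the `Γ₁(N)`
invariance `aut` is a special case of the `Γ₀(N)` invariance: `c ≡ 0` mod `N`), or restrict `f` to a cusp form for `Γ₁(N)` (same function; `Γ₁(N) ≤ Γ₀(N)`;
the q-expansion is the same). `herm`: with `τ = i e^u/√N`, `-1/(N τ) = i e^(-u)/√N` and `-w N τ² = w e^(2u)`, and `f (i y)` is real because the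
coefficients are real; so `Km(-u) = κ w e^u f(i e^u/√N)` and `conj (Km u) = conj κ e^u f(i e^u/√N)`, `κ w = conj κ`. -/
def S_EE : Prop := ∀ (N : ℕ) [NeZero N] (f : CuspForm (Gamma0 N : Subgroup (GL (Fin 2) ℝ)) 2),
  (qExpansion 1 f).coeff 1 = 1 → (∀ n, ((qExpansion 1 f).coeff n).im = 0) → ∀ w : ℝ, (w = 1 ∨ w = -1) →
  (∀ τ τ' : ℍ, (τ' : ℂ) * ((N : ℂ) * (τ : ℂ)) = -1 → f τ' = -(w : ℂ) * (N : ℂ) * (τ : ℂ) ^ 2 * f τ) →
  ∀ κ : ℂ, (w = 1 → κ = 1) → (w = -1 → κ = I) →
  MF N 2 (fun z => f (UpperHalfPlane.ofComplex z)) (fun n => (qExpansion 1 f).coeff n) κ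

/-- PF-DE. Ramanujan's function gives the data `MF` of level one and weight `12`, `κ = 1`. The modules `Pool.Agent.H575.RD.D1` .. `D6` and
`Pool.Agent.H424.DX.*` on main (hand-ins `MP_cd509c_nt.NymanBeurlingDistances`, `JensenPolynomials`) and the library module `X3/Tau` contain the modular
discriminant as a cusp form / the Fourier series `Δ(iy) = ∑ τ(n) e^(-2πny)`, `Δ(i/y) = y^12 Δ(iy)`, bounds for `τ(n)`; Mathlib has `ModularForm.eta` and
perhaps `ModularForm.Delta`/`discriminant`. If `Δ` is available as a `CuspForm` for `SL(2,ℤ)` or `Γ₁(1)`, use `Pool.Agent.N868.GN.t_M0` (any `κ` it gives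
satisfies `κ Δ(i e^(-u)) e^(-6u) = conj κ Δ(i e^u) e^(6u)`, so `κ` is real, and one may divide by it) or copy its proof. -/
def S_DE : Prop := ∃ (F : ℂ → ℂ) (b : ℕ → ℂ), MF 1 12 F b 1 ∧ ∀ y : ℝ, 0 < y → F (I * y) = (DeltaR y : ℂ)

/-- PF-DD. Primitive Dirichlet characters and Mathlib's completed L-function. `D0 : S_D0` (library `N738/GN/D0.lean`) gives `ν`, `κ` and the data `TD`;
`D4 : S_D4` (library `N712/GN/D34.lean`) gives for `Re s > 1`, `s = 1/2 + i z`: the transform is `(κ/2) q^((s+ν)/2) Gammaℝ (s+ν) L(s, χ)`. Mathlib: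
`DirichletCharacter.LFunction_eq_LSeries`, `LFunction_eq_completed_div_gammaFactor`, `gammaFactor` (`Gammaℝ s` for even, `Gammaℝ (s+1)` for odd characters),
`differentiable_completedLFunction`; so it is `(κ/2) q^(ν/2) q^(s/2) completedLFunction χ s`, first for `Re s > 1`, then for all `z` because both sides are
entire (`AnalyticOnNhd.eq_of_eventuallyEq`). `ω = (κ/2) q^(ν/2)`. -/
def S_DD : Prop := ∀ (q : ℕ) [NeZero q], 1 < q → ∀ χ : DirichletCharacter ℂ q, χ.IsPrimitive →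
  ∃ (ν : ℕ) (κ ω : ℂ), ω ≠ 0 ∧ TD q ν (fun n => χ n) κ ∧ ∀ z : ℂ,
    Lt (fun u : ℝ => Kd q ν (fun n => χ n) κ (u : ℂ)) z =
      ω * (q : ℂ) ^ ((1 / 2 + I * z) / 2) * χ.completedLFunction (1 / 2 + I * z)

end Pool.Agent.H454.PF
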