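import Pool.Agent.H454.PF.Stm3
import Pool.Graph.R_pool_sql_team_seeded_63374d34.N498.GN.M1

set_option autoImplicit false

/-! PF-WM: the kernel of a cusp form has all Gaussian moments. -/

namespace Pool.Agent.H694.PF

open Complex Filter Topology MeasureTheory
open Pool.Agent.N963.GN Pool.Agent.N498.GN Pool.Agent.H454.PF
open scoped ComplexConjugate

theorem poly_aux (a b : ℝ) (ha : 0 ≤ a) (hb : 0 ≤ b) (r : ℝ) (hr : 0 ≤ r) :
    a * r ^ 2 + b * r ≤ r ^ 3 + (a + b + 1) ^ 3 := by
  rcases le_total r (a + b + 1) with h | h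
  · have h1 : a * r ^ 2 ≤ a * (a + b + 1) ^ 2 := by gcongr
    have h2 : b * r ≤ b * (a + b + 1) ^ 2 := by
      have h3 : r ≤ (a + b + 1) ^ 2 := by nlinarith
      exact mul_le_mul_of_nonneg_left h3 hb
    have h4 : 0 ≤ r ^ 3 := by positivity
    have h5 : a * (a + b + 1) ^ 2 + b * (a + b + 1) ^ 2 ≤ (a + b + 1) ^ 3 := by
      have : (a + b + 1) ^ 3 = a * (a + b + 1) ^ 2 + b * (a + b + 1) ^ 2 + (a + b + 1) ^ 2 := by
        ring
      have h6 : 0 ≤ (a + b + 1) ^ 2 := by positivity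
      linarith
    linarith
  · have h1 : 1 ≤ r := by linarith
    have h2 : b * r ≤ b * r ^ 2 := by
      have : r ≤ r ^ 2 := by nlinarith
      exact mul_le_mul_of_nonneg_left this hb
    have h3 : (a + b) * r ^ 2 ≤ r * r ^ 2 := by
      have : a + b ≤ r := by linarith
      exact mul_le_mul_of_nonneg_right this (by positivity)
    have h4 : 0 ≤ (a + b + 1) ^ 3 := by positivity
    nlinarith

theorem t_WM : S_WM := by
  intro N k F b κ h
  have hK := M1 N k F b κ h
  have hcont : Continuous (fun u : ℝ => Km N k F κ (u : ℂ)) := by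
    rw [continuous_iff_continuousAt]
    intro u
    have h1 : DifferentiableAt ℂ (Km N k F κ) (u : ℂ) := Km_diff h (by
      rw [Complex.ofReal_im, abs_zero]
      have := Real.pi_pos
      positivity)
    exact h1.continuousAt.comp Complex.continuous_ofReal.continuousAt
  refine ⟨hcont.measurable, hK.herm, ?_, hK.gro⟩
  intro M
  have hpi := Real.pi_pos
  obtain ⟨A, c, hA, hc, hb⟩ := Km_bound h (le_refl (0 : ℝ)) (by positivity)
  obtain ⟨C₀, hC₀, hp⟩ := exp_ge_poly hc
  have hk0 : (0 : ℝ) ≤ (k : ℝ) / 2 := by positivity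
  have hint : Integrable (fun u : ℝ =>
      A * Real.exp (C₀ + (|M| + (k : ℝ) / 2 + 1) ^ 3) * Real.exp (-1 * u ^ 2)) :=
    (integrable_exp_neg_mul_sq one_pos).const_mul _
  refine hint.mono' ?_ (Eventually.of_forall fun u => ?_)
  · exact (hcont.norm.mul (by fun_prop)).aestronglyMeasurable
  · have h1 := hb (u : ℂ) (by simp)
    simp only [ofReal_re] at h1
    have h2 := hp |u| (abs_nonneg u)
    have h3 := poly_aux |M| ((k : ℝ) / 2) (abs_nonneg M) hk0 |u| (abs_nonneg u)
    have h5 : |u| ^ 2 = u ^ 2 := sq_abs u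
    have h6 : M * u ^ 2 ≤ |M| * u ^ 2 := mul_le_mul_of_nonneg_right (le_abs_self M) (sq_nonneg u)
    rw [Real.norm_of_nonneg (by positivity)]
    calc ‖Km N k F κ (u : ℂ)‖ * Real.exp (M * u ^ 2)
        ≤ A * Real.exp (k / 2 * |u| - c * Real.exp |u|) * Real.exp (M * u ^ 2) :=
          mul_le_mul_of_nonneg_right h1 (Real.exp_pos _).le
      _ = A * Real.exp (k / 2 * |u| - c * Real.exp |u| + M * u ^ 2) := by
          rw [mul_assoc, ← Real.exp_add]
      _ ≤ A * Real.exp (C₀ + (|M| + (k : ℝ) / 2 + 1) ^ 3 + -1 * u ^ 2) := by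
          apply mul_le_mul_of_nonneg_left (Real.exp_le_exp.2 ?_) hA
          rw [h5] at h2 h3
          linarith
      _ = A * Real.exp (C₀ + (|M| + (k : ℝ) / 2 + 1) ^ 3) * Real.exp (-1 * u ^ 2) := by
          rw [Real.exp_add, mul_assoc]

end Pool.Agent.H694.PF
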