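import Pool.Agent.H454.PF.Gen
import Pool.Agent.H454.PF.Stm4
import Pool.Agent.H454.PF.GA0
import Pool.Agent.H454.PF.GA1
import Pool.Agent.H454.PF.GA2
import Pool.Agent.H454.PF.GA3
import Pool.Agent.H454.PF.GA4
import Pool.Agent.H454.PF.GA5
import Pool.Agent.H454.PF.WD
import Pool.Agent.H454.PF.WM
import Pool.Agent.H454.PF.EX1
import Pool.Agent.H454.PF.EX2
import Pool.Agent.H454.PF.EX3
import Pool.Graph.R_pool_sql_team_seeded_63374d34.N498.GN.M1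
import Pool.Graph.R_pool_sql_team_seeded_63374d34.N455.GN.M2a
import Pool.Graph.R_pool_sql_team_seeded_63374d34.N558.GN.M2b
import Pool.Graph.R_pool_sql_team_seeded_63374d34.N157.GN.M2c
import Pool.Graph.R_pool_sql_team_seeded_63374d34.N348.GN.M3
import Pool.Graph.R_pool_sql_team_seeded_63374d34.N738.GN.D1
import Pool.Graph.R_pool_sql_team_seeded_63374d34.N402.GN.D2
import Pool.Graph.R_pool_sql_team_seeded_63374d34.N712.GN.D34

set_option autoImplicit false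

/-!
# Project PF: cusp forms and Dirichlet characters
-/

namespace Pool.Agent.H454.PF

open Complex Filter Topology MeasureTheory
open scoped ComplexConjugate
open Pool.Agent.N963.GN

theorem t_EX : S_EX := Pool.Agent.H996.PF.t_EX3 Pool.Agent.H157.PF.t_EX1 Pool.Agent.H356.PF.t_EX2

theorem ga_main {k : ℝ → ℂ} {H κ c0 : ℝ} {a1 : ℂ} {β : ℕ → ℂ} {A : ℝ → ℂ} {x0 C : ℝ} (hk : Wt k)
    (h : AS (Lt k) H κ c0 a1 β A x0 C) {s : ℝ} (hs : 0 < s) : (NRZ (Lt (gw k s))).Infinite :=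
  Pool.Agent.H122.PF.t_GA5 Pool.Agent.H122.PF.t_GA0 Pool.Agent.H142.PFGA1.t_GA1 Pool.Agent.H641.PF.t_GA2
    Pool.Agent.H345.GA3.t_GA3 Pool.Agent.H142.PFGA4.t_GA4 k H κ c0 a1 β A x0 C hk h s hs

theorem full_M (gmm : S_GMM) {N k : ℕ} {F : ℂ → ℂ} {b : ℕ → ℂ} {κ : ℂ} (h : MF N k F b κ) :
    Full (Km N k F κ) (Real.pi / 2) := by
  have h1 := Pool.Agent.N498.GN.M1 N k F b κ h
  refine ⟨h1, ?_, Pool.Agent.N348.GN.m3 N k F b κ h, Pool.Agent.H694.PF.t_WM N k F b κ h, fun s hs => ?_⟩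
  · obtain ⟨C, δ0, hC, hδ0, hδ1, ha⟩ := Pool.Agent.N455.GN.m2a N k F b κ h
    obtain ⟨c, δ2, hc, hδ2, hδ3, hb⟩ := Pool.Agent.N558.GN.m2b Pool.Agent.N157.GN.m2c N k F b κ h
    refine ⟨C, c, k, min δ0 δ2, hC, hc, by exact_mod_cast h.hk, lt_min hδ0 hδ2, ?_, ?_, fun δ hδ hδm σ hσ => ?_⟩
    · have : (1 : ℝ) < Real.pi / 2 := by linarith [Real.pi_gt_three]
      exact (min_le_left _ _).trans_lt (hδ1.trans this)
    · exact (min_le_left _ _).trans_lt hδ1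
    · obtain ⟨h2, h3⟩ := ha δ hδ (hδm.trans (min_le_left _ _)) σ hσ
      exact ⟨h2, h3, hb δ hδ (hδm.trans (min_le_right _ _)) σ hσ⟩
  · obtain ⟨H, κ', c0, a1, β, A, x0, C, has⟩ := gmm N k F b κ h
    exact ga_main h1.wt has hs

theorem full_D (gdd : S_GDD) {q ν : ℕ} {b : ℕ → ℂ} {κ : ℂ} (h : TD q ν b κ) :
    Full (Kd q ν b κ) (Real.pi / 4) := by
  have h1 := Pool.Agent.N738.GN.D1 q ν b κ h
  refine ⟨h1, Pool.Agent.N402.GN.d2 q ν b κ h, Pool.Agent.N712.GN.D3 Pool.Agent.N712.GN.D4 q ν b κ h,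
    Pool.Agent.H142.PFWD.t_WD q ν b κ h, fun s hs => ?_⟩
  obtain ⟨H, κ', c0, a1, β, A, x0, C, has⟩ := gdd q ν b κ h
  exact ga_main h1.wt has hs

end Pool.Agent.H454.PF
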