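import Pool.Agent.H454.PF.Stm

set_option autoImplicit false

/-!
# Project PF (helper454): growth of the solutions of `G' - a G = X`
-/

namespace Pool.Agent.H142.PFGR

open Complex
open Pool.Agent.H454.PF Pool.Agent.N963.GN

theorem t_GR : S_GR := by
  intro G X a hG hX ⟨C, hC0, hC⟩
  have hH : ∀ w : ℂ, HasDerivAt (fun w : ℂ => cexp (-(a * w)) * G w) (cexp (-(a * w)) * X w) w := by
    intro w
    have h0 : HasDerivAt (fun w : ℂ => (a : ℂ) * w) (a : ℂ) w := by
      simpa using (hasDerivAt_id w).const_mul (a : ℂ)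
    have h1 : HasDerivAt (fun w : ℂ => -((a : ℂ) * w)) (-(a : ℂ)) w := h0.fun_neg
    have h2 := (h1.cexp).mul (hG w).hasDerivAt
    refine h2.congr_deriv ?_
    rw [← hX w]
    ring
  set g : ℝ := ‖G 0‖ with hg
  have hg0 : 0 ≤ g := norm_nonneg _
  refine ⟨2 * |a| + g + C + 2, by positivity, fun z => ?_⟩
  set r : ℝ := ‖z‖ with hr
  have hr0 : 0 ≤ r := norm_nonneg _
  set P : ℝ := (1 + r) ^ (3 / 2 : ℝ) with hP
  have hP1 : 1 + r ≤ P := by
    have := Real.rpow_le_rpow_of_exponent_le (x := 1 + r) (by linarith) (show (1:ℝ) ≤ 3 / 2 by norm_num)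
    rwa [Real.rpow_one] at this
  have hexp : ∀ w : ℂ, ‖cexp (-(a * w))‖ ≤ Real.exp (|a| * ‖w‖) := by
    intro w
    rw [Complex.norm_exp]
    apply Real.exp_le_exp.2
    calc (-((a : ℂ) * w)).re ≤ |(-((a : ℂ) * w)).re| := le_abs_self _
      _ ≤ ‖(-((a : ℂ) * w))‖ := Complex.abs_re_le_norm _
      _ = |a| * ‖w‖ := by rw [norm_neg, norm_mul, Complex.norm_real, Real.norm_eq_abs]
  have hbd : ∀ w ∈ Metric.closedBall (0:ℂ) r, ‖cexp (-(a * w)) * X w‖ ≤
      Real.exp (|a| * P + C * P) := by
    intro w hw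
    have hw' : ‖w‖ ≤ r := by simpa using hw
    rw [norm_mul, Real.exp_add]
    have h1 : ‖cexp (-(a * w))‖ ≤ Real.exp (|a| * P) := by
      refine (hexp w).trans (Real.exp_le_exp.2 ?_)
      have : ‖w‖ ≤ P := by linarith
      gcongr
    have h2 : ‖X w‖ ≤ Real.exp (C * P) := by
      refine (hC w).trans (Real.exp_le_exp.2 ?_)
      rw [hP]
      gcongr
    gcongr
  have hmv := (convex_closedBall (0:ℂ) r).norm_image_sub_le_of_norm_hasDerivWithin_le
    (f := fun w : ℂ => cexp (-(a * w)) * G w) (f' := fun w => cexp (-(a * w)) * X w)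
    (fun w _ => (hH w).hasDerivWithinAt) hbd (x := 0) (y := z) (by simp [hr0]) (by simp [hr])
  simp only [mul_zero, neg_zero, Complex.exp_zero, one_mul, sub_zero] at hmv
  have hGz : G z = cexp (a * z) * (cexp (-(a * z)) * G z) := by
    rw [← mul_assoc, ← Complex.exp_add]
    simp
  have hE : ‖cexp (a * z)‖ ≤ Real.exp (|a| * P) := by
    have h1 := hexp (-z)
    rw [mul_neg, neg_neg, norm_neg] at h1
    refine h1.trans (Real.exp_le_exp.2 ?_)
    have : ‖z‖ ≤ P := by linarith
    gcongr
  have h3 : ‖cexp (-(a * z)) * G z‖ ≤ g + Real.exp (|a| * P + C * P) * r := by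
    have h4 := norm_sub_norm_le (cexp (-(a * z)) * G z) (G 0)
    linarith
  have hgP : g ≤ Real.exp (g * P) := by
    have h5 := Real.add_one_le_exp (g * P)
    nlinarith
  have hrP : r ≤ Real.exp P := by
    have h5 := Real.add_one_le_exp P
    linarith
  calc ‖G z‖ = ‖cexp (a * z)‖ * ‖cexp (-(a * z)) * G z‖ := by rw [← norm_mul, ← hGz]
    _ ≤ Real.exp (|a| * P) * (g + Real.exp (|a| * P + C * P) * r) := by gcongr
    _ ≤ Real.exp (|a| * P) * (Real.exp (g * P) + Real.exp (|a| * P + C * P) * Real.exp P) := by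
        gcongr
    _ ≤ Real.exp (|a| * P) * (Real.exp (|a| * P + C * P + P + g * P) +
          Real.exp (|a| * P + C * P + P + g * P)) := by
        have hP0 : 0 ≤ P := by linarith
        rw [← Real.exp_add (|a| * P + C * P) P]
        have e1 : 0 ≤ |a| * P := by positivity
        have e2 : 0 ≤ C * P := by positivity
        have e3 : 0 ≤ g * P := by positivity
        have e4 : Real.exp (g * P) ≤ Real.exp (|a| * P + C * P + P + g * P) :=
          Real.exp_le_exp.2 (by linarith)
        have e5 : Real.exp (|a| * P + C * P + P) ≤ Real.exp (|a| * P + C * P + P + g * P) :=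
          Real.exp_le_exp.2 (by linarith)
        exact mul_le_mul_of_nonneg_left (add_le_add e4 e5) (Real.exp_pos _).le
    _ = 2 * Real.exp (|a| * P + (|a| * P + C * P + P + g * P)) := by
        rw [Real.exp_add (|a| * P)]
        ring
    _ ≤ Real.exp P * Real.exp (|a| * P + (|a| * P + C * P + P + g * P)) := by
        have h6 : 2 ≤ Real.exp P := by
          have h5 := Real.add_one_le_exp P
          linarith
        gcongr
    _ = Real.exp ((2 * |a| + g + C + 2) * P) := by
        rw [← Real.exp_add]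
        congr 1
        ring

end Pool.Agent.H142.PFGR
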