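import Pool.Agent.H454.PF.Stm
import Pool.Graph.R_pool_sql_team_seeded_b3bd081e.Results.MP_023270_nt.EveryNegativeLambda

set_option autoImplicit false

/-! PF-GX: the Gaussian weights have infinitely many non-real zeros (helper627 for helper454). -/

namespace Pool.Agent.H627.PFGX

open Complex Filter Topology MeasureTheory
open scoped ENNReal

/-- the two normalisations of the kernel -/
lemma phi_eq (t : ℝ) :
    Pool.Agent.H902R3.XI.Phi t = 2 * Pool.Agent.Helper242.RK.Phi (t / 2) := by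
  unfold Pool.Agent.H902R3.XI.Phi Pool.Agent.Helper242.RK.Phi
  congr 1
  refine tsum_congr fun n => ?_
  rw [show 9 * (t / 2) = 9 * t / 2 by ring, show 5 * (t / 2) = 5 * t / 2 by ring,
    show 4 * (t / 2) = 2 * t by ring,
    show -Real.pi * ((n : ℝ) + 1) ^ 2 * Real.exp (2 * t) =
      -(((n : ℝ) + 1) ^ 2 * Real.pi * Real.exp (2 * t)) by ring]
  ring

/-- the two normalisations of the transform -/
lemma lt_eq (lam : ℝ) (z : ℂ) :
    Pool.Agent.N963.GN.Lt
      (fun u : ℝ => ((Pool.Agent.Helper242.RK.Phi u / Real.exp (lam * u ^ 2) : ℝ) : ℂ)) z =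
      1 / 4 * Pool.Agent.H902R3.XI.Xi (-(lam / 4)) (z / 2) := by
  have h := Measure.integral_comp_div (fun u : ℝ =>
    ((Pool.Agent.Helper242.RK.Phi u / Real.exp (lam * u ^ 2) : ℝ) : ℂ) * cexp (I * z * u)) 2
  have h2 : ∀ t : ℝ, ((Pool.Agent.Helper242.RK.Phi (t / 2) /
      Real.exp (lam * (t / 2) ^ 2) : ℝ) : ℂ) * cexp (I * z * ((t / 2 : ℝ) : ℂ)) =
      1 / 2 * (((Pool.Agent.H902R3.XI.Phi t * Real.exp (-(lam / 4) * t ^ 2) : ℝ) : ℂ) *
        cexp (I * (z / 2) * t)) := by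
    intro t
    have e1 : Pool.Agent.Helper242.RK.Phi (t / 2) / Real.exp (lam * (t / 2) ^ 2) =
        1 / 2 * (Pool.Agent.H902R3.XI.Phi t * Real.exp (-(lam / 4) * t ^ 2)) := by
      rw [phi_eq, div_eq_mul_inv, ← Real.exp_neg,
        show -(lam * (t / 2) ^ 2) = -(lam / 4) * t ^ 2 by ring]
      ring
    have e2 : I * z * ((t / 2 : ℝ) : ℂ) = I * (z / 2) * t := by
      push_cast
      ring
    rw [e1, e2]
    push_cast
    ring
  simp only [h2] at h
  rw [integral_const_mul] at h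
  unfold Pool.Agent.N963.GN.Lt Pool.Agent.H902R3.XI.Xi
  rw [abs_of_pos (show (0 : ℝ) < 2 by norm_num), Complex.real_smul] at h
  push_cast at h ⊢
  linear_combination (-1 / 2 : ℂ) * h

/-- a function with finitely many zeros off the real line has a bounded count there -/
lemma cnt_bd (f : ℂ → ℂ) (hf : (Pool.Agent.N963.GN.NRZ f).Finite) :
    ∃ M : ℝ≥0∞, M ≠ ⊤ ∧ ∀ T : ℝ,
      Pool.Agent.H902R3.XI.cnt f {z : ℂ | z.im ≠ 0 ∧ |z.re| ≤ T} ≤ M := by
  classical
  refine ⟨∑ z ∈ hf.toFinset, ((analyticOrderAt f z : ℕ∞) : ℝ≥0∞), ?_, fun T => ?_⟩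
  · refine (ENNReal.sum_lt_top.2 fun z hz => ?_).ne
    rw [lt_top_iff_ne_top, Ne, ENat.toENNReal_eq_top]
    intro htop
    rw [analyticOrderAt_eq_top] at htop
    rw [Set.Finite.mem_toFinset] at hz
    have h1 : ∀ᶠ w in 𝓝 z, w ∈ Pool.Agent.N963.GN.NRZ f := by
      have h2 : ∀ᶠ w : ℂ in 𝓝 z, w.im ≠ 0 :=
        Complex.continuous_im.continuousAt.eventually_ne hz.2
      filter_upwards [htop, h2] with w h3 h4
      exact ⟨h3, h4⟩
    exact absurd hf (infinite_of_mem_nhds z h1)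
  · unfold Pool.Agent.H902R3.XI.cnt
    rw [tsum_subtype {z : ℂ | z.im ≠ 0 ∧ |z.re| ≤ T}
      (fun z => ((analyticOrderAt f z : ℕ∞) : ℝ≥0∞))]
    have h1 : ∀ z : ℂ, Set.indicator {z : ℂ | z.im ≠ 0 ∧ |z.re| ≤ T}
        (fun z => ((analyticOrderAt f z : ℕ∞) : ℝ≥0∞)) z ≤
        if z ∈ hf.toFinset then ((analyticOrderAt f z : ℕ∞) : ℝ≥0∞) else 0 := by
      intro z
      by_cases hz : z ∈ hf.toFinset
      · rw [if_pos hz]
        exact Set.indicator_le_self' (fun _ _ => zero_le) z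
      · rw [if_neg hz]
        by_cases hS : z ∈ {z : ℂ | z.im ≠ 0 ∧ |z.re| ≤ T}
        · rw [Set.indicator_of_mem hS]
          have h2 : f z ≠ 0 := by
            intro h3
            exact hz ((Set.Finite.mem_toFinset hf).2 ⟨h3, hS.1⟩)
          have h4 : analyticOrderAt f z = 0 := by
            rw [analyticOrderAt_eq_zero]
            exact Or.inr h2
          rw [h4]
          simp
        · rw [Set.indicator_of_notMem hS]
    refine (ENNReal.tsum_le_tsum h1).trans (le_of_eq ?_)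
    rw [tsum_eq_sum (s := hf.toFinset) (fun z hz => if_neg hz)]
    exact Finset.sum_congr rfl fun z hz => if_pos hz

theorem t_GX : Pool.Agent.H454.PF.S_GX := by
  intro lam hlam hfin
  have hmu : -(lam / 4) < 0 := by linarith
  obtain ⟨⟨c, C, T₀, hc, hC, hT⟩, -, -⟩ :=
    Pool.Agent.Results.MP_023270_nt.EveryNegativeLambda.result (-(lam / 4)) hmu
  have hfin2 : (Pool.Agent.N963.GN.NRZ (Pool.Agent.H902R3.XI.Xi (-(lam / 4)))).Finite := by
    refine (hfin.image (fun z : ℂ => z / 2)).subset ?_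
    intro w hw
    refine ⟨2 * w, ⟨?_, ?_⟩, ?_⟩
    · rw [lt_eq, mul_div_cancel_left₀ _ (two_ne_zero), hw.1, mul_zero]
    · have := hw.2
      simpa using this
    · exact mul_div_cancel_left₀ _ two_ne_zero
  obtain ⟨M, hM, hcnt⟩ := cnt_bd _ hfin2
  obtain ⟨T, hTd⟩ : ∃ T : ℝ, T = max (max T₀ (Real.exp 1)) ((M.toReal + 1) / c) := ⟨_, rfl⟩
  have h1 : T₀ ≤ T := by rw [hTd]; exact (le_max_left _ _).trans (le_max_left _ _)
  have h2 : Real.exp 1 ≤ T := by rw [hTd]; exact (le_max_right _ _).trans (le_max_left _ _)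
  have h3 : (M.toReal + 1) / c ≤ T := by rw [hTd]; exact le_max_right _ _
  have hT0 : 0 < T := (Real.exp_pos 1).trans_le h2
  have hlog : 1 ≤ Real.log T := by
    rw [Real.le_log_iff_exp_le hT0]
    exact h2
  have h4 := (hT T h1).2.trans (hcnt T)
  rw [ENNReal.ofReal_le_iff_le_toReal hM] at h4
  rw [div_le_iff₀ hc] at h3
  have h5 : T ≤ T * Real.log T := le_mul_of_one_le_right hT0.le hlog
  have h6 := mul_le_mul_of_nonneg_left h5 hc.le
  linarith

end Pool.Agent.H627.PFGX
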