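import Pool.Agent.H454.PF.Stm
import Pool.Graph.R_pool_sql_team_seeded_3dad9d7b.NH98.RT.Had

set_option autoImplicit false

/-! # PF-HK: approximation of an entire function of order less than two by its zeros

The zeros in a large disc are divided out; the logarithm of the quotient is linear up to a small error on a fixed disc,
by the theorem of Borel and Carathéodory and the Schwarz lemma of the second order. -/

namespace Pool.Agent.H870.PF

open Complex Filter Topology Metric Set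
open Pool.Agent.NH98.RT.Had

/-- the remainder of the second order -/
theorem second_order {h : ℂ → ℂ} {T M : ℝ} (hT : 0 < T) (hM : 0 < M)
    (hd : DifferentiableOn ℂ h (ball 0 T)) (h0 : h 0 = 0)
    (hre : ∀ w ∈ ball (0 : ℂ) T, (h w).re ≤ M) {z : ℂ} (hz : z ∈ ball (0 : ℂ) (T / 2)) :
    ‖h z - deriv h 0 * z‖ ≤ 16 * M * (‖z‖ / T) ^ 2 := by
  have hT2 : 0 < T / 2 := by positivity
  have hsub : ball (0 : ℂ) (T / 2) ⊆ ball 0 T := ball_subset_ball (by linarith)
  have hb : ∀ w ∈ ball (0 : ℂ) (T / 2), ‖h w‖ ≤ 2 * M := by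
    intro w hw
    have h1 := borelCaratheodory_zero hM hd (fun x hx => hre x hx) hT (hsub hw) h0
    have hw' : ‖w‖ < T / 2 := mem_ball_zero_iff.mp hw
    refine h1.trans ?_
    rw [div_le_iff₀ (by linarith)]
    nlinarith
  have hder : ‖deriv h 0‖ ≤ 2 * M / (T / 2) :=
    norm_deriv_le_div_of_mapsTo_ball (hd.mono hsub)
      (fun w hw => by rw [h0, mem_closedBall_zero_iff]; exact hb w hw) hT2
  have hda : DifferentiableAt ℂ h 0 := hd.differentiableAt (ball_mem_nhds _ hT)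
  set k : ℂ → ℂ := fun w => h w - deriv h 0 * w with hk
  have hk0 : k 0 = 0 := by simp [hk, h0]
  have hkd : DifferentiableOn ℂ k (ball 0 (T / 2)) := (hd.mono hsub).sub (by fun_prop)
  have hkm : MapsTo k (ball 0 (T / 2)) (closedBall (k 0) (4 * M)) := by
    intro w hw
    rw [hk0, mem_closedBall_zero_iff]
    have hw' : ‖w‖ < T / 2 := mem_ball_zero_iff.mp hw
    calc ‖k w‖ ≤ ‖h w‖ + ‖deriv h 0 * w‖ := norm_sub_le _ _
      _ ≤ 2 * M + 2 * M / (T / 2) * (T / 2) := by
        rw [norm_mul]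
        gcongr
        exact hb w hw
      _ = 4 * M := by field_simp; ring
  have hlo : (fun w => k w - k 0) =o[𝓝 0] (fun w : ℂ => ‖w - 0‖ ^ 1) := by
    have h1 := hda.hasDerivAt
    rw [hasDerivAt_iff_isLittleO] at h1
    simp only [pow_one]
    rw [Asymptotics.isLittleO_norm_right]
    refine h1.congr_left fun w => ?_
    rw [hk0, hk, h0, smul_eq_mul]
    ring
  have h2 := dist_le_mul_div_pow_of_mapsTo_ball_of_isLittleO hkd hkm hlo hz
  rw [hk0, dist_zero_right, dist_zero_right] at h2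
  refine h2.trans (le_of_eq ?_)
  have hT' : T ≠ 0 := hT.ne'
  rw [show ‖z‖ / (T / 2) = 2 * (‖z‖ / T) by field_simp]
  ring

/-- the derivative of the product at `0` -/
theorem hasDerivAt_prod (S : Finset ℂ) (m : ℂ → ℕ) :
    HasDerivAt (fun z : ℂ => ∏ a ∈ S, (1 - z / a) ^ (m a)) (-(∑ a ∈ S, (m a : ℂ) / a)) 0 := by
  classical
  induction S using Finset.induction_on with
  | empty => simpa using hasDerivAt_const (0 : ℂ) (1 : ℂ)
  | insert a S ha ih =>
    have h1 : HasDerivAt (fun z : ℂ => (1 - z / a) ^ (m a)) (-((m a : ℂ) / a)) 0 := by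
      have h2 : HasDerivAt (fun z : ℂ => 1 - z / a) (-(1 / a)) 0 :=
        ((hasDerivAt_id (0 : ℂ)).div_const a).const_sub 1
      have h3 := h2.pow (m a)
      refine h3.congr_deriv ?_
      simp
      ring
    have h4 := h1.mul ih
    have h5 : (fun z : ℂ => ∏ b ∈ insert a S, (1 - z / b) ^ (m b)) =
        (fun z : ℂ => (1 - z / a) ^ (m a)) * (fun z : ℂ => ∏ b ∈ S, (1 - z / b) ^ (m b)) := by
      funext z
      rw [Finset.prod_insert ha, Pi.mul_apply]
    rw [h5]
    refine h4.congr_deriv ?_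
    rw [Finset.sum_insert ha]
    simp
    ring

/-- the numerical choice of the radius -/
theorem choice (C K ρ R δ : ℝ) (hC : 0 ≤ C) (hρ0 : 0 ≤ ρ) (hρ : ρ < 2) (hδ : 0 < δ) :
    ∃ T : ℝ, 1 ≤ T ∧ 2 * R < T ∧ 16 * (C * (1 + 4 * T) ^ ρ + K) * (R / T) ^ 2 ≤ δ := by
  have h1 : Tendsto (fun T : ℝ => 16 * R ^ 2 * (C * 5 ^ ρ * T ^ (-(2 - ρ)) + |K| * T ^ (-(2 : ℝ)))) atTop
      (𝓝 (16 * R ^ 2 * (C * 5 ^ ρ * 0 + |K| * 0))) := by
    apply Tendsto.const_mul
    apply Tendsto.add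
    · apply Tendsto.const_mul
      exact tendsto_rpow_neg_atTop (by linarith)
    · apply Tendsto.const_mul
      exact tendsto_rpow_neg_atTop (by norm_num)
  rw [show 16 * R ^ 2 * (C * 5 ^ ρ * 0 + |K| * 0) = 0 by ring] at h1
  have h2 := h1.eventually (gt_mem_nhds hδ)
  obtain ⟨T, hT, hT1, hTR⟩ := (h2.and ((eventually_ge_atTop 1).and (eventually_gt_atTop (2 * R)))).exists
  refine ⟨T, hT1, hTR, le_trans ?_ hT.le⟩
  have hT0 : 0 < T := by linarith
  have h3 : (1 + 4 * T) ^ ρ ≤ 5 ^ ρ * T ^ ρ := by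
    rw [← Real.mul_rpow (by norm_num) hT0.le]
    exact Real.rpow_le_rpow (by positivity) (by linarith) hρ0
  have h4 : T ^ (-(2 - ρ)) = T ^ ρ / T ^ 2 := by
    rw [show -(2 - ρ) = ρ - 2 by ring, Real.rpow_sub hT0]
    congr 1
    exact Real.rpow_natCast T 2
  have h5 : T ^ (-(2 : ℝ)) = 1 / T ^ 2 := by
    rw [Real.rpow_neg hT0.le, one_div]
    congr 1
    exact Real.rpow_natCast T 2
  rw [h4, h5]
  have h6 : 16 * (C * (1 + 4 * T) ^ ρ + K) * (R / T) ^ 2 =
      16 * R ^ 2 * ((C * (1 + 4 * T) ^ ρ + K) / T ^ 2) := by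
    field_simp
  have h7 : C * 5 ^ ρ * (T ^ ρ / T ^ 2) + |K| * (1 / T ^ 2) = (C * (5 ^ ρ * T ^ ρ) + |K|) / T ^ 2 := by
    field_simp
  rw [h6, h7]
  have := le_abs_self K
  gcongr

theorem t_HK : Pool.Agent.H454.PF.S_HK := by
  classical
  intro f C ρ hf hf0 hC hρ0 hρ hgr R ε hR hε
  set B : ℝ := Real.exp (C * (1 + R) ^ ρ) with hB
  have hB0 : 0 < B := Real.exp_pos _
  set c : ℝ := ‖f 0‖ with hc
  have hc0 : 0 < c := norm_pos_iff.mpr hf0
  set δ : ℝ := min 1 (ε / (2 * B)) with hδ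
  have hδ0 : 0 < δ := lt_min one_pos (by positivity)
  obtain ⟨T, hT1, hTR, hT⟩ := choice C (|Real.log c| + 1) ρ R δ hC hρ0 hρ hδ0
  have hT0 : 0 < T := by linarith
  set M : ℝ := C * (1 + 4 * T) ^ ρ + (|Real.log c| + 1) with hM
  have hM0 : 0 < M := by positivity
  have hfin := finite_zeros hf ⟨0, hf0⟩ T
  set S : Finset ℂ := hfin.toFinset with hS
  have hmemS : ∀ a, a ∈ S ↔ ‖a‖ ≤ T ∧ f a = 0 := by
    intro a
    rw [hS, Set.Finite.mem_toFinset]
    simp
  have h0S : (0 : ℂ) ∉ S := by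
    rw [hmemS]
    exact fun h => hf0 h.2
  refine ⟨S, fun a ha => ⟨fun h => h0S (h ▸ ha), ((hmemS a).mp ha).2⟩, ?_⟩
  obtain ⟨g, hg, hgS, hfg⟩ := exists_div_prod hf ⟨0, hf0⟩ S h0S
  have hg0 : g 0 = f 0 := by
    have := hfg 0
    simpa using this.symm
  have hgne : ∀ z ∈ ball (0 : ℂ) T, g z ≠ 0 := by
    intro z hz h
    have h1 : z ∈ S := by
      rw [hmemS]
      refine ⟨(mem_ball_zero_iff.mp hz).le, ?_⟩
      rw [hfg z, h, mul_zero]
    exact hgS z h1 h
  have hbig : ∀ z : ℂ, ‖z‖ = 4 * T → ‖g z‖ ≤ Real.exp (C * (1 + 4 * T) ^ ρ) := by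
    intro z hz
    have h1 : ‖g z‖ ≤ ‖f z‖ := by
      rw [hfg z, norm_mul, norm_prod]
      have h3 : 1 ≤ ∏ a ∈ S, ‖(1 - z / a) ^ (analyticOrderNatAt f a)‖ := by
        have : ∀ a ∈ S, 1 ≤ ‖(1 - z / a) ^ (analyticOrderNatAt f a)‖ := fun a ha =>
          factor_ge (fun h => h0S (h ▸ ha)) ((hmemS a).mp ha).1 hz _
        calc (1 : ℝ) = ∏ a ∈ S, 1 := by simp
          _ ≤ _ := Finset.prod_le_prod (fun _ _ => zero_le_one) this
      have h4 : 0 ≤ ‖g z‖ := norm_nonneg _
      calc ‖g z‖ = 1 * ‖g z‖ := by ring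
        _ ≤ _ := by gcongr
    have h6 := hgr z
    rw [hz] at h6
    exact h1.trans h6
  have hball : ∀ z ∈ ball (0 : ℂ) T, ‖g z‖ ≤ ‖g 0‖ * Real.exp M := by
    intro z hz
    have h1 := Complex.norm_le_of_forall_mem_frontier_norm_le (U := ball (0 : ℂ) (4 * T))
      (f := g) isBounded_ball hg.diffContOnCl
      (C := Real.exp (C * (1 + 4 * T) ^ ρ)) (fun z hz => by
        rw [frontier_ball (0 : ℂ) (by positivity), mem_sphere_zero_iff_norm] at hz
        exact hbig z hz) (z := z) (subset_closure (ball_subset_ball (by linarith) hz))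
    refine h1.trans ?_
    rw [hg0, ← hc]
    have h2 : c * Real.exp M = Real.exp (Real.log c + M) := by
      rw [Real.exp_add (Real.log c) M, Real.exp_log hc0]
    rw [h2]
    apply Real.exp_le_exp.mpr
    have := neg_abs_le (Real.log c)
    rw [hM]
    linarith
  obtain ⟨h, hd, hh0, hh⟩ := exists_log hT0 hg hgne
  have hre : ∀ w ∈ ball (0 : ℂ) T, (h w).re ≤ M := by
    intro w hw
    have h2 := hball w hw
    have hgp : 0 < ‖g 0‖ := by rw [hg0]; exact hc0
    rw [hh w hw, norm_mul, norm_exp] at h2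
    have h3 : Real.exp (h w).re ≤ Real.exp M := le_of_mul_le_mul_left h2 hgp
    exact Real.exp_le_exp.mp h3
  have hda : DifferentiableAt ℂ h 0 := hd.differentiableAt (ball_mem_nhds _ hT0)
  -- the derivative at zero
  have hder : deriv h 0 = deriv f 0 / f 0 + ∑ a ∈ S, (analyticOrderNatAt f a : ℂ) / a := by
    have h1 := hasDerivAt_prod S (analyticOrderNatAt f)
    have h2 : HasDerivAt g (f 0 * deriv h 0) 0 := by
      have h3 : HasDerivAt (fun z => g 0 * cexp (h z)) (g 0 * (cexp (h 0) * deriv h 0)) 0 :=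
        (hda.hasDerivAt.cexp).const_mul (g 0)
      have h4 : g =ᶠ[𝓝 0] fun z => g 0 * cexp (h z) := by
        filter_upwards [ball_mem_nhds (0 : ℂ) hT0] with z hz
        exact hh z hz
      refine (h3.congr_of_eventuallyEq h4).congr_deriv ?_
      rw [hh0, Complex.exp_zero, one_mul, hg0]
    have h5 := h1.mul h2
    have h6 : ((fun z : ℂ => ∏ a ∈ S, (1 - z / a) ^ (analyticOrderNatAt f a)) * g) = f := by
      funext z
      rw [Pi.mul_apply]
      exact (hfg z).symm
    rw [h6] at h5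
    have h7 := h5.deriv
    rw [h7, hg0]
    simp
    field_simp
    ring
  intro z hz
  have hzT : z ∈ ball (0 : ℂ) (T / 2) := by
    rw [mem_ball_zero_iff]
    linarith
  have hzT' : z ∈ ball (0 : ℂ) T := by
    rw [mem_ball_zero_iff]
    linarith
  have hk : ‖h z - deriv h 0 * z‖ ≤ δ := by
    refine (second_order hT0 hM0 hd hh0 hre hzT).trans (le_trans ?_ hT)
    gcongr
  rw [← hder]
  set k : ℂ := h z - deriv h 0 * z with hkdef
  have h1 : f z - f 0 * cexp (deriv h 0 * z) * ∏ a ∈ S, (1 - z / a) ^ (analyticOrderNatAt f a) =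
      - (f z * (cexp (-k) - 1)) := by
    have h2 : cexp (deriv h 0 * z) = cexp (h z) * cexp (-k) := by
      rw [← Complex.exp_add]
      congr 1
      rw [hkdef]
      ring
    rw [h2, hfg z, hh z hzT', hg0]
    ring
  rw [h1, norm_neg, norm_mul]
  have h3 : ‖cexp (-k) - 1‖ ≤ 2 * ‖-k‖ := by
    apply Complex.norm_exp_sub_one_le
    rw [norm_neg]
    exact hk.trans (min_le_left _ _)
  rw [norm_neg] at h3
  have h4 : ‖f z‖ ≤ B := by
    refine (hgr z).trans (Real.exp_le_exp.mpr ?_)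
    gcongr
  calc ‖f z‖ * ‖cexp (-k) - 1‖ ≤ B * (2 * δ) := by
        have : ‖cexp (-k) - 1‖ ≤ 2 * δ := by linarith
        gcongr
    _ ≤ B * (2 * (ε / (2 * B))) := by
        gcongr
        exact min_le_right _ _
    _ = ε := by field_simp

end Pool.Agent.H870.PF

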