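import Pool.Agent.H454.PF.Stm

set_option autoImplicit false

/-! # Entire functions of order `< 2` with real zeros only are limits of real-rooted polynomials -/

namespace Pool.Agent.H230.PF.HR

open Complex Filter Topology Polynomial
open scoped ComplexConjugate
open Pool.Agent.N963.GN Pool.Agent.H454.PF

/-- all roots are real -/
def Rl (Q : ℂ[X]) : Prop := ∀ w, Q.IsRoot w → w.im = 0

/-- approximable on discs by polynomials with real roots only -/
def Ap (g : ℂ → ℂ) : Prop := ∀ R ε : ℝ, 0 < ε → ∃ Q : ℂ[X], Rl Q ∧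
  ∀ z : ℂ, ‖z‖ ≤ R → ‖g z - Q.eval z‖ ≤ ε

theorem pow_diff (A B : ℂ) (K : ℝ) (hK : 1 ≤ K) (hA : ‖A‖ ≤ K) (hB : ‖B‖ ≤ K) (n : ℕ) :
    ‖A ^ n - B ^ n‖ ≤ n * K ^ n * ‖A - B‖ := by
  have hK0 : 0 ≤ K := zero_le_one.trans hK
  induction n with
  | zero => simp
  | succ n ih =>
    have e : A ^ (n + 1) - B ^ (n + 1) = A * (A ^ n - B ^ n) + (A - B) * B ^ n := by ring
    rw [e]
    have h1 : ‖A * (A ^ n - B ^ n)‖ ≤ K * (n * K ^ n * ‖A - B‖) := by
      rw [norm_mul]
      exact mul_le_mul hA ih (norm_nonneg _) hK0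
    have h2 : ‖(A - B) * B ^ n‖ ≤ ‖A - B‖ * K ^ (n + 1) := by
      rw [norm_mul, norm_pow]
      refine mul_le_mul_of_nonneg_left ?_ (norm_nonneg _)
      exact (pow_le_pow_left₀ (norm_nonneg _) hB n).trans (pow_le_pow_right₀ hK (by omega))
    calc _ ≤ K * (n * K ^ n * ‖A - B‖) + ‖A - B‖ * K ^ (n + 1) := (norm_add_le _ _).trans
          (add_le_add h1 h2)
      _ = _ := by push_cast; ring

theorem exp_diff (w : ℂ) (M : ℝ) (hM : ‖w‖ ≤ M) (n : ℕ) (hn : 0 < n) (hMn : M ≤ n) :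
    ‖cexp w - (1 + w / n) ^ n‖ ≤ M ^ 2 * Real.exp M / n := by
  have hn0 : (0 : ℝ) < n := by exact_mod_cast hn
  have hnc : (n : ℂ) ≠ 0 := by exact_mod_cast hn.ne'
  have hM0 : 0 ≤ M := (norm_nonneg w).trans hM
  have e : cexp w = cexp (w / n) ^ n := by
    rw [← Complex.exp_nat_mul]
    congr 1
    field_simp
  have hwn : ‖w / n‖ ≤ M / n := by
    rw [norm_div, Complex.norm_natCast]
    exact div_le_div_of_nonneg_right hM hn0.le
  have hMn1 : M / n ≤ 1 := by
    rw [div_le_one hn0]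
    exact hMn
  have h1 : ‖cexp (w / n)‖ ≤ Real.exp (M / n) := by
    rw [Complex.norm_exp]
    exact Real.exp_le_exp.2 ((Complex.re_le_norm _).trans hwn)
  have h2 : ‖1 + w / n‖ ≤ Real.exp (M / n) := by
    calc _ ≤ ‖(1 : ℂ)‖ + ‖w / n‖ := norm_add_le _ _
      _ ≤ 1 + M / n := by rw [norm_one]; linarith
      _ ≤ _ := by linarith [Real.add_one_le_exp (M / n)]
  have h3 : ‖cexp (w / n) - (1 + w / n)‖ ≤ (M / n) ^ 2 := by
    have h4 := Complex.norm_exp_sub_one_sub_id_le (hwn.trans hMn1)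
    have h5 : cexp (w / n) - (1 + w / n) = cexp (w / n) - 1 - w / n := by ring
    rw [h5]
    exact h4.trans (pow_le_pow_left₀ (norm_nonneg _) hwn 2)
  have h6 := pow_diff _ _ (Real.exp (M / n)) (Real.one_le_exp (by positivity)) h1 h2 n
  rw [← e] at h6
  refine h6.trans ?_
  have h7 : Real.exp (M / n) ^ n = Real.exp M := by
    rw [← Real.exp_nat_mul]
    congr 1
    field_simp
  rw [h7]
  calc n * Real.exp M * ‖cexp (w / n) - (1 + w / n)‖ ≤ n * Real.exp M * (M / n) ^ 2 :=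
        mul_le_mul_of_nonneg_left h3 (by positivity)
    _ = _ := by field_simp

/-- the exponential function -/
theorem ap_exp (b : ℝ) : Ap fun z => cexp (b * z) := by
  intro R ε hε
  set M : ℝ := |b| * |R| with hM
  have hM0 : 0 ≤ M := by positivity
  obtain ⟨n, hn⟩ := exists_nat_gt (max M (M ^ 2 * Real.exp M / ε))
  have hn1 : M < n := (le_max_left _ _).trans_lt hn
  have hn2 : M ^ 2 * Real.exp M / ε < n := (le_max_right _ _).trans_lt hn
  have hn0 : (0 : ℝ) < n := hM0.trans_lt hn1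
  have hn0' : 0 < n := by exact_mod_cast hn0
  refine ⟨(1 + C ((b : ℂ) / n) * X) ^ n, ?_, ?_⟩
  · intro w hw
    rw [IsRoot, eval_pow, eval_add, eval_one, eval_mul, eval_C, eval_X] at hw
    have h1 : 1 + (b : ℂ) / n * w = 0 := (pow_eq_zero_iff hn0'.ne').1 hw
    have hnc : (n : ℂ) ≠ 0 := by exact_mod_cast hn0'.ne'
    have h2 : (b : ℂ) * w = -n := by
      have h3 : (n : ℂ) * (1 + (b : ℂ) / n * w) = 0 := by rw [h1, mul_zero]
      field_simp at h3
      linear_combination h3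
    have h3 := congrArg Complex.im h2
    rw [Complex.im_ofReal_mul, Complex.neg_im, Complex.natCast_im, neg_zero] at h3
    rcases mul_eq_zero.1 h3 with h4 | h4
    · exfalso
      rw [h4, Complex.ofReal_zero, zero_mul] at h2
      exact hnc (neg_eq_zero.1 h2.symm)
    · exact h4
  · intro z hz
    have hz' : ‖(b : ℂ) * z‖ ≤ M := by
      rw [norm_mul, Complex.norm_real, Real.norm_eq_abs, hM]
      exact mul_le_mul_of_nonneg_left (hz.trans (le_abs_self R)) (abs_nonneg b)
    have h1 := exp_diff ((b : ℂ) * z) M hz' n hn0' hn1.le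
    have e : (1 + C ((b : ℂ) / n) * X : ℂ[X]).eval z = 1 + (b : ℂ) * z / n := by
      rw [eval_add, eval_one, eval_mul, eval_C, eval_X]
      ring
    rw [eval_pow, e]
    refine h1.trans ?_
    rw [div_le_iff₀ hn0]
    rw [div_lt_iff₀ hε] at hn2
    linarith

/-- products with a polynomial with real roots only -/
theorem ap_mul {g : ℂ → ℂ} (hg : Ap g) (p : ℂ[X]) (hp : Rl p) : Ap fun z => g z * p.eval z := by
  intro R ε hε
  obtain ⟨M, hM⟩ := (isCompact_closedBall (0 : ℂ) R).exists_bound_of_continuousOn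
    p.continuous.continuousOn
  have hM1 : 0 < |M| + 1 := by positivity
  obtain ⟨Q, hQ, hQ1⟩ := hg R (ε / (|M| + 1)) (by positivity)
  refine ⟨Q * p, ?_, ?_⟩
  · intro w hw
    rw [IsRoot, eval_mul] at hw
    rcases mul_eq_zero.1 hw with h | h
    · exact hQ w h
    · exact hp w h
  · intro z hz
    rw [eval_mul, ← sub_mul, norm_mul]
    have h1 : ‖p.eval z‖ ≤ |M| + 1 := by
      have h2 := hM z (mem_closedBall_zero_iff.2 hz)
      have h3 := le_abs_self M
      linarith
    calc _ ≤ ε / (|M| + 1) * (|M| + 1) := mul_le_mul (hQ1 z hz) h1 (norm_nonneg _) (by positivity)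
      _ = ε := by field_simp

/-- limits -/
theorem ap_lim {g : ℂ → ℂ} (h : ∀ R ε : ℝ, 0 < ε → ∃ k : ℂ → ℂ, Ap k ∧
    ∀ z : ℂ, ‖z‖ ≤ R → ‖g z - k z‖ ≤ ε) : Ap g := by
  intro R ε hε
  obtain ⟨k, hk, hk1⟩ := h R (ε / 2) (by positivity)
  obtain ⟨Q, hQ, hQ1⟩ := hk R (ε / 2) (by positivity)
  refine ⟨Q, hQ, fun z hz => ?_⟩
  have e : g z - Q.eval z = (g z - k z) + (k z - Q.eval z) := by ring
  rw [e]
  calc _ ≤ ‖g z - k z‖ + ‖k z - Q.eval z‖ := norm_add_le _ _
    _ ≤ ε := by linarith [hk1 z hz, hQ1 z hz]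

/-- translations -/
theorem ap_tr {g : ℂ → ℂ} (hg : Ap g) (β : ℝ) : Ap fun z => g (z - β) := by
  intro R ε hε
  obtain ⟨Q, hQ, hQ1⟩ := hg (R + |β|) ε hε
  refine ⟨Q.comp (X - C (β : ℂ)), ?_, ?_⟩
  · intro w hw
    rw [IsRoot, eval_comp, eval_sub, eval_X, eval_C] at hw
    have h := hQ _ hw
    rw [Complex.sub_im, Complex.ofReal_im, sub_zero] at h
    exact h
  · intro z hz
    rw [eval_comp, eval_sub, eval_X, eval_C]
    refine hQ1 _ ?_
    calc _ ≤ ‖z‖ + ‖(β : ℂ)‖ := norm_sub_le _ _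
      _ ≤ _ := by rw [Complex.norm_real, Real.norm_eq_abs]; linarith

theorem rr_of_ap {f : ℂ → ℂ} (hf : Differentiable ℂ f) (hne : ∃ z, f z ≠ 0) (h : Ap f) : RR f := by
  refine ⟨hf, hne, ?_⟩
  have h1 : ∀ N : ℕ, ∃ Q : ℂ[X], Rl Q ∧ ∀ z : ℂ, ‖z‖ ≤ N → ‖f z - Q.eval z‖ ≤ 1 / ((N : ℝ) + 1) :=
    fun N => h N _ (by positivity)
  choose Q hQ hQ1 using h1
  refine ⟨Q, hQ, ?_⟩
  rw [Metric.tendstoLocallyUniformly_iff]
  intro ε hε x
  refine ⟨Metric.ball x 1, Metric.ball_mem_nhds x one_pos, ?_⟩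
  obtain ⟨n, hn⟩ := exists_nat_gt (max (‖x‖ + 1) (1 / ε))
  filter_upwards [eventually_ge_atTop n] with N hN y hy
  have hN' : (n : ℝ) ≤ N := by exact_mod_cast hN
  have h1 : ‖x‖ + 1 < n := (le_max_left _ _).trans_lt hn
  have h2 : 1 / ε < n := (le_max_right _ _).trans_lt hn
  have h3 : ‖y‖ ≤ N := by
    rw [Metric.mem_ball, dist_eq_norm] at hy
    have h4 : ‖y‖ ≤ ‖y - x‖ + ‖x‖ := by
      have := norm_add_le (y - x) x
      rwa [sub_add_cancel] at this
    linarith
  rw [dist_eq_norm]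
  refine (hQ1 N y h3).trans_lt ?_
  rw [div_lt_iff₀ (by positivity)]
  rw [div_lt_iff₀ hε] at h2
  nlinarith

/-- there is a real point where `f` does not vanish -/
theorem ex_real {f : ℂ → ℂ} (hf : Differentiable ℂ f) (hne : ∃ z, f z ≠ 0) :
    ∃ β : ℝ, f β ≠ 0 := by
  by_contra hcon
  push Not at hcon
  obtain ⟨z, hz⟩ := hne
  apply hz
  have ha : AnalyticOnNhd ℂ f Set.univ := hf.differentiableOn.analyticOnNhd isOpen_univ
  have hfr : ∃ᶠ w in 𝓝[≠] (0 : ℂ), f w = 0 := by
    have h1 : Tendsto (fun n : ℕ => ((1 / ((n : ℝ) + 1) : ℝ) : ℂ)) atTop (𝓝[≠] 0) := by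
      rw [tendsto_nhdsWithin_iff]
      constructor
      · have h2 := (Complex.continuous_ofReal.tendsto 0).comp
          (tendsto_one_div_add_atTop_nhds_zero_nat (𝕜 := ℝ))
        rw [Complex.ofReal_zero] at h2
        exact h2
      · refine Eventually.of_forall fun n => ?_
        have h3 : (0 : ℝ) < 1 / ((n : ℝ) + 1) := by positivity
        show ((1 / ((n : ℝ) + 1) : ℝ) : ℂ) ≠ 0
        exact_mod_cast h3.ne'
    exact h1.frequently (Eventually.of_forall fun n => hcon _).frequently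
  exact ha.eqOn_zero_of_preconnected_of_frequently_eq_zero isPreconnected_univ
    (Set.mem_univ 0) hfr (Set.mem_univ z)

theorem t_HR : S_HR := by
  intro hHK f hf hsym hgr hne hreal
  refine rr_of_ap hf hne ?_
  obtain ⟨β, hβ⟩ := ex_real hf hne
  obtain ⟨C0, ρ, hC0, hρ0, hρ2, hgr⟩ := hgr
  -- the translate
  set F : ℂ → ℂ := fun z => f (z + β) with hF
  have hFd : Differentiable ℂ F := hf.comp (differentiable_id.add_const _)
  have hFsym : ∀ z, F (conj z) = conj (F z) := by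
    intro z
    show f (conj z + β) = conj (f (z + β))
    rw [← hsym, map_add, Complex.conj_ofReal]
  have hF0 : F 0 ≠ 0 := by
    show f (0 + β) ≠ 0
    rw [zero_add]
    exact hβ
  have hFg : ∀ z : ℂ, ‖F z‖ ≤ Real.exp (C0 * (1 + |β|) ^ ρ * (1 + ‖z‖) ^ ρ) := by
    intro z
    refine (hgr (z + β)).trans (Real.exp_le_exp.2 ?_)
    rw [mul_assoc]
    refine mul_le_mul_of_nonneg_left ?_ hC0
    rw [← Real.mul_rpow (by positivity) (by positivity)]
    refine Real.rpow_le_rpow (by positivity) ?_ hρ0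
    have h1 : ‖z + β‖ ≤ ‖z‖ + |β| := by
      have := norm_add_le z (β : ℂ)
      rwa [Complex.norm_real, Real.norm_eq_abs] at this
    nlinarith [norm_nonneg z, abs_nonneg β]
  have hFre : (F 0).im = 0 := by
    have h1 := hFsym 0
    rw [map_zero] at h1
    exact Complex.conj_eq_iff_im.1 h1.symm
  have hFre' : (deriv F 0).im = 0 := by
    have h1 : (conj ∘ F ∘ conj) = F := by
      funext z
      rw [Function.comp_apply, Function.comp_apply, hFsym, Complex.conj_conj]
    have h2 := congrFun (deriv_conj_conj (𝕜 := ℂ) (f := F)) (0 : ℂ)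
    rw [h1, Function.comp_apply, Function.comp_apply, map_zero] at h2
    exact Complex.conj_eq_iff_im.1 h2.symm
  have hAp : Ap F := by
    refine ap_lim fun R ε hε => ?_
    obtain ⟨S, hS, hS1⟩ := hHK F (C0 * (1 + |β|) ^ ρ) ρ hFd hF0 (by positivity) hρ0 hρ2 hFg
      (|R| + 1) ε (by positivity) hε
    have hSre : ∀ a ∈ S, a.im = 0 := by
      intro a ha
      have h1 := hreal (a + β) (hS a ha).2
      rw [Complex.add_im, Complex.ofReal_im, add_zero] at h1
      exact h1
    -- the real number `b`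
    have hb : ∃ b : ℝ, deriv F 0 / F 0 + ∑ a ∈ S, (analyticOrderNatAt F a : ℂ) / a = (b : ℂ) := by
      refine ⟨(deriv F 0).re / (F 0).re + ∑ a ∈ S, (analyticOrderNatAt F a : ℝ) / a.re, ?_⟩
      push_cast
      have e1 : ∀ w : ℂ, w.im = 0 → (w.re : ℂ) = w := fun w hw =>
        Complex.ext (by simp) (by simp [hw])
      rw [e1 _ hFre, e1 _ hFre']
      congr 1
      exact Finset.sum_congr rfl fun a ha => by rw [e1 a (hSre a ha)]
    obtain ⟨b, hb⟩ := hb
    rw [hb] at hS1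
    set p : ℂ[X] := C (F 0) * ∏ a ∈ S, (1 - C (a⁻¹) * X) ^ (analyticOrderNatAt F a) with hp
    have hpe : ∀ z, p.eval z = F 0 * ∏ a ∈ S, (1 - z / a) ^ (analyticOrderNatAt F a) := by
      intro z
      rw [hp, eval_mul, eval_C, eval_prod]
      congr 1
      refine Finset.prod_congr rfl fun a _ => ?_
      rw [eval_pow, eval_sub, eval_one, eval_mul, eval_C, eval_X, div_eq_inv_mul]
    have hpr : Rl p := by
      intro w hw
      rw [IsRoot, hpe, mul_eq_zero] at hw
      rcases hw with hw | hw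
      · exact absurd hw hF0
      · obtain ⟨a, ha, h1⟩ := Finset.prod_eq_zero_iff.1 hw
        have h2 : 1 - w / a = 0 := eq_zero_of_pow_eq_zero h1
        have ha0 := (hS a ha).1
        have h3 : w = a := by
          field_simp at h2
          linear_combination -h2
        rw [h3]
        exact hSre a ha
    refine ⟨fun z => cexp (b * z) * p.eval z, ap_mul (ap_exp b) p hpr, fun z hz => ?_⟩
    have h1 := hS1 z (hz.trans (by linarith [le_abs_self R]))
    have e : F z - F 0 * cexp (b * z) * ∏ a ∈ S, (1 - z / a) ^ (analyticOrderNatAt F a) =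
        F z - cexp (b * z) * p.eval z := by
      rw [hpe]
      ring
    rw [e] at h1
    exact h1
  have h1 := ap_tr hAp β
  have e : (fun z : ℂ => F (z - β)) = f := by
    funext z
    show f (z - β + β) = f z
    rw [sub_add_cancel]
  rw [e] at h1
  exact h1

end Pool.Agent.H230.PF.HR
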