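import Pool.Agent.H454.PF.Stm
import Pool.Graph.R_seed8.Helper242.RK.RHeq

set_option autoImplicit false

/-!
# The integral of the de Bruijn-Newman kernel (statement `S_ID` of project PF)
-/

namespace Pool.Agent.H21.PF

open Complex Filter Topology MeasureTheory
open Pool.Agent.N963.GN Pool.Agent.H454.PF

/-- **PF-ID** -/
theorem t_ID : S_ID := by
  intro z
  have h1 := Pool.Agent.Helper242.RK.two_F_line (N := 1) le_rfl z
  have h2 := Pool.Agent.Helper242.RK.F_one z
  have h3 : Lt (fun u : ℝ => ((Pool.Agent.Helper242.RK.Phi u : ℝ) : ℂ)) z =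
      ∫ u : ℝ, Pool.Agent.Helper242.RK.fN 1 z u := by
    unfold Lt
    refine integral_congr_ae (Eventually.of_forall fun u => ?_)
    show ((Pool.Agent.Helper242.RK.Phi u : ℝ) : ℂ) * cexp (I * z * u) =
      Pool.Agent.Helper242.RK.fN 1 z u
    rw [Pool.Agent.Helper242.RK.fN_ofReal, pow_one]
  have h4 : completedRiemannZeta₀ ((1 - I * z) / 2) =
      completedRiemannZeta₀ (1 / 2 + I * (z / 2)) := by
    rw [← completedRiemannZeta₀_one_sub]
    congr 1
    ring
  rw [h4] at h2
  rw [h3, ← h1]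
  unfold Xi
  have h5 : 2 * Pool.Agent.Helper242.RK.F ((1 : ℕ) : ℝ) z =
      (16 * Pool.Agent.Helper242.RK.F ((1 : ℕ) : ℝ) z) / 8 := by ring
  rw [h5, h2]
  ring

end Pool.Agent.H21.PF
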