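import Pool.Agent.H454.PF.Stm
import Pool.Graph.R_pool_sql_team_seeded_63374d34.N963.GN.Main
import Pool.Graph.R_pool_sql_team_seeded_63374d34.N712.GN.Z1
import Pool.Graph.R_pool_sql_team_seeded_63374d34.N558.GN.Z0

set_option autoImplicit false

/-!
# PF-NS: no strong Laguerre inequality for the solutions of `G' - a G = Lt K` (helper81)
-/

namespace Pool.Agent.H81.PFNS

open Complex Filter Topology MeasureTheory Polynomial
open scoped ComplexConjugate
open Pool.Agent.N963.GN
open Pool.Agent.H454.PF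

variable {K : ℂ → ℂ} {α : ℝ}

lemma pos_case (hK : Kern K α) (hM : MS K α) {a : ℝ} (ha : 0 < a) {G : ℂ → ℂ}
    (hG : Differentiable ℂ G)
    (hE : ∀ z : ℂ, deriv G z - a * G z = Lt (fun u : ℝ => K (u : ℂ)) z) : ¬ SL G := by
  intro hSL
  have hac : (a : ℂ) ≠ 0 := by exact_mod_cast ha.ne'
  set k : ℝ → ℂ := fun u : ℝ => Ka K a (u : ℂ) with hk
  have hT : ¬ SL (Lt k) := Pool.Agent.N868.GN.t_T6 K α hK hM a ha
  have hkwt : Wt k := wt_real hK ha
  have hXe := X_eq hK ha
  have hH : Differentiable ℂ (Lt k) := diff_Lt hkwt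
  have hdH : ∀ z : ℂ, deriv (Lt k) z = a * Lt k z - a * Lt (fun u : ℝ => K (u : ℂ)) z := by
    intro z
    have h1 := congrFun hXe z
    rw [← h1, ← hk]
    field_simp
    ring
  have hd1 : deriv (Lt k) = Lt (fun u => k u * (I * u)) := deriv_Lt hkwt
  have hd2 : deriv (deriv (Lt k)) = Lt (fun u => k u * (I * u) * (I * u)) := by
    rw [hd1, deriv_Lt hkwt.mulId]
  -- the difference with the particular solution
  obtain ⟨w, hw⟩ : ∃ w : ℂ → ℂ, w = fun z => G z + (a : ℂ)⁻¹ * Lt k z := ⟨_, rfl⟩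
  have hwd : ∀ z, HasDerivAt w (a * w z) z := by
    intro z
    have h1 := (hG z).hasDerivAt.add ((hH z).hasDerivAt.const_mul (a : ℂ)⁻¹)
    rw [hw]
    refine h1.congr_deriv ?_
    simp only
    have h2 : deriv G z = a * G z + Lt (fun u : ℝ => K (u : ℂ)) z := by
      rw [← hE z]
      ring
    rw [h2, hdH z]
    field_simp
    ring
  have hconst : ∀ z, w z * cexp (-(a * z)) = w 0 := by
    have h0 : Differentiable ℂ (fun z => w z * cexp (-(a * z))) := by
      intro z
      exact (hwd z).differentiableAt.mul (by fun_prop)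
    have h1 : ∀ z, deriv (fun z => w z * cexp (-(a * z))) z = 0 := by
      intro z
      have h2 : HasDerivAt (fun z : ℂ => -((a : ℂ) * z)) (-(a : ℂ)) z := by
        have h3 := ((hasDerivAt_id z).const_mul (a : ℂ)).neg
        rw [mul_one] at h3
        exact h3
      have h3 := ((hwd z).mul h2.cexp).deriv
      have h4 : deriv (fun z => w z * cexp (-(a * z))) z =
          a * w z * cexp (-(a * z)) + w z * (cexp (-(a * z)) * -(a : ℂ)) := h3
      rw [h4]
      ring
    intro z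
    have h2 := is_const_of_deriv_eq_zero h0 h1 z 0
    simp only [mul_zero, neg_zero, Complex.exp_zero, mul_one] at h2
    exact h2
  obtain ⟨c, hc⟩ : ∃ c : ℂ, c = w 0 := ⟨_, rfl⟩
  have hGe : ∀ z, G z = c * cexp (a * z) - (a : ℂ)⁻¹ * Lt k z := by
    intro z
    have h1 := hconst z
    rw [← hc] at h1
    have h2 : w z = c * cexp (a * z) := by
      rw [← h1, mul_assoc, ← Complex.exp_add, neg_add_cancel, Complex.exp_zero, mul_one]
    have h3 : w z = G z + (a : ℂ)⁻¹ * Lt k z := by rw [hw]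
    rw [← h2, h3]
    ring
  by_cases hc0 : c = 0
  · -- the particular solution
    apply hT
    have hG1 : G = fun z => -(a : ℂ)⁻¹ * Lt k z := by
      funext z
      rw [hGe z, hc0]
      ring
    have hG2 : deriv G = fun z => -(a : ℂ)⁻¹ * deriv (Lt k) z := by
      rw [hG1]
      funext z
      exact ((hH z).hasDerivAt.const_mul _).deriv
    have hdd : Differentiable ℂ (deriv (Lt k)) := by
      rw [hd1]
      exact diff_Lt hkwt.mulId
    have hG3 : deriv (deriv G) = fun z => -(a : ℂ)⁻¹ * deriv (deriv (Lt k)) z := by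
      rw [hG2]
      funext z
      exact ((hdd z).hasDerivAt.const_mul _).deriv
    intro A
    obtain ⟨x1, hx1, h⟩ := hSL A
    refine ⟨x1, hx1, fun x hx => ?_⟩
    have h1 := h x hx
    rw [hG3, hG2, hG1] at h1
    simp only at h1
    have e1 : ‖-(a : ℂ)⁻¹ * Lt k x‖ ^ 2 = a⁻¹ ^ 2 * ‖Lt k x‖ ^ 2 := by
      rw [norm_mul, norm_neg, norm_inv, Complex.norm_real, Real.norm_eq_abs, abs_of_pos ha, mul_pow]
    have e2 : ((-(a : ℂ)⁻¹ * deriv (Lt k) x) ^ 2 -
        -(a : ℂ)⁻¹ * Lt k x * (-(a : ℂ)⁻¹ * deriv (deriv (Lt k)) x)).re =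
        a⁻¹ ^ 2 * ((deriv (Lt k) x) ^ 2 - Lt k x * deriv (deriv (Lt k)) x).re := by
      have e3 : (-(a : ℂ)⁻¹ * deriv (Lt k) x) ^ 2 -
        -(a : ℂ)⁻¹ * Lt k x * (-(a : ℂ)⁻¹ * deriv (deriv (Lt k)) x) =
        ((a⁻¹ ^ 2 : ℝ) : ℂ) * ((deriv (Lt k) x) ^ 2 - Lt k x * deriv (deriv (Lt k)) x) := by
        push_cast
        ring
      rw [e3, Complex.re_ofReal_mul]
    rw [e1, e2] at h1
    have ha2 : 0 < a⁻¹ ^ 2 := by positivity
    have h2 : a⁻¹ ^ 2 * (A * Real.log |x| * ‖Lt k x‖ ^ 2) ≤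
        a⁻¹ ^ 2 * ((deriv (Lt k) x) ^ 2 - Lt k x * deriv (deriv (Lt k)) x).re := by
      linarith
    exact le_of_mul_le_mul_left h2 ha2
  · -- exponential growth on the right
    have hG2 : ∀ z, deriv G z = a * c * cexp (a * z) - (a : ℂ)⁻¹ * deriv (Lt k) z := by
      intro z
      have h2 : HasDerivAt (fun z : ℂ => ((a : ℂ) * z)) (a : ℂ) z := by
        have h3 := ((hasDerivAt_id z).const_mul (a : ℂ))
        rw [mul_one] at h3
        exact h3
      have h3 := ((h2.cexp.const_mul c).sub ((hH z).hasDerivAt.const_mul (a : ℂ)⁻¹)).deriv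
      have h4 : G = fun z => c * cexp (a * z) - (a : ℂ)⁻¹ * Lt k z := funext hGe
      rw [h4]
      have h5 : deriv (fun z => c * cexp (a * z) - (a : ℂ)⁻¹ * Lt k z) z =
        c * (cexp (a * z) * a) - (a : ℂ)⁻¹ * deriv (Lt k) z := h3
      rw [h5]
      ring
    have hdd : Differentiable ℂ (deriv (Lt k)) := by
      rw [hd1]
      exact diff_Lt hkwt.mulId
    have hG3 : ∀ z, deriv (deriv G) z = a ^ 2 * c * cexp (a * z) -
        (a : ℂ)⁻¹ * deriv (deriv (Lt k)) z := by
      intro z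
      have h2 : HasDerivAt (fun z : ℂ => ((a : ℂ) * z)) (a : ℂ) z := by
        have h3 := ((hasDerivAt_id z).const_mul (a : ℂ))
        rw [mul_one] at h3
        exact h3
      have h3 := ((h2.cexp.const_mul (a * c)).sub ((hdd z).hasDerivAt.const_mul (a : ℂ)⁻¹)).deriv
      have h4 : deriv G = fun z => a * c * cexp (a * z) - (a : ℂ)⁻¹ * deriv (Lt k) z := funext hG2
      rw [h4]
      have h5 : deriv (fun z => a * c * cexp (a * z) - (a : ℂ)⁻¹ * deriv (Lt k) z) z =
        a * c * (cexp (a * z) * a) - (a : ℂ)⁻¹ * deriv (deriv (Lt k)) z := h3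
      rw [h5]
      ring
    -- multiplication by `exp (- a x)`
    have hexp : Tendsto (fun x : ℝ => cexp (-(a * (x : ℂ)))) atTop (𝓝 0) := by
      rw [tendsto_zero_iff_norm_tendsto_zero]
      have h1 : (fun x : ℝ => ‖cexp (-(a * (x : ℂ)))‖) = fun x : ℝ => Real.exp (-(a * x)) := by
        funext x
        rw [Complex.norm_exp]
        congr 1
        simp
      rw [h1]
      refine (Real.tendsto_exp_atBot).comp (tendsto_neg_atTop_atBot.comp ?_)
      exact tendsto_id.const_mul_atTop ha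
    have hmul : ∀ x : ℝ, cexp (a * (x : ℂ)) * cexp (-(a * (x : ℂ))) = 1 := by
      intro x
      rw [← Complex.exp_add, add_neg_cancel, Complex.exp_zero]
    have gen : ∀ (b : ℂ) (h : ℝ → ℂ), Tendsto (fun x : ℝ => (b * cexp (a * (x : ℂ)) -
        (a : ℂ)⁻¹ * Lt h x) * cexp (-(a * (x : ℂ)))) atTop (𝓝 b) := by
      intro b h
      have h1 : Tendsto (fun x : ℝ => Lt h (x : ℂ)) atTop (𝓝 0) := Pool.Agent.N712.GN.Lt_tendsto
      have h2 := ((h1.const_mul (a : ℂ)⁻¹).mul hexp).const_sub b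
      rw [mul_zero, sub_zero] at h2
      refine h2.congr fun x => ?_
      rw [sub_mul, mul_assoc b, hmul x, mul_one]
    have t0 : Tendsto (fun x : ℝ => G x * cexp (-(a * (x : ℂ)))) atTop (𝓝 c) := by
      refine (gen c k).congr fun x => ?_
      rw [hGe x]
    have t1 : Tendsto (fun x : ℝ => deriv G x * cexp (-(a * (x : ℂ)))) atTop (𝓝 (a * c)) := by
      refine (gen (a * c) (fun u => k u * (I * u))).congr fun x => ?_
      rw [hG2 x, hd1]
    have t2 : Tendsto (fun x : ℝ => deriv (deriv G) x * cexp (-(a * (x : ℂ)))) atTop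
        (𝓝 (a ^ 2 * c)) := by
      refine (gen (a ^ 2 * c) (fun u => k u * (I * u) * (I * u))).congr fun x => ?_
      rw [hG3 x, hd2]
    have t3 : Tendsto (fun x : ℝ => ((deriv G x * cexp (-(a * (x : ℂ)))) ^ 2 -
        (G x * cexp (-(a * (x : ℂ)))) * (deriv (deriv G) x * cexp (-(a * (x : ℂ))))).re)
        atTop (𝓝 0) := by
      have h1 := (t1.pow 2).sub (t0.mul t2)
      have h2 : ((a : ℂ) * c) ^ 2 - c * (a ^ 2 * c) = 0 := by ring
      rw [h2] at h1
      have h3 := (Complex.continuous_re.tendsto (0 : ℂ)).comp h1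
      rw [Complex.zero_re] at h3
      exact h3
    have t4 : Tendsto (fun x : ℝ => ‖G x * cexp (-(a * (x : ℂ)))‖ ^ 2) atTop (𝓝 0) := by
      obtain ⟨x1, hx1, hL⟩ := hSL 1
      refine squeeze_zero' (Eventually.of_forall fun x => by positivity) ?_ t3
      filter_upwards [eventually_ge_atTop (max x1 (Real.exp 1))] with x hx
      have hx0 : 0 < x := lt_of_lt_of_le (Real.exp_pos 1) ((le_max_right _ _).trans hx)
      have habs : |x| = x := abs_of_pos hx0
      have h1 := hL x (by rw [habs]; exact (le_max_left _ _).trans hx)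
      have h2 : 1 ≤ Real.log x := by
        have h3 : Real.exp 1 ≤ x := (le_max_right _ _).trans hx
        have h4 := Real.log_le_log (Real.exp_pos 1) h3
        rwa [Real.log_exp] at h4
      rw [one_mul, habs] at h1
      have h5 : 0 ≤ ‖G (x : ℂ)‖ ^ 2 := by positivity
      have h6 : ‖G (x : ℂ)‖ ^ 2 ≤ ((deriv G x) ^ 2 - G x * deriv (deriv G) x).re := by
        nlinarith
      have e0 : cexp (-(a * (x : ℂ))) = ((Real.exp (-(a * x)) : ℝ) : ℂ) := by
        push_cast
        rfl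
      rw [e0]
      have e1 : ‖G x * ((Real.exp (-(a * x)) : ℝ) : ℂ)‖ ^ 2 =
          Real.exp (-(a * x)) ^ 2 * ‖G x‖ ^ 2 := by
        rw [norm_mul, Complex.norm_real, Real.norm_eq_abs, Real.abs_exp, mul_pow, mul_comm]
      have e2 : ((deriv G x * ((Real.exp (-(a * x)) : ℝ) : ℂ)) ^ 2 -
          (G x * ((Real.exp (-(a * x)) : ℝ) : ℂ)) *
            (deriv (deriv G) x * ((Real.exp (-(a * x)) : ℝ) : ℂ))).re =
          Real.exp (-(a * x)) ^ 2 * ((deriv G x) ^ 2 - G x * deriv (deriv G) x).re := by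
        have e3 : (deriv G x * ((Real.exp (-(a * x)) : ℝ) : ℂ)) ^ 2 -
          (G x * ((Real.exp (-(a * x)) : ℝ) : ℂ)) *
            (deriv (deriv G) x * ((Real.exp (-(a * x)) : ℝ) : ℂ)) =
          ((Real.exp (-(a * x)) ^ 2 : ℝ) : ℂ) * ((deriv G x) ^ 2 - G x * deriv (deriv G) x) := by
          push_cast
          ring
        rw [e3, Complex.re_ofReal_mul]
      rw [e1, e2]
      exact mul_le_mul_of_nonneg_left h6 (by positivity)
    have h1 := tendsto_nhds_unique (t0.norm.pow 2) t4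
    have h2 : ‖c‖ = 0 := (pow_eq_zero_iff two_ne_zero).1 h1
    exact hc0 (norm_eq_zero.1 h2)

/-- reflection of the inequality -/
lemma sl_neg {G : ℂ → ℂ} (h : SL G) : SL (fun z => -G (-z)) := by
  have h1 : deriv (fun z => -G (-z)) = fun z => deriv G (-z) := by
    funext z
    rw [deriv.fun_neg, deriv_comp_neg, neg_neg]
  have h2 : deriv (deriv (fun z => -G (-z))) = fun z => -deriv (deriv G) (-z) := by
    rw [h1]
    funext z
    rw [deriv_comp_neg]
  intro A
  obtain ⟨x1, hx1, hx⟩ := h A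
  refine ⟨x1, hx1, fun x hxx => ?_⟩
  have h3 := hx (-x) (by rw [abs_neg]; exact hxx)
  rw [h2, h1]
  simp only [norm_neg, neg_mul_neg]
  rw [abs_neg] at h3
  push_cast at h3
  exact h3

theorem t_NS : S_NS := by
  intro K α hK hM a G hG hE
  rcases lt_trichotomy a 0 with ha | ha | ha
  · intro hSL
    obtain ⟨r1, r2, -, -⟩ := Pool.Agent.N170.GN.r K α hK
    refine pos_case r1 (r2 hM) (neg_pos.2 ha) (G := fun z => -G (-z)) ?_ ?_ (sl_neg hSL)
    · exact (hG.comp differentiable_neg).neg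
    · intro z
      have h1 : deriv (fun z => -G (-z)) z = deriv G (-z) := by
        rw [deriv.fun_neg, deriv_comp_neg, neg_neg]
      have h2 : Lt (fun u : ℝ => K (-(u : ℂ))) z = Lt (fun u : ℝ => K (u : ℂ)) (-z) := by
        rw [← Pool.Agent.N170.GN.lt_neg (fun u : ℝ => K (u : ℂ)) z]
        push_cast
        rfl
      rw [h1, h2, ← hE (-z)]
      push_cast
      ring
  · subst ha
    have hE' : ∀ z : ℂ, deriv G z = Lt (fun u : ℝ => K (u : ℂ)) z := by
      intro z
      have h1 := hE z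
      rw [Complex.ofReal_zero, zero_mul, sub_zero] at h1
      exact h1
    by_cases h0 : K 0 = 0
    · exact Pool.Agent.N712.GN.Z1 K α hK hM h0 G hG hE'
    · exact Pool.Agent.N558.GN.z0 K α hK h0 G hG hE'
  · exact pos_case hK hM ha hG hE

end Pool.Agent.H81.PFNS

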