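import Pool.Agent.H454.PF.Stm

set_option autoImplicit false

/-!
# Task PF-SC (helper903 for helper454): scaling of the operator `φ(D)`
-/

namespace Pool.Agent.H903.PFSC

open Complex Filter Topology Polynomial
open Pool.Agent.N963.GN
open Pool.Agent.H454.PF

theorem lpc_scale {φ : ℂ → ℂ} (h : LPc φ) : LPc (fun s => φ (2 * s)) := by
  obtain ⟨⟨z, hz⟩, Q, hQ, hlim⟩ := h
  refine ⟨⟨z / 2, ?_⟩, fun N => (Q N).comp (Polynomial.C 2 * Polynomial.X), ?_, ?_⟩
  · have e : 2 * (z / 2) = z := by ring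
    simpa only [e] using hz
  · intro N w hw
    have e : aeval w ((Q N).comp (Polynomial.C 2 * Polynomial.X)) = aeval (2 * w) (Q N) := by
      rw [aeval_comp]
      congr 1
      simp
    rw [e] at hw
    have h1 := hQ N (2 * w) hw
    have h2 : (2 * w).im = 2 * w.im := by
      simp
    rw [h2] at h1
    linarith
  · have e : (fun (N : ℕ) (w : ℂ) => aeval w ((Q N).comp (Polynomial.C 2 * Polynomial.X))) =
        fun (N : ℕ) => (fun w : ℂ => aeval w (Q N)) ∘ (fun w : ℂ => 2 * w) := by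
      funext N w
      show aeval w ((Q N).comp (Polynomial.C 2 * Polynomial.X)) = aeval (2 * w) (Q N)
      rw [aeval_comp]
      congr 1
      simp
    rw [e]
    exact hlim.comp (fun w : ℂ => 2 * w) (continuous_const.mul continuous_id)

theorem trm_scale {φ G : ℂ → ℂ} (hφ : Differentiable ℂ φ) (hG : Differentiable ℂ G) (z : ℂ) (n : ℕ) :
    trm (fun s => φ (2 * s)) (fun z => G (z / 2) / 4) z n = trm φ G (z / 2) n / 4 := by
  unfold trm
  have h1 : iteratedDeriv n (fun s => φ (2 * s)) 0 = 2 ^ n * iteratedDeriv n φ 0 := by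
    rw [iteratedDeriv_comp_const_mul hφ.contDiff]
    simp
  have h2 : iteratedDeriv n (fun z => G (z / 2) / 4) z =
      (1 / 2) ^ n * iteratedDeriv n G (z / 2) / 4 := by
    have e : (fun z => G (z / 2) / 4) = fun z => (fun w => G ((1 / 2) * w)) z / 4 := by
      funext w
      simp only
      rw [div_eq_inv_mul w 2, one_div]
    rw [e, iteratedDeriv_div_const, iteratedDeriv_comp_const_mul hG.contDiff]
    simp only
    rw [show (1 / 2 : ℂ) * z = z / 2 by ring]
  rw [h1, h2]
  have h3 : (2 : ℂ) ^ n * (1 / 2) ^ n = 1 := by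
    rw [← mul_pow]
    norm_num
  calc 2 ^ n * iteratedDeriv n φ 0 / (n.factorial : ℂ) *
        ((1 / 2) ^ n * iteratedDeriv n G (z / 2) / 4)
      = (2 ^ n * (1 / 2) ^ n) * (iteratedDeriv n φ 0 / (n.factorial : ℂ) *
        iteratedDeriv n G (z / 2) / 4) := by ring
    _ = _ := by rw [h3, one_mul]

/-- Task PF-SC. -/
theorem t_SC : S_SC := fun _ _ hφ hG => ⟨lpc_scale, fun z n => trm_scale hφ hG z n⟩

end Pool.Agent.H903.PFSC
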