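import Pool.Agent.H454.PF.Stm

set_option autoImplicit false

/-!
# Project PF, second list: existence of preimages
-/

namespace Pool.Agent.H454.PF

open Complex Filter Topology MeasureTheory Polynomial
open scoped ComplexConjugate
open Pool.Agent.N963.GN

/-- weights: symmetric, Gaussian moments of all sizes, transform of order at most `3/2` -/
structure Wg (k : ℝ → ℂ) : Prop where
  meas : Measurable k
  herm : ∀ u : ℝ, k (-u) = conj (k u)
  mom : ∀ M : ℝ, Integrable (fun u : ℝ => ‖k u‖ * Real.exp (M * u ^ 2))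
  gro : ∃ C : ℝ, 0 ≤ C ∧ ∀ R : ℝ, 0 ≤ R →
    ∫ u : ℝ, ‖k u‖ * Real.exp (R * |u|) ≤ Real.exp (C * (1 + R) ^ (3 / 2 : ℝ))

/-- `G` is an admissible preimage of `X` under `φ(D)` -/
def Pre (φ X G : ℂ → ℂ) : Prop :=
  Differentiable ℂ G ∧ Sym G ∧ Gr2 G ∧ ∀ z : ℂ, HasSum (trm φ G z) (X z)

/-- PF-EX1. Existence of preimages when `φ 0 ≠ 0`: `G = Lt (k / φ(i u))`.
Proof. (1) `‖φ 0‖ ≤ ‖φ (i u)‖`: for a real polynomial `Q` with real roots `|Q(iu)| ≥ |Q(0)|` because `|i u - x| ≥ |x|` (product over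
the roots, e.g. `Polynomial.Splits`), and `Q N → φ`. (2) `φ` is differentiable (`TendstoLocallyUniformly` limit of polynomials) and
`φ (conj s) = conj (φ s)`. (3) `h u = k u / φ (i u)` satisfies `‖h u‖ ≤ ‖k u‖/‖φ 0‖`, `h (-u) = conj (h u)`; `Lt h` is entire (library
`N963/GN/W.lean`: `diff_Lt`, `deriv_Lt`, `sym_Lt`, `Wt.of_norm`, `norm_Lt_le`), symmetric, `‖Lt h z‖ ≤ ∫ ‖h u‖ exp(‖z‖ |u|) du`, so `Gr2`
with `ρ = 3/2`. (4) `iteratedDeriv n (Lt h) z = ∫ h(u) (i u)^n exp(i z u) du` (induction, `deriv_Lt`). By `c2 : S_C2` (library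
`N134/GN/C2.lean`) and the limit, `‖φ s‖ ≤ M exp (M ‖s‖²)`, so by Cauchy (`qbd` in `N525/GN/C5.lean` has such a bound; or directly with
the radius `r = 2|u|+1`) `∑ |φ_n| |u|^n ≤ 2 M exp (M (2|u|+1)²)`; so sum and integral can be interchanged (`hasSum_integral_of_summable_integral_norm`
or dominated convergence), and `∑ φ_n (i u)^n = φ (i u)` (Taylor series of an entire function, Mathlib
`Complex.hasSum_taylorSeries_of_entire`), which gives `∑ φ_n G^(n)(z) = ∫ h(u) φ(iu) exp(i z u) du = Lt k z`. (`φ(iu) ≠ 0` by (1).) -/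
def S_EX1 : Prop := ∀ φ : ℂ → ℂ, LPc φ → φ 0 ≠ 0 → ∀ k : ℝ → ℂ, Wg k →
  (∀ u : ℝ, ‖φ 0‖ ≤ ‖φ (I * u)‖) ∧ Pre φ (Lt k) (Lt (fun u : ℝ => k u / φ (I * u)))

/-- PF-EX2. The antiderivative. `G z = ∫_0^1 z G1 (t z) dt` (or Mathlib's primitives of entire functions: `DifferentiableOn.isExactOn_ball` or
`Complex.IsExactOn`..., or the power series), `‖G z‖ ≤ ‖z‖ exp (C (1 + ‖z‖)^ρ)`; `trm (s ψ(s)) G z 0 = 0` and
`trm (s ψ(s)) G z (n + 1) = trm ψ G1 z n` (`iteratedDeriv (n+1) (s ψ(s)) 0 = (n+1) iteratedDeriv n ψ 0`, `iteratedDeriv_succ'`). The symmetry of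
`G`: real on the real line after choosing `G 0 = 0`. -/
def S_EX2 : Prop := ∀ ψ X G1 : ℂ → ℂ, LPc ψ → Pre ψ X G1 → ∃ G : ℂ → ℂ, Pre (fun s => s * ψ s) X G ∧ ∀ z, deriv G z = G1 z

/-- PF-EX3. Existence of preimages in general, from `S_EX1` and `S_EX2` by induction on the order of the zero of `φ` at `0`
(`analyticOrderNatAt φ 0`; if `φ 0 = 0` then `φ s = s ψ s`, `LPc ψ` by the library theorem `Pool.Agent.N455.GN.c3 : S_C3`, and the order
of `ψ` is smaller by one, `analyticOrderAt_mul`). -/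
def S_EX3 : Prop := S_EX1 → S_EX2 → ∀ φ : ℂ → ℂ, LPc φ → ∀ k : ℝ → ℂ, Wg k → ∃ G : ℂ → ℂ, Pre φ (Lt k) G

/-- PF-WG. The kernel of the xi function is an admissible weight. (`E1 : S_E1` in `N14/GN/E1.lean`: `Kern RK.PhiC (π/8)` gives the symmetry
(`PhiC_ofReal`) and `gro`; the Gaussian moments follow from the doubly exponential decay of the kernel, see the proof of `dec` in that file:
`‖Φ(u)‖ ≤ C exp (9|u| - π exp (4|u|)/2)`-like bounds, `norm_P_le`, `KK.norm_P_le_pow`; even: `Phi_even`.) -/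
def S_WG : Prop := Wg (fun u : ℝ => ((Pool.Agent.Helper242.RK.Phi u : ℝ) : ℂ))

end Pool.Agent.H454.PF
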