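import Pool.Agent.H454.PF.Asm
import Pool.Agent.H454.PF.Stm2
import Pool.Agent.H454.PF.HK
import Pool.Agent.H454.PF.HR
import Pool.Agent.H454.PF.DV
import Pool.Agent.H454.PF.GR
import Pool.Agent.H454.PF.NS
import Pool.Agent.H454.PF.ID
import Pool.Agent.H454.PF.FX
import Pool.Agent.H454.PF.GX
import Pool.Agent.H454.PF.SC
import Pool.Graph.R_pool_sql_team_seeded_63374d34.N14.GN.E1
import Pool.Graph.R_pool_sql_team_seeded_63374d34.N854.GN.E2
import Pool.Graph.R_seed8.Helper242.RK.RHeq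

set_option autoImplicit false

/-!
# Project PF: the xi function
-/

namespace Pool.Agent.H454.PF

open Complex Filter Topology MeasureTheory Polynomial
open scoped ComplexConjugate
open Pool.Agent.N963.GN
open Pool.Agent.Helper242 (RK.Phi RK.PhiC)

/-- the operator is not trivial -/
def Triv (φ : ℂ → ℂ) : Prop := ∃ c β : ℝ, ∀ s : ℂ, φ s = c * cexp (β * s)

lemma K_eq : (fun u : ℝ => RK.PhiC (u : ℂ)) = fun u : ℝ => ((RK.Phi u : ℝ) : ℂ) := by
  funext u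
  exact Pool.Agent.Helper242.RK.PhiC_ofReal u

lemma lpc_diff {φ : ℂ → ℂ} (h : LPc φ) : Differentiable ℂ φ := by
  obtain ⟨-, Q, -, hQ⟩ := h
  have h1 : TendstoLocallyUniformlyOn (fun (N : ℕ) (w : ℂ) => aeval w (Q N)) φ atTop Set.univ :=
    tendstoLocallyUniformlyOn_univ.2 hQ
  have h2 := h1.differentiableOn (Eventually.of_forall fun N =>
    (Polynomial.differentiable_aeval (Q N)).differentiableOn) isOpen_univ
  exact differentiableOn_univ.1 h2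

/-- the de Bruijn-Newman normalisation -/
theorem main_Phi (wg : S_WG) {φ : ℂ → ℂ} (hφ : LPc φ) (hnt : ¬ Triv φ) {G : ℂ → ℂ} (hG : Differentiable ℂ G)
    (hs : Sym G) (hgr : Gr2 G) (hop : ∀ z, HasSum (trm φ G z) (Lt (fun u : ℝ => ((RK.Phi u : ℝ) : ℂ)) z)) :
    (NRZ G).Infinite := by
  have hK := Pool.Agent.N14.GN.E1
  have hM := Pool.Agent.N854.GN.e2
  have hL : LD (Lt (fun u : ℝ => RK.PhiC (u : ℂ))) := by
    rw [K_eq]
    exact Pool.Agent.H376.PFX.t_FX Pool.Agent.H21.PF.t_ID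
  rw [← K_eq] at hop
  by_cases h0 : ∃ a0, φ a0 = 0
  · obtain ⟨a0, ha0⟩ := h0
    exact main_zero Pool.Agent.H870.PF.t_HK Pool.Agent.H230.PF.HR.t_HR Pool.Agent.H389.PF_DV.t_DV
      Pool.Agent.H142.PFGR.t_GR Pool.Agent.H81.PFNS.t_NS hK hM hL hφ ha0 hG hs hgr hop
  · push Not at h0
    refine main_gauss hK (fun M => ?_) (fun lam hlam => ?_) hφ h0 hnt hG hgr hop
    · have := wg.mom M
      refine this.congr (Eventually.of_forall fun u => ?_)
      show ‖((RK.Phi u : ℝ) : ℂ)‖ * Real.exp (M * u ^ 2) = ‖RK.PhiC (u : ℂ)‖ * Real.exp (M * u ^ 2)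
      rw [Pool.Agent.Helper242.RK.PhiC_ofReal u]
    · have h := Pool.Agent.H627.PFGX.t_GX lam hlam
      have e : (fun u : ℝ => RK.PhiC (u : ℂ) * ((Real.exp (-(lam * u ^ 2)) : ℝ) : ℂ)) =
          fun u : ℝ => ((RK.Phi u / Real.exp (lam * u ^ 2) : ℝ) : ℂ) := by
        funext u
        rw [congrFun K_eq u, Real.exp_neg, div_eq_mul_inv]
        push_cast
        rfl
      rw [e]
      exact h

lemma sc_diff {G : ℂ → ℂ} (hG : Differentiable ℂ G) : Differentiable ℂ (fun z => G (z / 2) / 4) := by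
  have h1 : Differentiable ℂ (fun z : ℂ => z / 2) := by fun_prop
  exact (hG.comp h1).div_const 4

lemma half_conj (z : ℂ) : conj z / 2 = conj (z / 2) := by
  rw [map_div₀]
  congr 1
  exact (Complex.conj_ofNat 2).symm

lemma sc_sym {G : ℂ → ℂ} (hG : Sym G) : Sym (fun z => G (z / 2) / 4) := by
  intro z
  show G (conj z / 2) / 4 = conj (G (z / 2) / 4)
  rw [half_conj, hG, map_div₀]
  congr 1
  exact (Complex.conj_ofNat 4).symm

lemma gr2_of {F : ℂ → ℂ} (h : ∃ C ρ A B : ℝ, 0 ≤ C ∧ 0 ≤ ρ ∧ ρ < 2 ∧ 1 ≤ A ∧ 0 ≤ B ∧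
    ∀ z : ℂ, ‖F z‖ ≤ Real.exp B * Real.exp (C * (1 + A * ‖z‖) ^ ρ)) : Gr2 F := by
  obtain ⟨C, ρ, A, B, hC, hρ0, hρ2, hA, hB, hb⟩ := h
  refine ⟨C * A ^ ρ + B, ρ, by positivity, hρ0, hρ2, fun z => (hb z).trans ?_⟩
  rw [← Real.exp_add, Real.exp_le_exp]
  have hz := norm_nonneg z
  have h1 : (1 + A * ‖z‖) ^ ρ ≤ (A * (1 + ‖z‖)) ^ ρ := by
    apply Real.rpow_le_rpow (by positivity) _ hρ0
    nlinarith
  rw [Real.mul_rpow (by positivity) (by positivity)] at h1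
  have h2 : 1 ≤ (1 + ‖z‖) ^ ρ := Real.one_le_rpow (by linarith) hρ0
  calc B + C * (1 + A * ‖z‖) ^ ρ ≤ B * (1 + ‖z‖) ^ ρ + C * (A ^ ρ * (1 + ‖z‖) ^ ρ) := by
        have h3 : B ≤ B * (1 + ‖z‖) ^ ρ := le_mul_of_one_le_right hB h2
        have h4 : C * (1 + A * ‖z‖) ^ ρ ≤ C * (A ^ ρ * (1 + ‖z‖) ^ ρ) := by gcongr
        linarith
    _ = _ := by ring

lemma sc_gr {G : ℂ → ℂ} (hG : Gr2 G) : Gr2 (fun z => G (z / 2) / 4) := by
  obtain ⟨C, ρ, hC, hρ0, hρ2, hb⟩ := hG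
  refine gr2_of ⟨C, ρ, 1, 0, hC, hρ0, hρ2, le_rfl, le_rfl, fun z => ?_⟩
  have hz := norm_nonneg z
  have h2 : ‖z / 2‖ = ‖z‖ / 2 := by rw [norm_div]; norm_num
  have h1 := hb (z / 2)
  rw [h2] at h1
  have h4 : ‖G (z / 2) / 4‖ = ‖G (z / 2)‖ / 4 := by rw [norm_div]; norm_num
  rw [h4, Real.exp_zero, one_mul, one_mul]
  have h5 : Real.exp (C * (1 + ‖z‖ / 2) ^ ρ) ≤ Real.exp (C * (1 + ‖z‖) ^ ρ) := by
    rw [Real.exp_le_exp]
    gcongr
    linarith
  have h6 := norm_nonneg (G (z / 2))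
  linarith

/-- **Main theorem, part 2** -/
theorem main_Xi (wg : S_WG) {φ : ℂ → ℂ} (hφ : LPc φ) (hnt : ¬ Triv φ) {G : ℂ → ℂ} (hG : Pre φ Xi G) :
    (NRZ G).Infinite := by
  obtain ⟨hd, hs, hgr, hop⟩ := hG
  obtain ⟨hsc1, hsc2⟩ := Pool.Agent.H903.PFSC.t_SC φ G (lpc_diff hφ) hd
  have hnt' : ¬ Triv (fun s => φ (2 * s)) := by
    rintro ⟨c, β, h⟩
    apply hnt
    refine ⟨c, β / 2, fun s => ?_⟩
    have h1 := h (s / 2)
    simp only at h1
    rw [show 2 * (s / 2) = s by ring] at h1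
    rw [h1]
    congr 2
    push_cast
    ring
  have h := main_Phi wg (hsc1 hφ) hnt' (sc_diff hd) (sc_sym hs) (sc_gr hgr) (fun z => by
    rw [Pool.Agent.H21.PF.t_ID z]
    have h1 := (hop (z / 2)).div_const 4
    exact h1.congr_fun (fun n => hsc2 z n))
  intro hfin
  apply h
  have hsub : NRZ (fun z => G (z / 2) / 4) ⊆ (fun z => 2 * z) '' NRZ G := by
    rintro w ⟨hw, him⟩
    refine ⟨w / 2, ⟨?_, ?_⟩, by ring⟩
    · have h1 : G (w / 2) / 4 = 0 := hw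
      rcases div_eq_zero_iff.1 h1 with h | h
      · exact h
      · norm_num at h
    · have : (w / 2).im = w.im / 2 := by
        rw [show w / 2 = w / ((2 : ℝ) : ℂ) by norm_num, Complex.div_ofReal_im]
      rw [this]
      intro h
      apply him
      linarith
  exact (hfin.image _).subset hsub

end Pool.Agent.H454.PF
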