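import Pool.Agent.H454.PF.Fin

set_option autoImplicit false

/-!
# Project PF: existence of preimages, trivial operators, the Riemann hypothesis
-/

namespace Pool.Agent.H454.PF

open Complex Filter Topology MeasureTheory Polynomial
open scoped ComplexConjugate
open Pool.Agent.N963.GN
open Pool.Agent.Helper242 (RK.Phi RK.PhiC)

/-- the conclusion of `S_EX3` -/
def S_EX : Prop := ∀ φ : ℂ → ℂ, LPc φ → ∀ k : ℝ → ℂ, Wg k → ∃ G : ℂ → ℂ, Pre φ (Lt k) G

theorem exists_pre (wg : S_WG) (ex : S_EX) {φ : ℂ → ℂ} (hφ : LPc φ) : ∃ G : ℂ → ℂ, Pre φ Xi G := by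
  have hφd := lpc_diff hφ
  have h1 := (Pool.Agent.H903.PFSC.t_SC φ (fun _ => 0) hφd (differentiable_const 0)).1 hφ
  obtain ⟨G2, hd, hs, hgr, hop⟩ := ex _ h1 _ wg
  have hm : Differentiable ℂ (fun z : ℂ => 2 * z) := by fun_prop
  have hGd : Differentiable ℂ (fun z : ℂ => 4 * G2 (2 * z)) := (hd.comp hm).const_mul 4
  obtain ⟨-, hsc⟩ := Pool.Agent.H903.PFSC.t_SC φ (fun z : ℂ => 4 * G2 (2 * z)) hφd hGd
  have e : (fun z : ℂ => (fun z : ℂ => 4 * G2 (2 * z)) (z / 2) / 4) = G2 := by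
    funext z
    show 4 * G2 (2 * (z / 2)) / 4 = G2 z
    rw [show 2 * (z / 2) = z by ring]
    ring
  rw [e] at hsc
  refine ⟨fun z => 4 * G2 (2 * z), hGd, ?_, ?_, ?_⟩
  · intro z
    show 4 * G2 (2 * conj z) = conj (4 * G2 (2 * z))
    have h2 : 2 * conj z = conj (2 * z) := by
      rw [map_mul]
      congr 1
      exact (Complex.conj_ofNat 2).symm
    rw [h2, hs, map_mul]
    congr 1
    exact (Complex.conj_ofNat 4).symm
  · obtain ⟨C, ρ, hC, hρ0, hρ2, hb⟩ := hgr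
    refine gr2_of ⟨C, ρ, 2, Real.log 4, hC, hρ0, hρ2, by norm_num, Real.log_nonneg (by norm_num), fun z => ?_⟩
    have h2 := hb (2 * z)
    have h3 : ‖2 * z‖ = 2 * ‖z‖ := by rw [norm_mul]; norm_num
    have h4 : ‖4 * G2 (2 * z)‖ = 4 * ‖G2 (2 * z)‖ := by rw [norm_mul]; norm_num
    rw [h3] at h2
    rw [h4, Real.exp_log (by norm_num)]
    linarith
  · intro z
    have h2 := hop (2 * z)
    rw [Pool.Agent.H21.PF.t_ID (2 * z), show 2 * z / 2 = z by ring] at h2
    have h3 := h2.mul_left 4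
    rw [show 4 * (Xi z / 4) = Xi z by ring] at h3
    refine h3.congr_fun (fun n => ?_)
    rw [hsc (2 * z) n, show 2 * z / 2 = z by ring]
    ring

lemma lpc_exp_one : LPc (fun _ => 1) := by
  refine ⟨⟨0, one_ne_zero⟩, fun _ => 1, fun N w hw => ?_, ?_⟩
  · rw [map_one] at hw
    exact absurd hw one_ne_zero
  · have e : (fun (N : ℕ) (w : ℂ) => aeval w (1 : ℝ[X])) = fun _ _ => (1 : ℂ) := by
      funext N w
      rw [map_one]
    rw [e]
    intro u hu z
    exact ⟨Set.univ, univ_mem, Eventually.of_forall fun n y _ => refl_mem_uniformity hu⟩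

/-- the operator `c exp (β D)` -/
lemma hasSum_exp {G : ℂ → ℂ} (hG : Differentiable ℂ G) (c β : ℝ) (z : ℂ) :
    HasSum (trm (fun s => c * cexp (β * s)) G z) (c * G (z + β)) := by
  have h1 := (Complex.hasSum_taylorSeries_of_entire hG z (z + β)).mul_left (c : ℂ)
  refine h1.congr_fun (fun n => ?_)
  have h2 : iteratedDeriv n (fun s : ℂ => c * cexp (β * s)) 0 = c * (β : ℂ) ^ n := by
    rw [iteratedDeriv_const_mul_field, iteratedDeriv_comp_const_mul Complex.contDiff_exp]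
    have h3 : iteratedDeriv n cexp = cexp := by
      rw [iteratedDeriv_eq_iterate]
      exact Complex.iter_deriv_exp n
    rw [h3]
    simp
  unfold trm
  rw [h2]
  simp only [smul_eq_mul, add_sub_cancel_left]
  ring

theorem pre_triv {φ G : ℂ → ℂ} (hφ : LPc φ) {c β : ℝ} (hcb : ∀ s : ℂ, φ s = c * cexp (β * s)) (hG : Pre φ Xi G) :
    c ≠ 0 ∧ ∀ z, G z = Xi (z - β) / c := by
  have hc : c ≠ 0 := by
    rintro rfl
    obtain ⟨z, hz⟩ := hφ.1
    apply hz
    rw [hcb z]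
    simp
  refine ⟨hc, fun z => ?_⟩
  have hc' : (c : ℂ) ≠ 0 := by exact_mod_cast hc
  have h1 := hG.2.2.2 (z - β)
  rw [funext hcb] at h1
  have h2 := h1.unique (hasSum_exp hG.1 c β (z - β))
  rw [sub_add_cancel] at h2
  rw [h2, mul_div_cancel_left₀ _ hc']

lemma pre_one {G : ℂ → ℂ} (hG : Pre (fun _ => 1) Xi G) : G = Xi := by
  have h1 : ∀ s : ℂ, (fun _ : ℂ => (1 : ℂ)) s = ((1 : ℝ) : ℂ) * cexp (((0 : ℝ) : ℂ) * s) := by
    intro s
    simp
  obtain ⟨-, h2⟩ := pre_triv lpc_exp_one h1 hG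
  funext z
  rw [h2 z]
  simp

theorem pre_Xi (wg : S_WG) (ex : S_EX) : Pre (fun _ => 1) Xi Xi := by
  obtain ⟨G, hG⟩ := exists_pre wg ex lpc_exp_one
  have h := pre_one hG
  rwa [h] at hG

theorem rh_iff : RiemannHypothesis ↔ ∀ z, Xi z = 0 → z.im = 0 := by
  have hF : ∀ z : ℂ, Pool.Agent.Helper242.RK.F ((1 : ℕ) : ℝ) z = 0 ↔ Xi (z / 2) = 0 := by
    intro z
    have h1 := Pool.Agent.Helper242.RK.F_one z
    have h4 : completedRiemannZeta₀ ((1 - I * z) / 2) =
        completedRiemannZeta₀ (1 / 2 + I * (z / 2)) := by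
      rw [← completedRiemannZeta₀_one_sub]
      congr 1
      ring
    rw [h4] at h1
    have h5 : 16 * Pool.Agent.Helper242.RK.F ((1 : ℕ) : ℝ) z = 2 * Xi (z / 2) := by
      rw [h1]
      unfold Xi
      ring
    constructor
    · intro h
      rw [h] at h5
      have : 2 * Xi (z / 2) = 0 := by rw [← h5]; ring
      simpa using this
    · intro h
      rw [h] at h5
      simpa using h5
  have hex := Pool.Agent.Helper242.RK.exists_nonreal_zero_one_iff
  constructor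
  · intro hRH z hz
    by_contra him
    apply hex.1 _ hRH
    refine ⟨2 * z, ?_, (hF (2 * z)).2 (by rw [show 2 * z / 2 = z by ring]; exact hz)⟩
    have : (2 * z).im = 2 * z.im := by simp
    rw [this]
    intro h
    apply him
    linarith
  · intro h
    by_contra hRH
    obtain ⟨z, him, hz⟩ := hex.2 hRH
    have h1 := h (z / 2) ((hF z).1 hz)
    have h2 : (z / 2).im = z.im / 2 := by
      rw [show z / 2 = z / ((2 : ℝ) : ℂ) by norm_num, Complex.div_ofReal_im]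
    rw [h2] at h1
    apply him
    linarith

/-- **Main theorem** -/
theorem main (wg : S_WG) (ex : S_EX) :
    (∀ φ : ℂ → ℂ, LPc φ → ∃ G : ℂ → ℂ, Pre φ Xi G) ∧
    (∀ φ G : ℂ → ℂ, LPc φ → Pre φ Xi G → (NRZ G).Finite →
      ∃ c β : ℝ, c ≠ 0 ∧ (∀ s : ℂ, φ s = c * cexp (β * s)) ∧ ∀ z, G z = Xi (z - β) / c) ∧
    (RiemannHypothesis ↔ ∃ φ G : ℂ → ℂ, LPc φ ∧ Pre φ Xi G ∧ ∀ z, G z = 0 → z.im = 0) := by
  have h2 : ∀ φ G : ℂ → ℂ, LPc φ → Pre φ Xi G → (NRZ G).Finite →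
      ∃ c β : ℝ, c ≠ 0 ∧ (∀ s : ℂ, φ s = c * cexp (β * s)) ∧ ∀ z, G z = Xi (z - β) / c := by
    intro φ G hφ hG hfin
    by_cases ht : Triv φ
    · obtain ⟨c, β, hcb⟩ := ht
      obtain ⟨hc, h⟩ := pre_triv hφ hcb hG
      exact ⟨c, β, hc, hcb, h⟩
    · exact absurd hfin (main_Xi wg hφ ht hG)
  refine ⟨fun φ hφ => exists_pre wg ex hφ, h2, ?_⟩
  constructor
  · intro hRH
    exact ⟨fun _ => 1, Xi, lpc_exp_one, pre_Xi wg ex, rh_iff.1 hRH⟩
  · rintro ⟨φ, G, hφ, hG, hz⟩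
    have hfin : (NRZ G).Finite := by
      have : NRZ G = ∅ := by
        ext z
        simp only [NRZ, Set.mem_ofPred_eq, Set.mem_empty_iff_false, iff_false]
        rintro ⟨h1, h3⟩
        exact h3 (hz z h1)
      rw [this]
      exact Set.finite_empty
    obtain ⟨c, β, hc, -, h⟩ := h2 φ G hφ hG hfin
    rw [rh_iff]
    intro z hz0
    have h1 : G (z + β) = 0 := by
      rw [h, add_sub_cancel_right, hz0, zero_div]
    have h3 := hz _ h1
    rw [Complex.add_im, Complex.ofReal_im, add_zero] at h3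
    exact h3

end Pool.Agent.H454.PF
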