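import Pool.Agent.H454.PF.Stm3
import Pool.Graph.R_pool_sql_team_seeded_63374d34.N348.GN.M3

set_option autoImplicit false

/-!
# PF-GMM (helper878, for helper454): the Gamma factor and the Dirichlet series of a cusp form on a line
-/

namespace Pool.Agent.H878.PF

open Complex Filter Topology MeasureTheory
open Pool.Agent.N963.GN
open Pool.Agent.H454.PF

/-! ### The digamma function on a vertical line -/

theorem inv_lim {f : ℝ → ℂ} (hf : ∀ᶠ t : ℝ in atTop, t ≤ ‖f t‖) :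
    Tendsto (fun t => 1 / f t) atTop (𝓝 0) := by
  refine squeeze_zero_norm' (a := fun t : ℝ => 1 / t) ?_ ?_
  · filter_upwards [hf, eventually_gt_atTop (0 : ℝ)] with t h1 h2
    rw [norm_div, norm_one]
    exact one_div_le_one_div_of_le h2 h1
  · simpa using tendsto_inv_atTop_zero (𝕜 := ℝ)

theorem line_norm (σ c t : ℝ) : t ≤ ‖(σ : ℂ) + I * t + c‖ := by
  have h := abs_im_le_norm ((σ : ℂ) + I * t + c)
  have e : ((σ : ℂ) + I * t + c).im = t := by simp
  rw [e] at h
  exact (le_abs_self t).trans h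

theorem dig_lim {σ : ℝ} (hσ : 0 < σ) :
    Tendsto (fun t : ℝ => logDeriv Gamma ((σ : ℂ) + I * t) -
      (((Real.log t : ℝ) : ℂ) + I * ((Real.pi / 2 : ℝ) : ℂ))) atTop (𝓝 0) := by
  have p1 : Tendsto (fun t : ℝ => log ((σ : ℂ) + I * t + 2) -
      (((Real.log t : ℝ) : ℂ) + I * ((Real.pi / 2 : ℝ) : ℂ))) atTop (𝓝 0) := by
    have h1 : Tendsto (fun t : ℝ => I + (((σ + 2) / t : ℝ) : ℂ)) atTop (𝓝 I) := by
      have h2 : Tendsto (fun t : ℝ => (σ + 2) / t) atTop (𝓝 0) := tendsto_const_nhds.div_atTop tendsto_id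
      have h3 : Tendsto (fun t : ℝ => (((σ + 2) / t : ℝ) : ℂ)) atTop (𝓝 ((0 : ℝ) : ℂ)) :=
        (continuous_ofReal.tendsto 0).comp h2
      have h4 := h3.const_add I
      simpa using h4
    have h2 : Tendsto (fun t : ℝ => log (I + (((σ + 2) / t : ℝ) : ℂ)) - log I) atTop (𝓝 0) := by
      have hI : I ∈ slitPlane := by
        rw [mem_slitPlane_iff]
        right
        simp
      have h3 := (continuousAt_clog hI).tendsto.comp h1
      have h4 := h3.sub_const (log I)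
      simpa using h4
    refine h2.congr' ?_
    filter_upwards [eventually_gt_atTop (0 : ℝ)] with t ht
    have htc : (t : ℂ) ≠ 0 := by exact_mod_cast ht.ne'
    have e1 : (σ : ℂ) + I * t + 2 = (t : ℂ) * (I + (((σ + 2) / t : ℝ) : ℂ)) := by
      push_cast
      field_simp
      ring
    have e2 : I + (((σ + 2) / t : ℝ) : ℂ) ≠ 0 := by
      intro h
      have := congrArg Complex.im h
      simp at this
    rw [e1, Complex.log_ofReal_mul ht e2, Complex.log_I]
    push_cast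
    ring
  have p2 : Tendsto (fun t : ℝ => 1 / ((σ : ℂ) + I * t)) atTop (𝓝 0) := by
    apply inv_lim
    filter_upwards with t
    have := line_norm σ 0 t
    simpa using this
  have p3 : Tendsto (fun t : ℝ => 1 / ((σ : ℂ) + I * t + 1)) atTop (𝓝 0) := by
    apply inv_lim
    filter_upwards with t
    have := line_norm σ 1 t
    simpa using this
  have hre : ∀ t : ℝ, ((σ : ℂ) + I * t).re = σ := by
    intro t
    simp
  have p4 : Tendsto (fun t : ℝ => ∑' n : ℕ, H370.DG.er n ((σ : ℂ) + I * t)) atTop (𝓝 0) := by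
    have h := tendsto_tsum_of_dominated_convergence (𝓕 := (atTop : Filter ℝ))
      (f := fun (t : ℝ) (n : ℕ) => H370.DG.er n ((σ : ℂ) + I * t)) (g := fun _ => (0 : ℂ))
      (bound := fun n : ℕ => 1 / ((n : ℝ) + 1) ^ 2) H370.DG.summable_inv_sq ?_ ?_
    · simpa using h
    · intro n
      refine squeeze_zero_norm' (a := fun t : ℝ => 1 / t ^ 2) ?_ ?_
      · filter_upwards [eventually_gt_atTop (0 : ℝ)] with t ht
        have hn : (0 : ℝ) ≤ n := Nat.cast_nonneg n
        have h1 := H370.DG.log_step (z := (σ : ℂ) + I * t + ((n : ℂ) + 2)) (by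
          simp only [add_re, hre, natCast_re, re_ofNat]
          linarith)
        have h2 : (σ : ℂ) + I * t + ((n : ℂ) + 2) + 1 = (σ : ℂ) + I * t + (n + 3) := by ring
        rw [h2] at h1
        refine h1.trans ?_
        apply one_div_le_one_div_of_le (by positivity)
        have h3 := line_norm σ ((n : ℝ) + 2) t
        push_cast at h3
        exact pow_le_pow_left₀ ht.le h3 2
      · have := (tendsto_inv_atTop_zero (𝕜 := ℝ)).pow 2
        simpa [one_div, inv_pow] using this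
    · filter_upwards with t n
      exact H370.DG.norm_er_le n (by rw [hre]; exact hσ)
  have h := ((p1.sub p2).sub p3).add p4
  simp only [sub_zero, add_zero] at h
  refine h.congr fun t => ?_
  rw [H370.DG.logDeriv_Gamma' (by rw [hre]; exact hσ)]
  ring

/-! ### The Gamma factor -/

/-- the Gamma factor on the line -/
noncomputable def GA (κ : ℂ) (la σ : ℝ) (x : ℝ) : ℂ :=
  κ * (cexp (-((la : ℂ) * ((σ : ℂ) + I * x))) * Gamma ((σ : ℂ) + I * x))

/-- its logarithmic derivative -/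
noncomputable def ph (la σ : ℝ) (t : ℝ) : ℂ := I * (-(la : ℂ) + logDeriv Gamma ((σ : ℂ) + I * t))

theorem line_re (σ t : ℝ) : ((σ : ℂ) + I * t).re = σ := by simp

theorem Gamma_diff {s : ℂ} (hs : 0 < s.re) : DifferentiableAt ℂ Gamma s := by
  apply differentiableAt_Gamma
  intro m hm
  rw [hm] at hs
  simp only [neg_re, natCast_re] at hs
  have : (0 : ℝ) ≤ m := Nat.cast_nonneg m
  linarith

theorem ph_cont {la σ : ℝ} (hσ : 0 < σ) : Continuous (ph la σ) := by
  have hopen : IsOpen {s : ℂ | 0 < s.re} := isOpen_lt continuous_const continuous_re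
  have hd : DifferentiableOn ℂ Gamma {s : ℂ | 0 < s.re} := fun s hs =>
    (Gamma_diff hs).differentiableWithinAt
  have hd' : ContinuousOn (deriv Gamma) {s : ℂ | 0 < s.re} := (hd.deriv hopen).continuousOn
  have hc : ContinuousOn (logDeriv Gamma) {s : ℂ | 0 < s.re} := by
    have : logDeriv Gamma = fun s => deriv Gamma s / Gamma s := by
      funext s
      exact logDeriv_apply _ _
    rw [this]
    exact hd'.div hd.continuousOn fun s hs => Gamma_ne_zero_of_re_pos hs
  have hl : Continuous fun t : ℝ => (σ : ℂ) + I * t := by fun_prop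
  have h : Continuous fun t : ℝ => logDeriv Gamma ((σ : ℂ) + I * t) :=
    hc.comp_continuous hl fun t => by
      show 0 < ((σ : ℂ) + I * t).re
      rw [line_re]
      exact hσ
  unfold ph
  exact continuous_const.mul (continuous_const.add h)

theorem GA_ne {κ : ℂ} {la σ : ℝ} (hκ : κ ≠ 0) (hσ : 0 < σ) (x : ℝ) : GA κ la σ x ≠ 0 := by
  unfold GA
  refine mul_ne_zero hκ (mul_ne_zero (Complex.exp_ne_zero _) (Gamma_ne_zero_of_re_pos ?_))
  rw [line_re]
  exact hσ

theorem GA_deriv {κ : ℂ} {la σ : ℝ} (hσ : 0 < σ) (t : ℝ) :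
    HasDerivAt (GA κ la σ) (GA κ la σ t * ph la σ t) t := by
  have hre : 0 < ((σ : ℂ) + I * t).re := by
    rw [line_re]
    exact hσ
  have hG0 : Gamma ((σ : ℂ) + I * t) ≠ 0 := Gamma_ne_zero_of_re_pos hre
  have h1 : HasDerivAt (fun z : ℂ => (σ : ℂ) + I * z) I (t : ℂ) := by
    have := ((hasDerivAt_id (t : ℂ)).const_mul I).const_add (σ : ℂ)
    rw [mul_one] at this
    exact this
  have h2 : HasDerivAt (fun z : ℂ => cexp (-((la : ℂ) * ((σ : ℂ) + I * z))))
      (cexp (-((la : ℂ) * ((σ : ℂ) + I * t))) * (-((la : ℂ) * I))) (t : ℂ) :=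
    ((h1.const_mul (la : ℂ)).neg).cexp
  have h3 : HasDerivAt (fun z : ℂ => Gamma ((σ : ℂ) + I * z))
      (deriv Gamma ((σ : ℂ) + I * t) * I) (t : ℂ) :=
    HasDerivAt.comp (t : ℂ) (Gamma_diff hre).hasDerivAt h1
  have h4 := ((h2.mul h3).const_mul κ).comp_ofReal
  unfold GA
  refine h4.congr_deriv ?_
  unfold ph
  rw [logDeriv_apply]
  field_simp

theorem GA_exp {κ : ℂ} {la σ : ℝ} (hσ : 0 < σ) (x y : ℝ) :
    GA κ la σ x = GA κ la σ y * cexp (∫ s in y..x, ph la σ s) := by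
  have hc := ph_cont (la := la) hσ
  have h1 : ∀ t : ℝ, HasDerivAt (fun t : ℝ => GA κ la σ t * cexp (-∫ s in y..t, ph la σ s)) 0 t := by
    intro t
    have hd : HasDerivAt (fun u : ℝ => ∫ s in y..u, ph la σ s) (ph la σ t) t :=
      (Continuous.integral_hasStrictDerivAt hc y t).hasDerivAt
    have h2 := (GA_deriv (κ := κ) (la := la) hσ t).mul (hd.neg).cexp
    refine h2.congr_deriv ?_
    ring
  have h2 := is_const_of_deriv_eq_zero (f := fun t : ℝ => GA κ la σ t * cexp (-∫ s in y..t, ph la σ s))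
    (fun t => (h1 t).differentiableAt) (fun t => (h1 t).deriv) x y
  simp only [intervalIntegral.integral_same, neg_zero, Complex.exp_zero, mul_one] at h2
  rw [← h2, mul_assoc, ← Complex.exp_add, neg_add_cancel, Complex.exp_zero, mul_one]

/-- the constant `a1` -/
noncomputable def a1 (la : ℝ) : ℂ := I * (-(la : ℂ) + I * ((Real.pi / 2 : ℝ) : ℂ))

theorem ph_lim {la σ : ℝ} (hσ : 0 < σ) :
    Tendsto (fun t : ℝ => ph la σ t - (I * ((Real.log t : ℝ) : ℂ) + a1 la)) atTop (𝓝 0) := by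
  have h := (dig_lim hσ).const_mul I
  rw [mul_zero] at h
  refine h.congr fun t => ?_
  unfold ph a1
  ring

theorem ph_loc {la σ : ℝ} (hσ : 0 < σ) (ρ ε : ℝ) (hε : 0 < ε) :
    ∀ᶠ τ : ℝ in atTop, ∀ t : ℝ, |t - τ| ≤ |ρ| →
      ‖ph la σ t - (I * ((Real.log τ : ℝ) : ℂ) + a1 la)‖ ≤ ε := by
  have h1 : ∀ᶠ t : ℝ in atTop, ‖ph la σ t - (I * ((Real.log t : ℝ) : ℂ) + a1 la)‖ ≤ ε / 2 := by
    have h2 := (ph_lim (la := la) hσ).norm
    rw [norm_zero] at h2
    exact h2.eventually_le_const (by positivity)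
  obtain ⟨T, hT⟩ := eventually_atTop.1 h1
  filter_upwards [eventually_ge_atTop (T + |ρ|), eventually_ge_atTop (|ρ| + 1),
    eventually_ge_atTop (|ρ| + 2 * |ρ| / ε)] with τ h2 h3 h4 t ht
  have ha := abs_nonneg ρ
  rw [abs_le] at ht
  have t0 : 0 < t := by linarith
  have τ0 : 0 < τ := by linarith
  have e1 := hT t (by linarith)
  have e2 : |Real.log t - Real.log τ| ≤ ε / 2 := by
    have k1 : 2 * |ρ| / ε ≤ τ - |ρ| := by linarith
    rw [div_le_iff₀ hε] at k1
    have k2 : |ρ| ≤ ε / 2 * (τ - |ρ|) := by linarith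
    rw [abs_le]
    constructor
    · have k3 := Real.log_le_sub_one_of_pos (div_pos τ0 t0)
      rw [Real.log_div τ0.ne' t0.ne'] at k3
      have k4 : τ / t - 1 ≤ ε / 2 := by
        rw [div_sub_one t0.ne', div_le_iff₀ t0]
        have : ε / 2 * (τ - |ρ|) ≤ ε / 2 * t := mul_le_mul_of_nonneg_left (by linarith) (by positivity)
        linarith
      linarith
    · have k3 := Real.log_le_sub_one_of_pos (div_pos t0 τ0)
      rw [Real.log_div t0.ne' τ0.ne'] at k3
      have k4 : t / τ - 1 ≤ ε / 2 := by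
        rw [div_sub_one τ0.ne', div_le_iff₀ τ0]
        have : ε / 2 * (τ - |ρ|) ≤ ε / 2 * τ := mul_le_mul_of_nonneg_left (by linarith) (by positivity)
        linarith
      linarith
  have e3 : ph la σ t - (I * ((Real.log τ : ℝ) : ℂ) + a1 la) =
      (ph la σ t - (I * ((Real.log t : ℝ) : ℂ) + a1 la)) + I * ((Real.log t - Real.log τ : ℝ) : ℂ) := by
    push_cast
    ring
  rw [e3]
  refine (norm_add_le _ _).trans ?_
  rw [norm_mul, norm_I, one_mul, Complex.norm_real, Real.norm_eq_abs]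
  linarith

theorem GA_hL {κ : ℂ} {la σ : ℝ} (hκ : κ ≠ 0) (hσ : 0 < σ) (ρ : ℝ) :
    Tendsto (fun τ : ℝ => GA κ la σ (τ + ρ) /
      (GA κ la σ τ * cexp (ρ * (I * ((1 * Real.log τ : ℝ) : ℂ) + a1 la)))) atTop (𝓝 1) := by
  have hc := ph_cont (la := la) hσ
  have hJ : Tendsto (fun τ : ℝ => ∫ t in τ..(τ + ρ), (ph la σ t - (I * ((Real.log τ : ℝ) : ℂ) + a1 la)))
      atTop (𝓝 0) := by
    rw [NormedAddGroup.tendsto_nhds_zero]
    intro ε hε
    filter_upwards [ph_loc (la := la) hσ ρ (ε / (2 * (|ρ| + 1))) (by positivity)] with τ h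
    have h1 : ‖∫ t in τ..(τ + ρ), (ph la σ t - (I * ((Real.log τ : ℝ) : ℂ) + a1 la))‖ ≤
        ε / (2 * (|ρ| + 1)) * |τ + ρ - τ| := by
      apply intervalIntegral.norm_integral_le_of_norm_le_const
      intro t ht
      apply h
      rw [Set.mem_uIoc] at ht
      have a1 := le_abs_self ρ
      have a2 := neg_abs_le ρ
      rw [abs_le]
      rcases ht with ht | ht <;> constructor <;> linarith [ht.1, ht.2]
    refine h1.trans_lt ?_
    rw [add_sub_cancel_left, div_mul_eq_mul_div, div_lt_iff₀ (by positivity)]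
    have := abs_nonneg ρ
    nlinarith
  have hE := hJ.cexp
  rw [Complex.exp_zero] at hE
  refine hE.congr fun τ => ?_
  rw [GA_exp hσ (τ + ρ) τ, intervalIntegral.integral_sub (hc.intervalIntegrable _ _)
    (intervalIntegrable_const), intervalIntegral.integral_const, add_sub_cancel_left,
    Complex.exp_sub, mul_div_mul_left _ _ (GA_ne hκ hσ τ), one_mul, Complex.real_smul]

theorem GA_hR {κ : ℂ} {la σ : ℝ} (hσ : 0 < σ) : ∃ x0 : ℝ, 1 ≤ x0 ∧ ∀ x y : ℝ, x0 ≤ x → x0 ≤ y →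
    ‖GA κ la σ x‖ ≤ ‖GA κ la σ y‖ * Real.exp (3 * (1 + |x - y|)) := by
  have hc := ph_cont (la := la) hσ
  have h1 : ∀ᶠ t : ℝ in atTop, ‖ph la σ t - (I * ((Real.log t : ℝ) : ℂ) + a1 la)‖ ≤ 1 := by
    have h2 := (ph_lim (la := la) hσ).norm
    rw [norm_zero] at h2
    exact h2.eventually_le_const one_pos
  obtain ⟨T, hT⟩ := eventually_atTop.1 h1
  refine ⟨max 1 T, le_max_left _ _, ?_⟩
  intro x y hx hy
  have hre : ∀ t : ℝ, max 1 T ≤ t → |(ph la σ t).re| ≤ 3 := by
    intro t ht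
    have e1 := (abs_re_le_norm _).trans (hT t ((le_max_right _ _).trans ht))
    have e2 : (ph la σ t - (I * ((Real.log t : ℝ) : ℂ) + a1 la)).re = (ph la σ t).re + Real.pi / 2 := by
      unfold a1
      simp
    rw [e2] at e1
    have := Real.pi_le_four
    have := Real.pi_pos
    rw [abs_le] at e1 ⊢
    constructor <;> linarith
  rw [GA_exp hσ x y, norm_mul, Complex.norm_exp]
  apply mul_le_mul_of_nonneg_left _ (norm_nonneg _)
  apply Real.exp_le_exp.2
  have h3 : (∫ s in y..x, ph la σ s).re = ∫ s in y..x, (ph la σ s).re := by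
    have := Complex.reCLM.intervalIntegral_comp_comm (hc.intervalIntegrable (μ := volume) y x)
    exact this.symm
  rw [h3]
  have h4 : ‖∫ s in y..x, (ph la σ s).re‖ ≤ 3 * |x - y| := by
    apply intervalIntegral.norm_integral_le_of_norm_le_const
    intro t ht
    rw [Real.norm_eq_abs]
    apply hre
    rw [Set.mem_uIoc] at ht
    rcases ht with ht | ht <;> linarith [ht.1, ht.2]
  rw [Real.norm_eq_abs] at h4
  have h5 := le_abs_self (∫ s in y..x, (ph la σ s).re)
  linarith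

/-! ### The Dirichlet series -/

section
variable {N k : ℕ} {F : ℂ → ℂ} {b : ℕ → ℂ} {κ : ℂ}

theorem ex_two (h : MF N k F b κ) : ∃ n : ℕ, 2 ≤ n ∧ b n ≠ 0 := by
  by_contra hcon
  push Not at hcon
  have hpi := Real.pi_pos
  have hF : ∀ τ : ℂ, 0 < τ.im → F τ = b 1 * cexp (2 * Real.pi * I * τ) := by
    intro τ hτ
    have h1 := h.sum τ hτ
    have h2 : HasSum (fun n : ℕ => b (n + 1) * cexp (2 * Real.pi * I * ((n + 1 : ℕ) : ℂ) * τ))
        (b 1 * cexp (2 * Real.pi * I * τ)) := by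
      have h3 := hasSum_single (f := fun n : ℕ => b (n + 1) *
        cexp (2 * Real.pi * I * ((n + 1 : ℕ) : ℂ) * τ)) 0 (fun n hn => by
          rw [hcon (n + 1) (by omega), zero_mul])
      simpa using h3
    exact h1.unique h2
  have hN1 : (1 : ℝ) ≤ N := by exact_mod_cast h.hN
  -- the identity of the absolute values
  have key : ∀ y : ℝ, 1 ≤ y → Real.exp (-(2 * Real.pi)) ≤
      (1 + N) ^ k * (y ^ k * Real.exp (-y)) := by
    intro y hy
    have hy0 : 0 < y := by linarith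
    have hτ : 0 < (I * (y : ℂ)).im := by simpa using hy0
    have h1 := h.aut 1 0 N 1 (by ring) (dvd_refl _) (by norm_num) (by norm_num) (I * y) hτ
    have e1 : (((1 : ℤ) : ℂ) * (I * y) + ((0 : ℤ) : ℂ)) / (((N : ℤ) : ℂ) * (I * y) + ((1 : ℤ) : ℂ)) =
        (((N * y ^ 2 / (1 + N ^ 2 * y ^ 2) : ℝ)) : ℂ) + I * ((y / (1 + N ^ 2 * y ^ 2) : ℝ) : ℂ) := by
      have d1 : (((N : ℤ) : ℂ) * (I * y) + ((1 : ℤ) : ℂ)) ≠ 0 := by
        intro h2
        have := congrArg Complex.re h2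
        simp at this
      have d2 : (1 + (N : ℂ) ^ 2 * (y : ℂ) ^ 2) ≠ 0 := by
        have : (0 : ℝ) < 1 + (N : ℝ) ^ 2 * y ^ 2 := by positivity
        exact_mod_cast this.ne'
      rw [div_eq_iff d1]
      have hr := inv_mul_cancel₀ d2
      push_cast
      simp only [div_eq_mul_inv]
      generalize (1 + (N : ℂ) ^ 2 * (y : ℂ) ^ 2)⁻¹ = r at hr ⊢
      linear_combination (-((N : ℂ) * y ^ 2 * r)) * Complex.I_sq - I * y * hr
    have e2 : ((((N * y ^ 2 / (1 + N ^ 2 * y ^ 2) : ℝ)) : ℂ) +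
        I * ((y / (1 + N ^ 2 * y ^ 2) : ℝ) : ℂ)).im = y / (1 + N ^ 2 * y ^ 2) := by
      simp [-ofReal_div]
    rw [e1, hF _ (by rw [e2]; positivity), hF _ hτ] at h1
    have h2 := congrArg norm h1
    have e3 : ∀ z : ℂ, ‖cexp (2 * Real.pi * I * z)‖ = Real.exp (-(2 * Real.pi * z.im)) := by
      intro z
      rw [Complex.norm_exp]
      congr 1
      have : 2 * (Real.pi : ℂ) * I * z = ((2 * Real.pi : ℝ) : ℂ) * (I * z) := by
        push_cast
        ring
      rw [this, Complex.re_ofReal_mul]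
      simp
    rw [norm_mul, norm_mul, norm_mul, norm_pow, e3, e3, e2] at h2
    have e4 : (I * (y : ℂ)).im = y := by simp
    rw [e4] at h2
    have hb : 0 < ‖b 1‖ := norm_pos_iff.2 h.b1
    have h3 : Real.exp (-(2 * Real.pi * (y / (1 + N ^ 2 * y ^ 2)))) =
        ‖((N : ℤ) : ℂ) * (I * y) + ((1 : ℤ) : ℂ)‖ ^ k * Real.exp (-(2 * Real.pi * y)) := by
      apply mul_left_cancel₀ hb.ne'
      rw [h2]
      ring
    have h4 : ‖((N : ℤ) : ℂ) * (I * y) + ((1 : ℤ) : ℂ)‖ ≤ (1 + N) * y := by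
      refine (norm_add_le _ _).trans ?_
      rw [norm_mul, norm_mul, norm_I, Complex.norm_real, Real.norm_eq_abs, abs_of_pos hy0]
      simp
      linarith
    calc Real.exp (-(2 * Real.pi)) ≤ Real.exp (-(2 * Real.pi * (y / (1 + N ^ 2 * y ^ 2)))) := by
          apply Real.exp_le_exp.2
          have h5 : y / (1 + N ^ 2 * y ^ 2) ≤ 1 := by
            rw [div_le_one (by positivity)]
            have h6 : (1 : ℝ) ≤ (N : ℝ) ^ 2 := one_le_pow₀ hN1
            have h7 : y ≤ y ^ 2 := by nlinarith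
            have h8 : y ^ 2 ≤ (N : ℝ) ^ 2 * y ^ 2 := by nlinarith [sq_nonneg y]
            linarith
          nlinarith
      _ = ‖((N : ℤ) : ℂ) * (I * y) + ((1 : ℤ) : ℂ)‖ ^ k * Real.exp (-(2 * Real.pi * y)) := h3
      _ ≤ ((1 + N) * y) ^ k * Real.exp (-y) := by
          apply mul_le_mul (pow_le_pow_left₀ (norm_nonneg _) h4 k) _ (Real.exp_pos _).le
            (by positivity)
          apply Real.exp_le_exp.2
          have := Real.pi_gt_three
          nlinarith
      _ = _ := by rw [mul_pow, mul_assoc]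
  have hlim := (Real.tendsto_pow_mul_exp_neg_atTop_nhds_zero k).const_mul ((1 + (N : ℝ)) ^ k)
  rw [mul_zero] at hlim
  have hev := hlim.eventually_lt_const (Real.exp_pos (-(2 * Real.pi)))
  obtain ⟨y, hy1, hy2⟩ := (hev.and (eventually_ge_atTop (1 : ℝ))).exists
  exact absurd (key y hy2) (not_le.2 hy1)

theorem L_line (h : MF N k F b κ) {σ : ℝ} (hσ : (k : ℝ) + 1 < σ) (x : ℝ) :
    LSeries b ((σ : ℂ) + I * x) = ∑' n : ℕ, LSeries.term b (σ : ℂ) (n + 1) *
      cexp (-(I * ((1 : ℝ) : ℂ) * x * ((Real.log (n + 1) : ℝ) : ℂ))) := by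
  have hs : LSeriesSummable b ((σ : ℂ) + I * x) := Pool.Agent.N348.GN.summ h (by
    rw [line_re]
    exact hσ)
  unfold LSeries
  rw [Summable.tsum_eq_zero_add hs, LSeries.term_zero, zero_add]
  refine tsum_congr fun n => ?_
  rw [LSeries.term_of_ne_zero (Nat.succ_ne_zero n), LSeries.term_of_ne_zero (Nat.succ_ne_zero n)]
  have hn : ((n + 1 : ℕ) : ℂ) ≠ 0 := by exact_mod_cast Nat.succ_ne_zero n
  rw [cpow_add _ _ hn, cpow_def_of_ne_zero hn (I * x), ← Complex.natCast_log, Complex.exp_neg]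
  push_cast
  rw [show I * 1 * (x : ℂ) * ((Real.log ((n : ℝ) + 1) : ℝ) : ℂ) =
    ((Real.log ((n : ℝ) + 1) : ℝ) : ℂ) * (I * x) by ring]
  field_simp

end

/-- **PF-GMM** -/
theorem t_GMM : S_GMM := by
  intro N k F b κ h
  have hN : 0 < Real.sqrt N := Real.sqrt_pos.2 (by exact_mod_cast h.hN)
  have hA : 0 < 2 * Real.pi / Real.sqrt N := by
    have := Real.pi_pos
    positivity
  obtain ⟨A0, hA0⟩ : ∃ A0 : ℝ, A0 = 2 * Real.pi / Real.sqrt N := ⟨_, rfl⟩
  rw [← hA0] at hA
  obtain ⟨la, hla⟩ : ∃ la : ℝ, la = Real.log A0 := ⟨_, rfl⟩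
  have hk : (0 : ℝ) ≤ k := Nat.cast_nonneg k
  obtain ⟨σ, hσ⟩ : ∃ σ : ℝ, σ = (k : ℝ) + 2 := ⟨_, rfl⟩
  have hσ0 : 0 < σ := by linarith
  have hσ1 : (k : ℝ) + 1 < σ := by linarith
  obtain ⟨x0, hx0, hR⟩ := GA_hR (κ := κ) (la := la) hσ0
  refine ⟨(k : ℝ) / 2 + 2, 1, 1, a1 la, fun n => LSeries.term b (σ : ℂ) (n + 1), GA κ la σ, x0, 3,
    one_pos, one_pos, hx0, by norm_num, ?_, ?_, ?_, ?_, fun x _ => GA_ne h.κ0 hσ0 x, hR,
    fun ρ => GA_hL h.κ0 hσ0 ρ⟩
  · have hs : LSeriesSummable b (σ : ℂ) := Pool.Agent.N348.GN.summ h (by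
      rw [Complex.ofReal_re]
      exact hσ1)
    exact (summable_nat_add_iff 1).2 hs.norm
  · simp only [zero_add]
    rw [LSeries.term_of_ne_zero one_ne_zero]
    simp only [Nat.cast_one, Complex.one_cpow, div_one]
    exact h.b1
  · obtain ⟨n, hn, hbn⟩ := ex_two h
    obtain ⟨m, rfl⟩ : ∃ m, n = m + 1 := ⟨n - 1, by omega⟩
    refine ⟨m, by omega, ?_⟩
    rw [LSeries.term_of_ne_zero (Nat.succ_ne_zero m)]
    refine div_ne_zero hbn ?_
    rw [cpow_def_of_ne_zero (by exact_mod_cast Nat.succ_ne_zero m)]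
    exact Complex.exp_ne_zero _
  · intro x _
    have e1 : (k : ℂ) / 2 + I * ((x : ℂ) - I * (((k : ℝ) / 2 + 2 : ℝ) : ℂ)) = (σ : ℂ) + I * x := by
      rw [hσ]
      push_cast
      ring_nf
      rw [Complex.I_sq]
      ring
    have h1 := Pool.Agent.N348.GN.Lt_formula h (w := (x : ℂ) - I * (((k : ℝ) / 2 + 2 : ℝ) : ℂ)) (by
      rw [e1, line_re]
      exact hσ1)
    rw [e1, ← hA0] at h1
    rw [h1, L_line h hσ1 x]
    unfold GA
    have hAc : (A0 : ℂ) ≠ 0 := by exact_mod_cast hA.ne'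
    rw [cpow_def_of_ne_zero hAc, ← Complex.ofReal_log hA.le, ← hla, mul_neg]
    ring

end Pool.Agent.H878.PF
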