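import Pool.Agent.H454.PF.Stm3
import Pool.Agent.H454.PF.Fin2

set_option autoImplicit false

/-!
# Project PF: the theorem for a general kernel
-/

namespace Pool.Agent.H454.PF

open Complex Filter Topology MeasureTheory Polynomial
open scoped ComplexConjugate
open Pool.Agent.N963.GN

/-- all that is needed of a kernel -/
structure Full (K : ℂ → ℂ) (α : ℝ) : Prop where
  kern : Kern K α
  ms : MS K α
  ld : LD (Lt (fun u : ℝ => K (u : ℂ)))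
  wg : Wg (fun u : ℝ => K (u : ℂ))
  ga : ∀ s : ℝ, 0 < s → (NRZ (Lt (gw (fun u : ℝ => K (u : ℂ)) s))).Infinite

theorem gpre_triv {φ G X : ℂ → ℂ} (hφ : LPc φ) {c β : ℝ} (hcb : ∀ s : ℂ, φ s = c * cexp (β * s)) (hG : Pre φ X G) :
    c ≠ 0 ∧ ∀ z, G z = X (z - β) / c := by
  have hc : c ≠ 0 := by
    rintro rfl
    obtain ⟨z, hz⟩ := hφ.1
    apply hz
    rw [hcb z]
    simp
  refine ⟨hc, fun z => ?_⟩
  have hc' : (c : ℂ) ≠ 0 := by exact_mod_cast hc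
  have h1 := hG.2.2.2 (z - β)
  rw [funext hcb] at h1
  have h2 := h1.unique (hasSum_exp hG.1 c β (z - β))
  rw [sub_add_cancel] at h2
  rw [h2, mul_div_cancel_left₀ _ hc']

lemma gpre_one {X G : ℂ → ℂ} (hG : Pre (fun _ => 1) X G) : G = X := by
  have h1 : ∀ s : ℂ, (fun _ : ℂ => (1 : ℂ)) s = ((1 : ℝ) : ℂ) * cexp (((0 : ℝ) : ℂ) * s) := by
    intro s
    simp
  obtain ⟨-, h2⟩ := gpre_triv lpc_exp_one h1 hG
  funext z
  rw [h2 z]
  simp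

lemma full_sym {K : ℂ → ℂ} {α : ℝ} (h : Full K α) : Sym (Lt (fun u : ℝ => K (u : ℂ))) :=
  sym_Lt (fun u => h.kern.herm u)

lemma full_real {K : ℂ → ℂ} {α : ℝ} (h : Full K α) (x : ℝ) : (Lt (fun u : ℝ => K (u : ℂ)) x).im = 0 := by
  have h5 := full_sym h (x : ℂ)
  rw [Complex.conj_ofReal] at h5
  exact Complex.conj_eq_iff_im.1 h5.symm

/-- nontrivial operators -/
theorem full_inf {K : ℂ → ℂ} {α : ℝ} (h : Full K α) {φ G : ℂ → ℂ} (hφ : LPc φ) (hnt : ¬ Triv φ)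
    (hG : Pre φ (Lt (fun u : ℝ => K (u : ℂ))) G) : (NRZ G).Infinite := by
  obtain ⟨hd, hs, hgr, hop⟩ := hG
  by_cases h0 : ∃ a0, φ a0 = 0
  · obtain ⟨a0, ha0⟩ := h0
    exact main_zero Pool.Agent.H870.PF.t_HK Pool.Agent.H230.PF.HR.t_HR Pool.Agent.H389.PF_DV.t_DV
      Pool.Agent.H142.PFGR.t_GR Pool.Agent.H81.PFNS.t_NS h.kern h.ms h.ld hφ ha0 hd hs hgr hop
  · push Not at h0
    exact main_gauss h.kern h.wg.mom h.ga hφ h0 hnt hd hgr hop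

/-- the theorem for a general kernel -/
theorem full_main {K : ℂ → ℂ} {α : ℝ} (h : Full K α) (ex : S_EX) :
    (∀ φ : ℂ → ℂ, LPc φ → ∃ G : ℂ → ℂ, Pre φ (Lt (fun u : ℝ => K (u : ℂ))) G) ∧
    (∀ φ G : ℂ → ℂ, LPc φ → Pre φ (Lt (fun u : ℝ => K (u : ℂ))) G → (NRZ G).Finite →
      ∃ c β : ℝ, c ≠ 0 ∧ (∀ s : ℂ, φ s = c * cexp (β * s)) ∧
        ∀ z, G z = Lt (fun u : ℝ => K (u : ℂ)) (z - β) / c) ∧
    ((∀ z, Lt (fun u : ℝ => K (u : ℂ)) z = 0 → z.im = 0) ↔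
      ∃ φ G : ℂ → ℂ, LPc φ ∧ Pre φ (Lt (fun u : ℝ => K (u : ℂ))) G ∧ ∀ z, G z = 0 → z.im = 0) := by
  have h2 : ∀ φ G : ℂ → ℂ, LPc φ → Pre φ (Lt (fun u : ℝ => K (u : ℂ))) G → (NRZ G).Finite →
      ∃ c β : ℝ, c ≠ 0 ∧ (∀ s : ℂ, φ s = c * cexp (β * s)) ∧
        ∀ z, G z = Lt (fun u : ℝ => K (u : ℂ)) (z - β) / c := by
    intro φ G hφ hG hfin
    by_cases ht : Triv φ
    · obtain ⟨c, β, hcb⟩ := ht
      obtain ⟨hc, h⟩ := gpre_triv hφ hcb hG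
      exact ⟨c, β, hc, hcb, h⟩
    · exact absurd hfin (full_inf h hφ ht hG)
  refine ⟨fun φ hφ => ex φ hφ _ h.wg, h2, ?_⟩
  constructor
  · intro hz
    obtain ⟨G, hG⟩ := ex (fun _ => 1) lpc_exp_one _ h.wg
    have hG1 := gpre_one hG
    rw [hG1] at hG
    exact ⟨fun _ => 1, _, lpc_exp_one, hG, hz⟩
  · rintro ⟨φ, G, hφ, hG, hz⟩
    have hfin : (NRZ G).Finite := by
      have : NRZ G = ∅ := by
        ext z
        simp only [NRZ, Set.mem_ofPred_eq, Set.mem_empty_iff_false, iff_false]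
        rintro ⟨h1, h3⟩
        exact h3 (hz z h1)
      rw [this]
      exact Set.finite_empty
    obtain ⟨c, β, hc, -, h⟩ := h2 φ G hφ hG hfin
    intro z hz0
    have h1 : G (z + β) = 0 := by
      rw [h, add_sub_cancel_right, hz0, zero_div]
    have h3 := hz _ h1
    rw [Complex.add_im, Complex.ofReal_im, add_zero] at h3
    exact h3

end Pool.Agent.H454.PF
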