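import Pool.Graph.R_pool_sql_team_seeded_63374d34.N963.GN.Stm5
import Pool.Graph.R_pool_sql_team_seeded_63374d34.N963.GN.StmZ

set_option autoImplicit false

/-!
# Project PF (helper454): preimages of the xi function under operators of the Laguerre-Polya class

The definitions (`Sym`, `Gro`, `NRZ`, `RR`, `Gr2`, `App`, `SL`, `LD`, `Kern`, `MS`, `Lt`, `Ka`) are those of the library modules
`Pool.Graph.R_pool_sql_team_seeded_63374d34.N963.GN.Stm`, `Stm2`, `Stm3`. A task proves one of the propositions `S_...` below; the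
propositions named in its hypotheses may be used.
-/

namespace Pool.Agent.H454.PF

open Complex Filter Topology MeasureTheory Polynomial
open scoped ComplexConjugate
open Pool.Agent.N963.GN

/-- growth with exponent `σ` -/
def GrE (σ : ℝ) (f : ℂ → ℂ) : Prop := ∃ C : ℝ, 0 ≤ C ∧ ∀ z : ℂ, ‖f z‖ ≤ Real.exp (C * (1 + ‖z‖) ^ σ)

/-- PF-HK. Approximation of an entire function of order less than two by its zeros.
Tools: the library module `Pool.Graph.R_pool_sql_team_seeded_3dad9d7b.NH98.RT.Had` (namespace `Pool.Agent.NH98.RT.Had`: `exists_log`,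
`exists_div_prod`, `finite_zeros`, `factor_ge`), Mathlib's `Complex.borelCaratheodory_zero`.
Proof. Let `T` be large, `S` the set of the zeros of `f` in `‖a‖ ≤ T` (`finite_zeros`), `f = (∏ (1 - z/a)^{m_a}) g`
(`exists_div_prod`), `g 0 = f 0`, `g` without zeros in the ball of radius `T`. On `‖z‖ = 4 T` the factors are at least one
(`factor_ge`), so `‖g z‖ ≤ exp (C (1 + 4T)^ρ)` for `‖z‖ ≤ 4T` (maximum principle, see `t_had` in that file). `g = f 0 · exp h` on the
ball of radius `T` (`exists_log`), and by Borel-Carathéodory `‖h z‖ ≤ 2 M'` for `‖z‖ ≤ T/2`, `M' = C (1+4T)^ρ + |log ‖f 0‖| + 1`.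
By Cauchy's estimates `‖h'' z‖ ≤ 64 M'/T²`-like for `‖z‖ ≤ T/4`, so `‖h z - h'(0) z‖ ≤ 64 M' R²/T² → 0` for `‖z‖ ≤ R` as `T → ∞` because
`ρ < 2`. Finally `h'(0) = g'(0)/g(0) = f'(0)/f(0) + ∑ m_a/a` (logarithmic derivative of the product at `0`), and
`‖f z - f 0 exp (h'(0) z) ∏‖ = ‖f z‖ ‖1 - exp (h'(0) z - h z)‖`, where `‖f z‖` is bounded for `‖z‖ ≤ R`. -/
def S_HK : Prop := ∀ (f : ℂ → ℂ) (C ρ : ℝ), Differentiable ℂ f → f 0 ≠ 0 → 0 ≤ C → 0 ≤ ρ → ρ < 2 →
  (∀ z : ℂ, ‖f z‖ ≤ Real.exp (C * (1 + ‖z‖) ^ ρ)) → ∀ R ε : ℝ, 0 < R → 0 < ε →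
  ∃ S : Finset ℂ, (∀ a ∈ S, a ≠ 0 ∧ f a = 0) ∧ ∀ z : ℂ, ‖z‖ ≤ R →
    ‖f z - f 0 * cexp ((deriv f 0 / f 0 + ∑ a ∈ S, (analyticOrderNatAt f a : ℂ) / a) * z) *
      ∏ a ∈ S, (1 - z / a) ^ (analyticOrderNatAt f a)‖ ≤ ε

/-- PF-HR. An entire function of order less than two with real zeros only is a limit of polynomials with real zeros only.
Proof. Choose a real `β` with `f β ≠ 0` (the zeros are isolated) and put `F z = f (z + β)`; again `Sym`, order `< 2` (the constant
changes), real zeros, `F 0 ≠ 0`. In `S_HK` for `F`, `R = N + 1`, `ε = 1/(N+1)`: the `a ∈ S` are real, `F 0` and `F'(0)` are real by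
symmetry, so `b = F'(0)/F(0) + ∑ m_a/a` is real; `exp (b z)` is the uniform limit on the disc of `(1 + b z/n)^n`, whose only zero (if
`b ≠ 0`) is real, and the other factors are bounded on the disc; so there is a polynomial `Q` with real zeros only and
`‖F z - Q z‖ ≤ 2/(N+1)` for `‖z‖ ≤ N+1`. Take `Q N` composed with `z - β`. (`RR` is defined in `N963/GN/Stm.lean`.) -/
def S_HR : Prop := S_HK → ∀ f : ℂ → ℂ, Differentiable ℂ f → Sym f → Gr2 f → (∃ z, f z ≠ 0) →
  (∀ z, f z = 0 → z.im = 0) → RR f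

/-- PF-DV. Division by a real polynomial. Proof. For one point `a`: `exists_div` in the library module
`Pool.Graph.R_pool_sql_team_seeded_3dad9d7b.NH98.RT.Had` gives `f z = (z - a)^m g₁ z` with `g₁ a ≠ 0`. Do this for all `a ∈ Z` (induction on
`Z`, or in one step as in `exists_div_prod` there): `f = p g`, `p = ∏_{a ∈ Z} (X - a)^{m_a}`, `m_a = analyticOrderNatAt f a`,
`g a ≠ 0` for `a ∈ Z`. By symmetry `m_(conj a) = m_a`, so `p` is fixed by conjugation of the coefficients and is the image of a real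
polynomial `P ≠ 0`; `g` is symmetric because `f` and `p` are (`g = f/p` off the zeros of `p`, and continuity). Growth: for
`‖z‖ ≥ R0 = 1 + max ‖a‖` we have `‖p z‖ ≥ 1`, so `‖g z‖ ≤ ‖f z‖`; for `‖z‖ ≤ R0`, `‖g z‖ ≤ M` by compactness (or the maximum principle), and
`M ≤ exp (max (log M) 0 · (1+‖z‖)^σ)`. -/
def S_DV : Prop := ∀ (f : ℂ → ℂ) (σ : ℝ), 0 ≤ σ → Differentiable ℂ f → Sym f → (∃ z, f z ≠ 0) → GrE σ f →
  ∀ Z : Finset ℂ, (∀ a ∈ Z, conj a ∈ Z) →
  ∃ (P : ℝ[X]) (g : ℂ → ℂ), P ≠ 0 ∧ Differentiable ℂ g ∧ Sym g ∧ GrE σ g ∧ (∀ w, f w = aeval w P * g w) ∧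
    ∀ a ∈ Z, g a ≠ 0

/-- PF-GR. Growth of the solutions of a linear differential equation of the first order:
`G z = exp (a z) (G 0 + ∫_0^1 z exp (- a t z) X (t z) dt)`. -/
def S_GR : Prop := ∀ (G X : ℂ → ℂ) (a : ℝ), Differentiable ℂ G → (∀ z, deriv G z - a * G z = X z) → Gro X → Gro G

/-- PF-NS. No strong Laguerre inequality for the solutions of `G' - a G = Lt K`.
Proof. `a = 0`: library theorems `Pool.Agent.N558.GN.z0 : S_Z0` (`K 0 ≠ 0`) and `Z1 : S_Z1` of `N712/GN/Z1.lean` (`K 0 = 0`); modules in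
`Pool/Graph/R_pool_sql_team_seeded_63374d34/`. `a > 0`: `G0 = Lt (Ka K a)` satisfies `G0 - G0'/a = Lt K` (`X_eq` in `N963/GN/Main.lean`), so
`-(1/a) G0` is a particular solution and `G = -(1/a) G0 + c exp (a z)`. If `c = 0`, `SL G` gives `SL G0` (both sides are quadratic),
against `Pool.Agent.N868.GN.t_T6`. If `c ≠ 0` (for `x → +∞`): with `g = -(1/a) G0`, `G'² - G G'' = (g'² - g g'') + c e^(a x) (2 a g' - g'' -
a² g)`, and `g, g', g''` are bounded on the real line (`‖Lt h x‖ ≤ ∫ ‖h‖` for real `x`; `deriv_Lt` in `N963/GN/W.lean`), so the right-hand side of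
the inequality in `SL G` (`A = 1`) is `O(e^(a x))` while `‖G x‖² ≥ (|c|²/2) e^(2 a x)` for large `x`. `a < 0`: `H z = -G (-z)` solves
`H' - (-a) H = Lt (fun u => K (-u))`, and the kernel `K(-w)` has the same properties (`Pool.Agent.N170.GN.r : S_R`); `SL G` gives `SL H`.
(`Kern` holds constants for `K`; the weights are `Kern.wt`, `wt_real` in `N963/GN/Main.lean`, `D1.lean`.) -/
def S_NS : Prop := ∀ (K : ℂ → ℂ) (α : ℝ), Kern K α → MS K α → ∀ (a : ℝ) (G : ℂ → ℂ), Differentiable ℂ G →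
  (∀ z : ℂ, deriv G z - a * G z = Lt (fun u : ℝ => K (u : ℂ)) z) → ¬ SL G

/-- Riemann's function `Ξ(z) = ξ(1/2 + i z)`, `ξ(s) = s (s - 1) Λ(s) / 2`, in a form without removable singularities
(`Λ(s) = Λ₀(s) - 1/s - 1/(1-s)`, Mathlib's `completedRiemannZeta_eq`). -/
noncomputable def Xi (z : ℂ) : ℂ :=
  ((1 / 2 + I * z) * (1 / 2 + I * z - 1) * completedRiemannZeta₀ (1 / 2 + I * z) + 1) / 2

/-- PF-ID. `∫ Φ(u) exp (i z u) du = ξ((1 + i z)/2)/4`. From `F_one` (library module `Pool.Graph.R_seed8.Helper242.RK.RHeq`): there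
`F 1 z` is half of the integral (even kernel, see the definition of `F` and the lemmas next to it, modules `RK/Int1.lean`, `RK/Int2.lean`), and
`completedRiemannZeta₀ (1 - s) = completedRiemannZeta₀ s`. -/
def S_ID : Prop := ∀ z : ℂ, Lt (fun u : ℝ => ((Pool.Agent.Helper242.RK.Phi u : ℝ) : ℂ)) z = Xi (z / 2) / 4

/-- PF-F. The logarithmic derivative of the transform, from `S_ID` (`c0 = 1/4`, `h0 = 4`, `r0 = 1`).
Proof. For `‖z - (x + 4 i)‖ ≤ 1` put `s = (1 - i z)/2`, `Re s ∈ [2, 3]`, `Im s = - Re z/2`; by `S_ID` (and `Λ₀(1-s) = Λ₀(s)`)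
the function is `(1/8) s (s-1) π^(-s/2) Γ(s/2) ζ(s)`, it is not zero, and its logarithmic derivative is
`-(i/2) (1/s + 1/(s-1) - (log π)/2 + (1/2) (Γ'/Γ)(s/2) + (ζ'/ζ)(s))`; `|ζ'/ζ(s)| ≤ C` for `Re s ≥ 2` and `Γ'/Γ(w) = log w + O(1)`
(`digamma_bound` in `Pool/Graph/R_seed8/H370R2/Digamma.lean`), `log (s/2) = log |x| + O(1)`. Complete models of the proof:
`Pool/Graph/R_pool_sql_team_seeded_63374d34/N348/GN/M3.lean` (cusp forms) and `.../N712/GN/D34.lean` (Dirichlet L-functions). -/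
def S_FX : Prop := S_ID → S_F

/-- PF-G: `S_G` of `N963/GN/StmZ.lean`: for every `lam > 0` the function `∫ Φ(u) exp (-lam u²) exp (i z u) du` has infinitely many non-real
zeros. From the library theorem `Pool.Agent.Results.MP_023270_nt.EveryNegativeLambda.result` (module
`Pool.Graph.R_pool_sql_team_seeded_b3bd081e.Results.MP_023270_nt.EveryNegativeLambda`): with its kernel `Φ'(t) = 2 Φ(t/2)`
(`H902R3.XI.Phi`), `∫ Φ(u) exp (-lam u²) exp (i z u) du = (1/4) H902R3.XI.Xi (-lam/4) (z/2)` (substitution `u = t/2`). If there were only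
finitely many non-real zeros, `cnt` of the non-real zeros would be bounded by a finite number (the orders are finite: the function is
not identically zero, e.g. because the real zeros in `‖z‖ ≤ T` have finite `cnt` by the first bound, and the functions are entire),
against the lower bound `c T log T`. -/
def S_GX : Prop := S_G

/-- PF-SC. Scaling: with `φ₂ s = φ (2 s)` and `G₂ z = G (z/2)/4`, `φ₂(D) G₂ (z) = (φ(D) G)(z/2)/4`, termwise
(`iteratedDeriv_comp_const_mul` or similar; `G` entire, `φ` entire), and the class `LPc` is invariant. -/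
def S_SC : Prop := ∀ φ G : ℂ → ℂ, Differentiable ℂ φ → Differentiable ℂ G →
  (LPc φ → LPc (fun s => φ (2 * s))) ∧
  ∀ z : ℂ, ∀ n : ℕ, trm (fun s => φ (2 * s)) (fun z => G (z / 2) / 4) z n = trm φ G (z / 2) n / 4

end Pool.Agent.H454.PF
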