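import Pool.Agent.H454.PF.Stm2
import Pool.Graph.R_pool_sql_team_seeded_63374d34.N963.GN.StmD
import Pool.Graph.R_pool_sql_team_seeded_63374d34.N963.GN.StmM

set_option autoImplicit false

/-!
# Project PF, third list: Gaussian weights (Newman's conjecture, infinitely many non-real zeros) for general L-functions

`Lt k z = ∫ k(u) exp (i z u) du`. On the line `Im z = -H` the transform is `A(x) ∑ β_n (n+1)^(-i κ x)` with an absolutely convergent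
Dirichlet series and a Gamma factor `A`, `A'/A = i c0 log x + a1 + o(1)`. The theorem (`S_GA`): for every `s > 0` the transform of
`k(u) exp (-s u²)` has infinitely many non-real zeros. They lie near `Im z = - 2 s c0 log (Re z)`.
-/

namespace Pool.Agent.H454.PF

open Complex Filter Topology MeasureTheory Polynomial
open scoped ComplexConjugate
open Pool.Agent.N963.GN

/-- the data on the line `Im z = -H`; `β n` is the coefficient of `n + 1` -/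
structure AS (X : ℂ → ℂ) (H κ c0 : ℝ) (a1 : ℂ) (β : ℕ → ℂ) (A : ℝ → ℂ) (x0 C : ℝ) : Prop where
  hκ : 0 < κ
  hc : 0 < c0
  hx : 1 ≤ x0
  hC : 0 ≤ C
  hs : Summable (fun n => ‖β n‖)
  h0 : β 0 ≠ 0
  h1 : ∃ n : ℕ, 1 ≤ n ∧ β n ≠ 0
  hX : ∀ x : ℝ, x0 ≤ x → X (x - I * H) = A x * ∑' n : ℕ, β n * cexp (-(I * κ * x * (Real.log (n + 1) : ℝ)))
  hA : ∀ x : ℝ, x0 ≤ x → A x ≠ 0
  hR : ∀ x y : ℝ, x0 ≤ x → x0 ≤ y → ‖A x‖ ≤ ‖A y‖ * Real.exp (C * (1 + |x - y|))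
  hL : ∀ ρ : ℝ, Tendsto (fun τ : ℝ => A (τ + ρ) / (A τ * cexp (ρ * (I * (c0 * Real.log τ : ℝ) + a1)))) atTop (𝓝 1)

/-- the limit function `D_s(v) = ∑ β_n exp (-s κ² log² (n+1)) (n+1)^(-i κ v)` -/
noncomputable def Ds (κ s : ℝ) (β : ℕ → ℂ) (v : ℂ) : ℂ :=
  ∑' n : ℕ, β n * cexp (-((s * κ ^ 2 * Real.log (n + 1) ^ 2 : ℝ) : ℂ) - I * κ * v * (Real.log (n + 1) : ℝ))

/-- the logarithmic derivative of the Gamma factor, main part -/
noncomputable def LL (c0 : ℝ) (a1 : ℂ) (τ : ℝ) : ℂ := I * (c0 * Real.log τ : ℝ) + a1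

/-- the Gaussian weight -/
noncomputable def gw (k : ℝ → ℂ) (s : ℝ) (u : ℝ) : ℂ := k u * ((Real.exp (-(s * u ^ 2)) : ℝ) : ℂ)

/-- PF-GA0. Gaussian averages on a shifted line. For real `r` and `q = z + i H`:
`∫ exp (i u (x - i H)) exp (-(x - q)²/(4 s)) dx = √(4 π s) exp (i u z) exp (-s u²)` (complex Gaussian integral: Mathlib
`integral_cexp_quadratic`, or `fourierIntegral_gaussian`), then Fubini (`‖k u‖ exp (|u| H)` is integrable, and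
`‖exp (-(x-q)²/(4 s))‖ = exp ((-(x - q.re)² + q.im²)/(4 s))`). (`W.lean` of `N963/GN` has the lemmas on `Wt`.) -/
def S_GA0 : Prop := ∀ (k : ℝ → ℂ), Wt k → ∀ s : ℝ, 0 < s → ∀ (H : ℝ) (z : ℂ),
  Integrable (fun x : ℝ => Lt k (x - I * H) * cexp (-(x - (z + I * H)) ^ 2 / (4 * s))) ∧
  Lt (gw k s) z = ((1 / Real.sqrt (4 * Real.pi * s) : ℝ) : ℂ) *
    ∫ x : ℝ, Lt k (x - I * H) * cexp (-(x - (z + I * H)) ^ 2 / (4 * s))

/-- PF-GA1. Bounds for the quotient. Let `L = LL c0 a1 τ`, `B = ∑ ‖β n‖`, `a = |Re a1|`. Note `‖exp (ρ L)‖ = exp (ρ Re a1)`. For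
`τ ≥ 2 x0` and `|ρ| ≤ τ/2`: `hX` at `τ + ρ ≥ x0` and `hR` give the bound `B exp (C (1 + |ρ|) + a |ρ|)`. For `|ρ| > τ/2`: the numerator is at most `M`, and
`‖A τ‖ ≥ ‖A x0‖ exp (-C (1 + τ))` by `hR` (with `x = x0`, `y = τ`), `τ < 2 |ρ|`. The pointwise limit: for `τ + ρ ≥ x0` the difference is
`(A (τ+ρ)/(A τ exp (ρ L)) - 1) ∑ ...`, the sum is bounded by `B`, and `hL`. -/
def S_GA1 : Prop := ∀ (X : ℂ → ℂ) (H κ c0 : ℝ) (a1 : ℂ) (β : ℕ → ℂ) (A : ℝ → ℂ) (x0 C M : ℝ),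
  AS X H κ c0 a1 β A x0 C → (∀ x : ℝ, ‖X (x - I * H)‖ ≤ M) →
  (∃ τ0 C1 C2 : ℝ, 1 ≤ τ0 ∧ 0 ≤ C1 ∧ 0 ≤ C2 ∧ ∀ τ : ℝ, τ0 ≤ τ → A τ ≠ 0 ∧ ∀ ρ : ℝ,
    ‖X ((τ + ρ : ℝ) - I * H) / (A τ * cexp (ρ * LL c0 a1 τ))‖ ≤ C1 * Real.exp (C2 * |ρ|)) ∧
  ∀ ρ : ℝ, Tendsto (fun τ : ℝ => X ((τ + ρ : ℝ) - I * H) / (A τ * cexp (ρ * LL c0 a1 τ)) -
    ∑' n : ℕ, β n * cexp (-(I * κ * (τ + ρ : ℝ) * (Real.log (n + 1) : ℝ)))) atTop (𝓝 0)

/-- PF-GA2. The asymptotic formula, from `S_GA0` and `S_GA1`. Let `L = LL c0 a1 τ`, `z = τ + v - i H - 2 s L`, so that `z + i H = τ + v - 2 s L`. With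
`x = τ + ρ` in `S_GA0`: `-(x - (z + i H))²/(4 s) = -(ρ - v + 2 s L)²/(4 s) = -(ρ - v)²/(4 s) - (ρ - v) L - s L²`, so that (the factor
`exp (ρ L)` of `S_GA1` cancels) `Lt (gw k s) z · exp (-(v L) + s L²)/A τ = (4 π s)^(-1/2) ∫ [X(τ+ρ-iH)/(A τ exp (ρ L))] exp (-(ρ - v)²/(4 s)) dρ`.
And `Ds κ s β (τ + v) = (4 π s)^(-1/2) ∫ [∑ β_n exp (-i κ (τ + ρ) log (n+1))] exp (-(ρ - v)²/(4 s)) dρ` (Gaussian integral termwise). The difference is at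
most `(4 π s)^(-1/2) ∫ δ_τ(ρ) exp ((-ρ² + 2 R |ρ| + R²)/(4 s)) dρ` for all `‖v‖ ≤ R`, `δ_τ(ρ)` the absolute value of the difference of the brackets, bounded by
`C1 exp (C2 |ρ|) + ∑ ‖β n‖` and tending to `0` for every `ρ`: dominated convergence. (`M = ∫ ‖k u‖ exp (|H| |u|)`, `norm_Lt_le` in `W.lean`, or directly.) -/
def S_GA2 : Prop := S_GA0 → S_GA1 → ∀ (k : ℝ → ℂ) (H κ c0 : ℝ) (a1 : ℂ) (β : ℕ → ℂ) (A : ℝ → ℂ) (x0 C : ℝ), Wt k →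
  AS (Lt k) H κ c0 a1 β A x0 C → ∀ s : ℝ, 0 < s → ∀ R ε : ℝ, 0 < ε → ∃ T : ℝ, ∀ τ : ℝ, T ≤ τ → A τ ≠ 0 ∧ ∀ v : ℂ, ‖v‖ ≤ R →
    ‖Lt (gw k s) (τ + v - I * H - 2 * s * LL c0 a1 τ) * cexp (-(v * LL c0 a1 τ) + s * LL c0 a1 τ ^ 2) / A τ -
      Ds κ s β (τ + v)‖ ≤ ε

/-- PF-GA3. The limit function is entire, not identically zero, and has a zero. Proof. Termwise `‖.‖ ≤ ‖β n‖ exp (-s κ² l² + κ |Im v| l) ≤
‖β n‖ exp (|Im v|²/(4 s))`, `l = log (n+1)`: so `Ds` is entire (locally uniformly convergent series, `differentiableOn_tsum_of_summable_norm`) and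
`‖Ds v‖ ≤ B exp (‖v‖²/(4 s))`. For `Im v → -∞` it tends to `β 0` uniformly in `Re v` (dominated convergence or Tannery: `‖(n+1)^(-i κ v)‖ =
(n+1)^(κ Im v)`), so it is not identically zero. If it had no zero, `Ds = Ds 0 · exp L` with `L` entire, `L 0 = 0` and `Re L v ≤ A + M ‖v‖²`, so
`L v = b v + a v²` by the library lemma `Pool.Agent.N186.GN.quad` (module `Pool.Graph.R_pool_sql_team_seeded_63374d34.N186.GN.C4`; see its
proof of `c4` for the logarithm). With `v = x - i y`, `y → + ∞`: `Ds (x - i y)/Ds (- i y) → 1`, that is `exp (a (x² - 2 i x y) + b x) → 1` for all real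
`x`; the absolute value gives `Im a = 0` and then `Re a x² + Re b x = 0`, so `a = 0`, `Re b = 0`; and `exp (- i b y)` converges to a nonzero limit, so
`b = 0`. So `Ds` is constant. For the least `m ≥ 1` with `β m ≠ 0` multiply `0 = Ds v - β 0 = ∑_{n ≥ m} ...` by `(m+1)^(i κ v)` and let
`Im v → -∞`: `β m exp (...) = 0`, a contradiction. -/
def S_GA3 : Prop := ∀ (κ s : ℝ) (β : ℕ → ℂ), 0 < κ → 0 < s → Summable (fun n => ‖β n‖) → β 0 ≠ 0 → (∃ n : ℕ, 1 ≤ n ∧ β n ≠ 0) →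
  Differentiable ℂ (Ds κ s β) ∧ (∃ v, Ds κ s β v ≠ 0) ∧ ∃ v, Ds κ s β v = 0

/-- PF-GA4. Almost periodicity. For `‖v‖ ≤ R` and real `τ` the terms of `Ds (τ + v)` are at most `‖β n‖ exp (R²/(4 s))`-like, so the sum over `n ≥ N` is
`≤ ε/4`; for `n < N` it is enough that `(n+1)^(-i κ τ)` is close to `1`. The sequence `j ↦ ((n+1)^(-i κ j T'))_{n < N}` (`T' = max T 1`) has two terms
`j < j'` which are close to each other (compactness of a product of circles / pigeonhole), and `τ = (j' - j) T'`. -/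
def S_GA4 : Prop := ∀ (κ s : ℝ) (β : ℕ → ℂ), 0 < κ → 0 < s → Summable (fun n => ‖β n‖) → ∀ R ε T : ℝ, 0 < ε →
  ∃ τ : ℝ, T ≤ τ ∧ ∀ v : ℂ, ‖v‖ ≤ R → ‖Ds κ s β (τ + v) - Ds κ s β v‖ ≤ ε

/-- PF-GA5. The theorem. Let `Ds v0 = 0`, `0 < r < 1` with `‖Ds‖ ≥ m > 0` on the circle `‖v - v0‖ = r` (isolated zeros), `R = ‖v0‖ + 1`, `ε = m/8`.
By `S_GA4` and the conclusion of `S_GA2` there are arbitrarily large `τ` such that `E v = Lt (gw k s) (τ + v - i H - 2 s L) exp (..)/A τ` (entire in `v`)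
satisfies `‖E v - Ds v‖ ≤ m/4` for `‖v‖ ≤ R`; if `E` had no zero in the disc, the maximum principle for `1/E` would give `‖E v0‖ ≥ 3m/4`
(`Complex.norm_le_of_forall_mem_frontier_norm_le` or so), but `‖E v0‖ ≤ m/4`. So there is a zero `z = τ + v - i H - 2 s L` of the transform with `‖v - v0‖ ≤ r`, and
`Im z = Im v - H - 2 s c0 log τ - 2 s Im a1 → - ∞`; so the set of the non-real zeros is infinite (if finite, `Im` would be bounded on it). -/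
def S_GA5 : Prop := S_GA0 → S_GA1 → S_GA2 → S_GA3 → S_GA4 → ∀ (k : ℝ → ℂ) (H κ c0 : ℝ) (a1 : ℂ) (β : ℕ → ℂ) (A : ℝ → ℂ)
  (x0 C : ℝ), Wt k → AS (Lt k) H κ c0 a1 β A x0 C → ∀ s : ℝ, 0 < s → (NRZ (Lt (gw k s))).Infinite

/-- PF-GDD. The data for Dirichlet L-functions (`StmD.lean` of `N963/GN`), `H = 1`, `κ = 1`, `c0 = 1/2`. By `D4` (`S_D4`; library theorem
`Pool.Agent.N712.GN.D4` in `N712/GN/D34.lean`) with `w = 3/2 + i x` (`1/2 + i z` for `z = x - i`), the transform is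
`(κ/2) q^((w+ν)/2) Gammaℝ (w+ν) ∑ b(n) n^(-w)`, so `β n = b (n+1) (n+1)^(-3/2)`, and `A x = (κ/2) q^((w+ν)/2) π^(-(w+ν)/2) Γ((w+ν)/2)`. `hR`: the
logarithmic derivative of `A` is `(i/2)(log (q/π) + ψ((w+ν)/2))`, whose real part is bounded by the digamma bound (`digamma_bound`, `H370R2/Digamma.lean`, imported
there). `hL`: Stirling's formula (library `Pool/Graph/R_seed8/TH814/GS/Stir.lean`, `stir_right`/`stir_tendsto`, or `R_seed8/H401R2/Stir.lean`,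
`R_seed8/W688/GF/Stirling.lean`): `Γ(p + i ρ/2)/Γ(p) ~ p^(iρ/2)`, `p = (3/2 + ν + i τ)/2`, and `log p = log (τ/2) + iπ/2 + O(1/τ)`; so
`a1 = (i/2)(log (q/π) - log 2 + iπ/2)`. `b 1 = 1`, `b (q+1) = 1`. (Take first fetches of all library modules with `team-store fetch`.) -/
def S_GDD : Prop := ∀ (q ν : ℕ) (b : ℕ → ℂ) (κ : ℂ), TD q ν b κ →
  ∃ (H κ' c0 : ℝ) (a1 : ℂ) (β : ℕ → ℂ) (A : ℝ → ℂ) (x0 C : ℝ), AS (Lt (fun u : ℝ => Kd q ν b κ (u : ℂ))) H κ' c0 a1 β A x0 C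

/-- PF-GMM. The data for cusp forms (`StmM.lean`), `κ = 1`, `c0 = 1`, `H` large. By `Lt_formula` in the library module `N348/GN/M3.lean` (with
`L_bounds`, `summ` there) for `z = x - i H`, `w = k/2 + H + i x`: the transform is `const · A0^(-w) Γ(w) ∑ b(n) n^(-w)` (`A0 = 2π/√N`), so
`β n = b (n+1) (n+1)^(-(k/2+H))`, `A x = const · A0^(-w) Γ(w)`. `hR` and `hL` as in `S_GDD`: `Γ(w + iρ)/Γ(w) ~ w^(iρ)`, `log w = log τ + iπ/2 + O(1/τ)`,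
`a1 = i(- log A0 + iπ/2)`. Some `b n ≠ 0` with `n ≥ 2`: otherwise `F τ = b 1 exp (2π i τ)`, and `aut` for the matrix `(1 0; N 1)` at `τ = i y`, `y → ∞`, gives
`exp (2π i τ/(N τ + 1)) = (N τ + 1)^k exp (2π i τ)`, whose left side tends to `exp (2π i/N)` and the right side to `0`. -/
def S_GMM : Prop := ∀ (N k : ℕ) (F : ℂ → ℂ) (b : ℕ → ℂ) (κ : ℂ), MF N k F b κ →
  ∃ (H κ' c0 : ℝ) (a1 : ℂ) (β : ℕ → ℂ) (A : ℝ → ℂ) (x0 C : ℝ), AS (Lt (fun u : ℝ => Km N k F κ (u : ℂ))) H κ' c0 a1 β A x0 C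

/-- PF-WD. The kernel of a Dirichlet L-function is an admissible weight (`Wg` in `Stm2.lean`). `D1 : S_D1` (library `N738/GN/D1.lean`) is `Kern`: it gives
measurability (continuity), `herm`, `gro`. Gaussian moments: for `u ≥ 0` the series is bounded by `C exp (C u) exp (-π exp (2u)/(2q))`
(the proof of `dec` in that file has such a bound), for `u < 0` use `herm`: `‖K(-u)‖ = ‖K u‖`. Model for zeta: PF-WG (`S_WG`). -/
def S_WD : Prop := ∀ (q ν : ℕ) (b : ℕ → ℂ) (κ : ℂ), TD q ν b κ → Wg (fun u : ℝ => Kd q ν b κ (u : ℂ))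

/-- PF-WM. The same for cusp forms: `M1 : S_M1` (library `N498/GN/M1.lean`) is `Kern`; for `u ≥ 0`, `‖F (i e^u/√N)‖ ≤ C exp (-2π e^u/√N)` (from `sum` and
`bb`, see that file), for `u < 0` use `herm`. -/
def S_WM : Prop := ∀ (N k : ℕ) (F : ℂ → ℂ) (b : ℕ → ℂ) (κ : ℂ), MF N k F b κ → Wg (fun u : ℝ => Km N k F κ (u : ℂ))

end Pool.Agent.H454.PF
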