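import Pool.Agent.H454.PF.Stm2
import Pool.Graph.R_pool_sql_team_seeded_63374d34.N14.GN.E1

set_option autoImplicit false

/-!
# The kernel of the xi function has all Gaussian moments
-/

namespace Pool.Agent.H454.PF

open Complex Filter Topology MeasureTheory
open scoped ComplexConjugate
open Pool.Agent.N963.GN
open Pool.Agent.Helper242

lemma sq_le_cube {a r : ℝ} (ha : 0 ≤ a) (hr : 0 ≤ r) : a * r ^ 2 ≤ a ^ 3 + r ^ 3 := by
  have h1 : 0 ≤ a ^ 3 := by positivity
  have h2 : 0 ≤ r ^ 3 := by positivity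
  rcases le_total a r with h | h
  · have : a * r ^ 2 ≤ r * r ^ 2 := mul_le_mul_of_nonneg_right h (by positivity)
    nlinarith
  · have : a * r ^ 2 ≤ a * a ^ 2 := mul_le_mul_of_nonneg_left (pow_le_pow_left₀ hr h 2) ha
    nlinarith

lemma lin_le_cube {r : ℝ} (hr : 0 ≤ r) : 9 * r ≤ 27 + r ^ 3 := by
  nlinarith [mul_nonneg hr (sq_nonneg (r - 3)), sq_nonneg (r - 3)]

theorem t_WG : S_WG := by
  have hK := Pool.Agent.N14.GN.E1
  have hcont : Continuous (fun u : ℝ => ((RK.Phi u : ℝ) : ℂ)) := by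
    have e : (fun u : ℝ => ((RK.Phi u : ℝ) : ℂ)) = fun u : ℝ => RK.PhiC (u : ℂ) := by
      funext u
      exact (RK.PhiC_ofReal u).symm
    rw [e, continuous_iff_continuousAt]
    intro u
    have h1 : ContinuousAt RK.PhiC (u : ℂ) := (hK.diff u (by simp [Real.pi_pos])).continuousAt
    exact h1.comp Complex.continuous_ofReal.continuousAt
  refine ⟨hcont.measurable, ?_, ?_, ?_⟩
  · intro u
    rw [RK.Phi_even, conj_ofReal]
  · intro M
    obtain ⟨A, hA, h⟩ := RK.PhiC_bound (le_refl (0 : ℝ)) (by positivity)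
    have hint : Integrable (fun u : ℝ => A * Real.exp (27 + |M + 1| ^ 3) * Real.exp (-1 * u ^ 2)) :=
      (integrable_exp_neg_mul_sq one_pos).const_mul _
    refine hint.mono' ((hcont.norm.mul (by fun_prop)).aestronglyMeasurable) (Eventually.of_forall fun u => ?_)
    rw [norm_mul, norm_norm, Real.norm_of_nonneg (Real.exp_pos _).le]
    have h1 := h (u : ℂ) (by simp)
    simp only [ofReal_re, mul_zero, Real.cos_zero, mul_one] at h1
    rw [RK.PhiC_ofReal] at h1
    have h3 := Real.pow_div_factorial_le_exp (4 * |u|) (by positivity) 3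
    have e3 : (4 * |u|) ^ 3 / ((3 : ℕ).factorial : ℝ) = (32 / 3) * |u| ^ 3 := by
      norm_num [Nat.factorial]; ring
    rw [e3] at h3
    have hc : 0 ≤ |u| ^ 3 := by positivity
    have h4 : 3 * Real.exp (4 * |u|) ≤ Real.pi * Real.exp (4 * |u|) :=
      mul_le_mul_of_nonneg_right Real.pi_gt_three.le (Real.exp_pos _).le
    have h5 := sq_le_cube (abs_nonneg (M + 1)) (abs_nonneg u)
    have h6 := lin_le_cube (abs_nonneg u)
    have h7 : |u| ^ 2 = u ^ 2 := sq_abs u
    have h8 : (M + 1) * u ^ 2 ≤ |M + 1| * |u| ^ 2 := by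
      rw [h7]
      exact mul_le_mul_of_nonneg_right (le_abs_self _) (sq_nonneg _)
    calc ‖((RK.Phi u : ℝ) : ℂ)‖ * Real.exp (M * u ^ 2)
        ≤ A * Real.exp (9 * |u| - Real.pi * Real.exp (4 * |u|)) * Real.exp (M * u ^ 2) :=
          mul_le_mul_of_nonneg_right h1 (Real.exp_pos _).le
      _ = A * Real.exp (9 * |u| - Real.pi * Real.exp (4 * |u|) + M * u ^ 2) := by
          rw [mul_assoc, ← Real.exp_add]
      _ ≤ A * Real.exp (27 + |M + 1| ^ 3 + -1 * u ^ 2) := by
          refine mul_le_mul_of_nonneg_left (Real.exp_le_exp.2 ?_) hA.le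
          nlinarith
      _ = _ := by rw [Real.exp_add, mul_assoc]
  · obtain ⟨C, hC, hg⟩ := hK.gro
    refine ⟨C, hC, fun R hR => ?_⟩
    have h1 := hg R hR
    simp only [RK.PhiC_ofReal] at h1
    exact h1

end Pool.Agent.H454.PF
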